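import Pool.Agent.R399.TW.Ser

/-!
# Coefficients of `L(s) / L(s + iu)` in mean square
-/

set_option autoImplicit false

namespace Pool.Agent.NH12.BA

open Finset Filter Topology Complex
open ArithmeticFunction (vonMangoldt)
open Pool.Agent.R399.TW

/-- the character `n ↦ n^(iu)` -/
noncomputable def nu (u : ℝ) (n : ℕ) : ℂ := (n : ℂ) ^ ((u : ℂ) * Complex.I)

lemma nu_one (u : ℝ) : nu u 1 = 1 := by simp [nu]

lemma nu_mul (u : ℝ) (a b : ℕ) : nu u (a * b) = nu u a * nu u b := by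
  unfold nu
  push_cast
  exact Complex.natCast_mul_natCast_cpow a b _

lemma nu_eq {n : ℕ} (hn : n ≠ 0) (u : ℝ) :
    nu u n = cexp (Complex.I * ((u * Real.log n : ℝ) : ℂ)) := by
  have hn0 : (n : ℂ) ≠ 0 := by exact_mod_cast hn
  unfold nu
  rw [Complex.cpow_def_of_ne_zero hn0, ← Complex.natCast_log]
  congr 1
  push_cast
  ring

lemma norm_nu {n : ℕ} (hn : n ≠ 0) (u : ℝ) : ‖nu u n‖ = 1 := by
  rw [nu_eq hn, Complex.norm_exp_I_mul_ofReal]

lemma norm_nu_le (u : ℝ) (n : ℕ) : ‖nu u n‖ ≤ 1 := by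
  rcases eq_or_ne n 0 with rfl | hn
  · unfold nu
    rcases eq_or_ne u 0 with rfl | hu
    · simp
    · rw [Nat.cast_zero, Complex.zero_cpow (by simp [hu]), norm_zero]
      norm_num
  · exact (norm_nu hn u).le

lemma nu_add {n : ℕ} (hn : n ≠ 0) (u v : ℝ) : nu (u + v) n = nu u n * nu v n := by
  rw [nu_eq hn, nu_eq hn, nu_eq hn, ← Complex.exp_add]
  congr 1
  push_cast
  ring

/-- `min(4, x²) ≤ 6 (1 - exp(-x))` -/
lemma min_le_exp {x y : ℝ} (hx : 0 ≤ x) (h4 : y ≤ 4) (h2 : y ≤ x ^ 2) :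
    y ≤ 6 * (1 - Real.exp (-x)) := by
  have h1 : Real.exp (-x) ≤ 1 / (1 + x) := by
    rw [Real.exp_neg, ← one_div]
    exact one_div_le_one_div_of_le (by linarith) (by linarith [Real.add_one_le_exp x])
  have h3 : 6 * (1 - 1 / (1 + x)) ≤ 6 * (1 - Real.exp (-x)) := by linarith
  refine le_trans ?_ h3
  have h5 : 6 * (1 - 1 / (1 + x)) = 6 * x / (1 + x) := by
    field_simp
    ring
  rw [h5, le_div_iff₀ (by linarith)]
  rcases le_total x 2 with h | h
  · nlinarith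
  · nlinarith

lemma one_sub_nu {n : ℕ} (hn : n ≠ 0) (u : ℝ) :
    ‖1 - nu u n‖ ^ 2 ≤ 6 * (1 - (n : ℝ) ^ (-|u|)) := by
  have hn1 : (1 : ℝ) ≤ n := by exact_mod_cast Nat.one_le_iff_ne_zero.2 hn
  have hn0 : (0 : ℝ) < n := by linarith
  have hl : 0 ≤ Real.log n := Real.log_nonneg hn1
  have e1 : (n : ℝ) ^ (-|u|) = Real.exp (-(|u| * Real.log n)) := by
    rw [Real.rpow_def_of_pos hn0]
    congr 1
    ring
  rw [e1]
  refine min_le_exp (by positivity) ?_ ?_
  · have h1 : ‖1 - nu u n‖ ≤ 2 := by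
      refine (norm_sub_le _ _).trans ?_
      rw [norm_one, norm_nu hn]
      norm_num
    nlinarith [norm_nonneg (1 - nu u n)]
  · have h1 : ‖1 - nu u n‖ ≤ |u| * Real.log n := by
      rw [norm_sub_rev, nu_eq hn]
      refine Real.norm_exp_I_mul_ofReal_sub_one_le.trans ?_
      rw [Real.norm_eq_abs, abs_mul, abs_of_nonneg hl]
    exact pow_le_pow_left₀ (norm_nonneg _) h1 2

lemma norm_one_sub_nu_le {n : ℕ} (hn : n ≠ 0) (u : ℝ) : ‖1 - nu u n‖ ^ 2 ≤ 4 := by
  have h1 : ‖1 - nu u n‖ ≤ 2 := by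
    refine (norm_sub_le _ _).trans ?_
    rw [norm_one, norm_nu hn]
    norm_num
  nlinarith [norm_nonneg (1 - nu u n)]

/-- the bound for `1 < σ ≤ 3` -/
lemma S_three {κ : ℕ → ℝ} (h : ∀ n, 0 ≤ κ n) {C : ℝ}
    (hS : ∀ σ : ℝ, 1 < σ → σ ≤ 2 → ∀ N : ℕ,
      ∑ n ∈ Icc 2 N, vonMangoldt n * κ n * (n : ℝ) ^ (-σ) ≤ C / (σ - 1)) {σ : ℝ} (h1 : 1 < σ)
    (h2 : σ ≤ 3) (N : ℕ) :
    ∑ n ∈ Icc 2 N, vonMangoldt n * κ n * (n : ℝ) ^ (-σ) ≤ 2 * C / (σ - 1) := by
  have hC0 : 0 ≤ C := by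
    have := hS 2 (by norm_num) le_rfl 0
    simp at this
    linarith
  rcases le_total σ 2 with h3 | h3
  · refine (hS σ h1 h3 N).trans ?_
    have : 0 < σ - 1 := by linarith
    gcongr
    linarith
  · have h4 := hS 2 (by norm_num) le_rfl N
    have h5 : C / (2 - 1) = C := by norm_num
    rw [h5] at h4
    refine le_trans ?_ (h4.trans ?_)
    · refine Finset.sum_le_sum fun n hn => ?_
      rw [mem_Icc] at hn
      have hn1 : (1 : ℝ) ≤ n := by exact_mod_cast (show 1 ≤ n by omega)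
      have := h n
      exact mul_le_mul_of_nonneg_left (Real.rpow_le_rpow_of_exponent_le hn1 (by linarith))
        (mul_nonneg (vm_nn n) (h n))
    · rw [le_div_iff₀ (by linarith)]
      nlinarith

/-- the difference of two values of the logarithm -/
lemma dif_log {κ : ℕ → ℝ} (h : ∀ n, 0 ≤ κ n) {C : ℝ}
    (hS : ∀ σ : ℝ, 1 < σ → σ ≤ 2 → ∀ N : ℕ,
      ∑ n ∈ Icc 2 N, vonMangoldt n * κ n * (n : ℝ) ^ (-σ) ≤ C / (σ - 1))
    (N : ℕ) {η u : ℝ} (hη : 0 < η) (hη1 : η ≤ 1) (hu : 0 ≤ u) (hu1 : u ≤ 1) :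
    ∑ n ∈ Icc 2 N, vonMangoldt n / Real.log n * κ n * ((n : ℝ) ^ (-(1 + η)) *
      (1 - (n : ℝ) ^ (-u))) ≤ 2 * C * Real.log (1 + u / η) := by
  set G : ℝ → ℝ := fun σ => ∑ n ∈ Icc 2 N, vonMangoldt n / Real.log n * κ n * (n : ℝ) ^ (-σ)
    with hG
  set S : ℝ → ℝ := fun σ => ∑ n ∈ Icc 2 N, vonMangoldt n * κ n * (n : ℝ) ^ (-σ) with hSd
  have hG' : ∀ σ, HasDerivAt G (-S σ) σ := by
    intro σ
    rw [hG, hSd, ← Finset.sum_neg_distrib]
    refine HasDerivAt.fun_sum fun n hn => ?_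
    rw [mem_Icc] at hn
    have hl : Real.log n ≠ 0 := (Real.log_pos (by exact_mod_cast (show 1 < n by omega))).ne'
    exact ((hasDerivAt_rp (n := n) (by omega) σ).const_mul
      (vonMangoldt n / Real.log n * κ n)).congr_deriv (by field_simp)
  have hmono : MonotoneOn (fun σ => G σ + 2 * C * Real.log (σ - 1))
      (Set.Icc (1 + η) (1 + η + u)) := by
    have hd : ∀ σ : ℝ, 1 < σ → HasDerivAt (fun σ => G σ + 2 * C * Real.log (σ - 1))
        (-S σ + 2 * C * (1 / (σ - 1))) σ := by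
      intro σ hσ
      refine (hG' σ).add (HasDerivAt.const_mul (2 * C) ?_)
      exact ((hasDerivAt_id σ).sub_const 1).log (by simp only [id]; linarith)
    refine monotoneOn_of_deriv_nonneg (convex_Icc _ _) ?_ ?_ ?_
    · intro σ hσ
      exact (hd σ (by linarith [hσ.1])).continuousAt.continuousWithinAt
    · intro σ hσ
      rw [interior_Icc] at hσ
      exact (hd σ (by linarith [hσ.1])).differentiableAt.differentiableWithinAt
    · intro σ hσ
      rw [interior_Icc] at hσ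
      rw [(hd σ (by linarith [hσ.1])).deriv]
      have := S_three h hS (σ := σ) (by linarith [hσ.1]) (by linarith [hσ.2]) N
      have e : 2 * C * (1 / (σ - 1)) = 2 * C / (σ - 1) := by ring
      rw [e]
      linarith
  have h1 := hmono (Set.left_mem_Icc.2 (by linarith)) (Set.right_mem_Icc.2 (by linarith))
    (by linarith)
  simp only [add_sub_cancel_left] at h1
  have e1 : 1 + η + u - 1 = η + u := by ring
  rw [e1] at h1
  have e2 : Real.log (1 + u / η) = Real.log (η + u) - Real.log η := by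
    rw [← Real.log_div (by linarith) (by linarith)]
    congr 1
    field_simp
  have e3 : ∑ n ∈ Icc 2 N, vonMangoldt n / Real.log n * κ n * ((n : ℝ) ^ (-(1 + η)) *
      (1 - (n : ℝ) ^ (-u))) = G (1 + η) - G (1 + η + u) := by
    rw [hG]
    simp only
    rw [← Finset.sum_sub_distrib]
    refine Finset.sum_congr rfl fun n hn => ?_
    rw [mem_Icc] at hn
    have hn0 : (0 : ℝ) < n := by exact_mod_cast (show 0 < n by omega)
    have e4 : (n : ℝ) ^ (-(1 + η + u)) = (n : ℝ) ^ (-(1 + η)) * (n : ℝ) ^ (-u) := by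
      rw [← Real.rpow_add hn0]
      congr 1
      ring
    rw [e4]
    ring
  rw [e3, e2]
  linarith

/-- **the mean square of the coefficients** -/
theorem tw_bound {κ : ℕ → ℝ} (h : ∀ n, 0 ≤ κ n) {C : ℝ}
    (hS : ∀ σ : ℝ, 1 < σ → σ ≤ 2 → ∀ N : ℕ,
      ∑ n ∈ Icc 2 N, vonMangoldt n * κ n * (n : ℝ) ^ (-σ) ≤ C / (σ - 1))
    (N : ℕ) {η : ℝ} (u : ℝ) (hη : 0 < η) (hη1 : η ≤ 1) :
    ∑ n ∈ Icc 1 N, E (fun k => κ k * ‖1 - nu u k‖ ^ 2) n * (n : ℝ) ^ (-(1 + η)) ≤
      Real.exp (8 * C) * (1 + |u| / η) ^ (12 * C) := by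
  have hC0 : 0 ≤ C := by
    have := hS 2 (by norm_num) le_rfl 0
    simp at this
    linarith
  have hb : 0 < 1 + |u| / η := by positivity
  have hb1 : 1 ≤ 1 + |u| / η := by
    have : 0 ≤ |u| / η := by positivity
    linarith
  refine (fin_exp (κ := fun k => κ k * ‖1 - nu u k‖ ^ 2)
    (fun n => mul_nonneg (h n) (by positivity)) N (1 + η)).trans ?_
  rw [Real.rpow_def_of_pos hb, ← Real.exp_add]
  apply Real.exp_le_exp.2
  have hlb : 0 ≤ Real.log (1 + |u| / η) := Real.log_nonneg hb1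
  rcases le_total |u| 1 with hu | hu
  · have h1 := dif_log h hS N hη hη1 (abs_nonneg u) hu
    have h2 : ∑ n ∈ Icc 2 N, vonMangoldt n / Real.log n * (κ n * ‖1 - nu u n‖ ^ 2) *
        (n : ℝ) ^ (-(1 + η)) ≤ 6 * ∑ n ∈ Icc 2 N, vonMangoldt n / Real.log n * κ n *
        ((n : ℝ) ^ (-(1 + η)) * (1 - (n : ℝ) ^ (-|u|))) := by
      rw [Finset.mul_sum]
      refine Finset.sum_le_sum fun n hn => ?_
      rw [mem_Icc] at hn
      have h3 := one_sub_nu (n := n) (by omega) u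
      have hl : 0 ≤ Real.log n := Real.log_nonneg (by exact_mod_cast (show 1 ≤ n by omega))
      have h4 : 0 ≤ vonMangoldt n / Real.log n * κ n * (n : ℝ) ^ (-(1 + η)) :=
        mul_nonneg (mul_nonneg (div_nonneg (vm_nn n) hl) (h n)) (by positivity)
      calc vonMangoldt n / Real.log n * (κ n * ‖1 - nu u n‖ ^ 2) * (n : ℝ) ^ (-(1 + η))
          = (vonMangoldt n / Real.log n * κ n * (n : ℝ) ^ (-(1 + η))) * ‖1 - nu u n‖ ^ 2 := by
            ring
        _ ≤ (vonMangoldt n / Real.log n * κ n * (n : ℝ) ^ (-(1 + η))) *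
            (6 * (1 - (n : ℝ) ^ (-|u|))) := mul_le_mul_of_nonneg_left h3 h4
        _ = _ := by ring
    nlinarith
  · have h1 := fin_log h hS N hη hη1
    have h2 : ∑ n ∈ Icc 2 N, vonMangoldt n / Real.log n * (κ n * ‖1 - nu u n‖ ^ 2) *
        (n : ℝ) ^ (-(1 + η)) ≤ 4 * ∑ n ∈ Icc 2 N, vonMangoldt n / Real.log n * κ n *
        (n : ℝ) ^ (-(1 + η)) := by
      rw [Finset.mul_sum]
      refine Finset.sum_le_sum fun n hn => ?_
      rw [mem_Icc] at hn
      have h3 := norm_one_sub_nu_le (n := n) (by omega) u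
      have hl : 0 ≤ Real.log n := Real.log_nonneg (by exact_mod_cast (show 1 ≤ n by omega))
      have h4 : 0 ≤ vonMangoldt n / Real.log n * κ n * (n : ℝ) ^ (-(1 + η)) :=
        mul_nonneg (mul_nonneg (div_nonneg (vm_nn n) hl) (h n)) (by positivity)
      calc vonMangoldt n / Real.log n * (κ n * ‖1 - nu u n‖ ^ 2) * (n : ℝ) ^ (-(1 + η))
          = (vonMangoldt n / Real.log n * κ n * (n : ℝ) ^ (-(1 + η))) * ‖1 - nu u n‖ ^ 2 := by
            ring
        _ ≤ (vonMangoldt n / Real.log n * κ n * (n : ℝ) ^ (-(1 + η))) * 4 :=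
            mul_le_mul_of_nonneg_left h3 h4
        _ = _ := by ring
    have h5 : Real.log (1 / η) ≤ Real.log (1 + |u| / η) := by
      apply Real.log_le_log (by positivity)
      have : 1 / η ≤ |u| / η := by gcongr
      linarith
    nlinarith

end Pool.Agent.NH12.BA
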