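import Pool.Agent.NH12.BA.Near2
import Pool.Agent.R399.TM.Tail

/-!
# Exponential decay of the frequency of zeros of high order, uniformly
-/

set_option autoImplicit false

namespace Pool.Agent.NH12.BA

open Finset Filter Topology Complex MeasureTheory
open Pool.Agent.R399.TW Pool.Agent.R399.TM
open scoped ComplexConjugate

/-- **exponential decay of the frequency of zeros of order `k`** -/
theorem expt2 {m : ℕ} (hm : m ≤ 3) {c : ℕ → ℂ} {R₀ V : ℝ} (A C₀ : ℝ) (hR₀ : 0 ≤ R₀) (hV : 0 ≤ V)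
    (hL : Lin c) : ∃ C : ℝ, 0 ≤ C ∧
    ∀ (Q : ℕ) {ι : Type} (I : Finset ι) (ψ : ι → ℕ → ℂ) (F : ι → ℂ → ℂ)
      (t r : ℝ) (k : ℕ),
      Dat m c R₀ V A Q I ψ F → Sqb c C₀ → r ≤ 1 / 100 →
      600 * r * (1 + Real.log Q) ≤ k →
      (∀ i ∈ I, Dv (F i) k (pt (1 / 2) t) r) →
      (I.card : ℝ) ≤ C * (2 + |t|) ^ (3 * m) * ((Q : ℝ) ^ 2 * Real.exp (-(k : ℝ) / 2000)) := by
  classical
  obtain ⟨b₁, b₂, b₃, hw⟩ := exists_wts
  obtain ⟨C₁, hC₁, hcell⟩ := cell2 hw hm (c := c) R₀ V A C₀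
  obtain ⟨Cd, hCd, hord⟩ := ord_bd m hR₀ hV hL
  set K : ℝ := Real.exp 1 + Real.exp 120 * (Cd * 2 ^ m) +
    2 * C₁ * Real.exp 2 * (1 + 2 * (Cd * 2 ^ m)) with hK
  have hK0 : 0 ≤ K := by positivity
  refine ⟨K, hK0, ?_⟩
  intro Q ι I ψ F t r k hD hSq hr hrk hk
  have hm' : (m : ℝ) ≤ 3 := by exact_mod_cast hm
  have hQ := hD.Q1
  have hA := hD.A0
  have hq1 : (1 : ℝ) ≤ Q := by exact_mod_cast hQ
  have hq0 : (0 : ℝ) < Q := by linarith
  have hlq : 0 ≤ Real.log Q := Real.log_nonneg hq1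
  set l : ℝ := 1 + Real.log Q with hld
  have hl0 : 0 < l := by linarith
  have hl1 : 1 ≤ l := by linarith
  set T : ℝ := |t| with hTd
  have hT : 0 ≤ T := abs_nonneg t
  set e : ℝ := Real.exp (-(k : ℝ) / 2000) with he
  have he0 : 0 < e := Real.exp_pos _
  have hTm : (1 : ℝ) ≤ (2 + T) ^ (3 * m) := one_le_pow₀ (by linarith)
  have hTm' : (1 : ℝ) ≤ (2 + T) ^ (2 * m) := one_le_pow₀ (by linarith)
  have hk0 : (0 : ℝ) ≤ k := Nat.cast_nonneg k
  -- empty sets
  rcases Finset.eq_empty_or_nonempty I with hI | ⟨i₀, hi₀⟩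
  · rw [hI, Finset.card_empty, Nat.cast_zero]
    positivity
  have hkd : (5 / 4 : ℝ) ^ k ≤ Cd * (Q : ℝ) ^ m * (3 + T) ^ m :=
    hord Q (ψ i₀) (F i₀) t k hQ (hD.mem i₀ hi₀) ((hk i₀ hi₀).move (by
      rw [sub_self, norm_zero]; linarith))
  -- consequence
  have h43 : (1 : ℝ) / 5 ≤ Real.log (5 / 4) := by
    have := Real.one_sub_inv_le_log_of_pos (show (0 : ℝ) < 5 / 4 by norm_num)
    norm_num at this ⊢
    linarith
  have hkQ : Real.exp ((k : ℝ) / 5) ≤ Cd * (Q : ℝ) ^ m * (3 + T) ^ m := by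
    refine le_trans ?_ hkd
    have h1 : (5 / 4 : ℝ) ^ k = Real.exp (k * Real.log (5 / 4)) := by
      rw [Real.exp_nat_mul, Real.exp_log (by norm_num)]
    rw [h1]
    apply Real.exp_le_exp.2
    nlinarith
  set W : ℝ := Cd * (3 + T) ^ m with hW
  have hW1 : 1 ≤ W := by
    rw [hW]
    exact one_le_mul_of_one_le_of_one_le hCd (one_le_pow₀ (by linarith))
  have hke : 1 ≤ W * (Q : ℝ) ^ (1 / 120 : ℝ) * e := by
    have h1 : Real.exp ((k : ℝ) / 2000) ≤ W * (Q : ℝ) ^ (1 / 120 : ℝ) := by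
      have h2 : Real.exp ((k : ℝ) / 2000) = Real.exp ((k : ℝ) / 5) ^ (1 / 400 : ℝ) := by
        rw [← Real.exp_mul]
        congr 1
        ring
      rw [h2]
      calc Real.exp ((k : ℝ) / 5) ^ (1 / 400 : ℝ)
          ≤ (W * (Q : ℝ) ^ m) ^ (1 / 400 : ℝ) := by
            refine Real.rpow_le_rpow (Real.exp_pos _).le (hkQ.trans (le_of_eq ?_)) (by norm_num)
            rw [hW]
            ring
        _ = W ^ (1 / 400 : ℝ) * ((Q : ℝ) ^ m) ^ (1 / 400 : ℝ) :=
            Real.mul_rpow (by linarith) (by positivity)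
        _ ≤ W * (Q : ℝ) ^ (1 / 120 : ℝ) := by
            have h3 : W ^ (1 / 400 : ℝ) ≤ W := by
              have := Real.rpow_le_rpow_of_exponent_le hW1 (show (1 / 400 : ℝ) ≤ 1 by norm_num)
              rwa [Real.rpow_one] at this
            have h4 : ((Q : ℝ) ^ m) ^ (1 / 400 : ℝ) ≤ (Q : ℝ) ^ (1 / 120 : ℝ) := by
              rw [← Real.rpow_natCast, ← Real.rpow_mul hq0.le]
              exact Real.rpow_le_rpow_of_exponent_le hq1 (by linarith)
            exact mul_le_mul h3 h4 (by positivity) (by linarith)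
    have h5 : Real.exp ((k : ℝ) / 2000) * e = 1 := by
      rw [he, ← Real.exp_add]
      have : (k : ℝ) / 2000 + -(k : ℝ) / 2000 = 0 := by ring
      rw [this, Real.exp_zero]
    exact h5.symm.le.trans (mul_le_mul_of_nonneg_right h1 he0.le)
  have hWT : W ≤ Cd * 2 ^ m * (2 + T) ^ m := by
    rw [hW, mul_assoc, ← mul_pow]
    gcongr
    linarith
  have hTT : (2 + T) ^ m ≤ (2 + T) ^ (3 * m) :=
    pow_le_pow_right₀ (by linarith) (by omega)
  rcases lt_or_ge l 40 with h40 | h40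
  · -- small Q
    have h1 : (Q : ℝ) ^ (1 / 120 : ℝ) ≤ Real.exp 120 := by
      rw [Real.rpow_def_of_pos hq0]
      apply Real.exp_le_exp.2
      have : Real.log Q ≤ 40 := by linarith
      linarith
    calc (I.card : ℝ) ≤ (Q : ℝ) ^ 2 := hD.card
      _ = (Q : ℝ) ^ 2 * 1 := by ring
      _ ≤ (Q : ℝ) ^ 2 * (W * (Q : ℝ) ^ (1 / 120 : ℝ) * e) := by gcongr
      _ ≤ (Q : ℝ) ^ 2 * ((Cd * 2 ^ m * (2 + T) ^ (3 * m)) * Real.exp 120 * e) := by
          have := hWT.trans (mul_le_mul_of_nonneg_left hTT (by positivity : 0 ≤ Cd * 2 ^ m))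
          gcongr
      _ = (Real.exp 120 * (Cd * 2 ^ m)) * (2 + T) ^ (3 * m) * ((Q : ℝ) ^ 2 * e) := by ring
      _ ≤ K * (2 + T) ^ (3 * m) * ((Q : ℝ) ^ 2 * e) := by
          have h2 : Real.exp 120 * (Cd * 2 ^ m) ≤ K := by
            rw [hK]
            have h3 := Real.exp_pos 1
            have h4 : 0 ≤ 2 * C₁ * Real.exp 2 * (1 + 2 * (Cd * 2 ^ m)) := by positivity
            linarith
          gcongr
  rcases lt_or_ge k 400 with hk4 | hk4
  · -- small order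
    have h1 : 1 ≤ Real.exp 1 * e := by
      rw [he, ← Real.exp_add]
      apply Real.one_le_exp
      have : (k : ℝ) ≤ 400 := by exact_mod_cast hk4.le
      linarith
    calc (I.card : ℝ) ≤ (Q : ℝ) ^ 2 := hD.card
      _ = (Q : ℝ) ^ 2 * 1 := by ring
      _ ≤ (Q : ℝ) ^ 2 * (Real.exp 1 * e) := by gcongr
      _ = Real.exp 1 * 1 * ((Q : ℝ) ^ 2 * e) := by ring
      _ ≤ K * (2 + T) ^ (3 * m) * ((Q : ℝ) ^ 2 * e) := by
          have h2 : Real.exp 1 ≤ K := by
            rw [hK]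
            have h3 : 0 ≤ Real.exp 120 * (Cd * 2 ^ m) := by positivity
            have h4 : 0 ≤ 2 * C₁ * Real.exp 2 * (1 + 2 * (Cd * 2 ^ m)) := by positivity
            linarith
          gcongr
  -- the main case
  set k' : ℕ := min k ⌊10 * l⌋₊ with hk'
  have hk'1 : k' ≤ k := min_le_left _ _
  have hk'2 : (k' : ℝ) ≤ 10 * l := by
    have h1 : k' ≤ ⌊10 * l⌋₊ := min_le_right _ _
    have h2 : (k' : ℝ) ≤ (⌊10 * l⌋₊ : ℝ) := by exact_mod_cast h1
    exact h2.trans (Nat.floor_le (by positivity))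
  have hk'3 : 400 ≤ k' := by
    rw [hk']
    refine le_min hk4 (Nat.le_floor ?_)
    push_cast
    linarith
  have hk'4 : (400 : ℝ) ≤ k' := by exact_mod_cast hk'3
  set lam : ℝ := (k' : ℝ) / (100 * l) with hlam
  have hlaml : lam * l = k' / 100 := by rw [hlam]; field_simp
  have hlam1 : 4 ≤ lam * l := by
    rw [hlaml]
    linarith
  have hlam2 : lam ≤ 1 / 10 := by
    rw [hlam, div_le_div_iff₀ (by positivity) (by norm_num)]
    linarith
  have hlam0 : 0 < lam := by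
    rw [hlam]
    positivity
  have hrl : r ≤ lam / 6 := by
    rw [hlam, div_div, le_div_iff₀ (by positivity)]
    rcases le_total k ⌊10 * l⌋₊ with h | h
    · have h1 : k' = k := min_eq_left h
      rw [h1]
      linarith
    · have h1 : k' = ⌊10 * l⌋₊ := min_eq_right h
      have h2 : 10 * l - 1 ≤ (k' : ℝ) := by
        rw [h1]
        have := Nat.lt_floor_add_one (10 * l)
        linarith
      nlinarith
  have key := hcell Q I ψ F l lam t k' hD hSq hld hlam1 hlam2 (fun i hi => by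
    refine ((hk i hi).le hk'1).move ?_
    have e1 : pt (1 / 2) t - pt (1 / 2 + lam) t = ((-lam : ℝ) : ℂ) := by
      apply Complex.ext
      · simp
      · simp
    rw [e1, Complex.norm_real, Real.norm_eq_abs, abs_neg, abs_of_pos hlam0]
    linarith)
  have hQe : Real.exp (2 * l) = Real.exp 2 * (Q : ℝ) ^ 2 := by
    have : (Q : ℝ) ^ 2 = Real.exp (2 * Real.log Q) := by
      rw [← Real.exp_log (show (0 : ℝ) < (Q : ℝ) ^ 2 by positivity), Real.log_pow]
      push_cast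
      rfl
    rw [this, ← Real.exp_add]
    congr 1
    rw [hld]
    ring
  have g1 : Real.exp ((2 - lam / 10) * l) ≤ Real.exp 2 * (Q : ℝ) ^ 2 * Real.exp (-(k' : ℝ) / 1000) := by
    rw [← hQe, ← Real.exp_add]
    apply Real.exp_le_exp.2
    nlinarith
  have g2 : Real.exp ((2 + 50 * lam) * l) / 4 ^ k' ≤
      Real.exp 2 * (Q : ℝ) ^ 2 * Real.exp (-(k' : ℝ) / 1000) := by
    have h1 : (4 : ℝ) ^ k' = Real.exp (k' * Real.log 4) := by
      rw [Real.exp_nat_mul, Real.exp_log (by norm_num)]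
    rw [h1, ← Real.exp_sub, ← hQe, ← Real.exp_add]
    apply Real.exp_le_exp.2
    have h3 : (1 : ℝ) ≤ Real.log 4 := by
      have : Real.log 4 = 2 * Real.log 2 := by
        rw [show (4 : ℝ) = 2 ^ 2 by norm_num, Real.log_pow]
        push_cast
        ring
      rw [this]
      have := Real.log_two_gt_d9
      linarith
    have h4 : (k' : ℝ) * 1 ≤ k' * Real.log 4 := by gcongr
    nlinarith
  have key2 : (I.card : ℝ) ≤ 2 * C₁ * Real.exp 2 * (2 + T) ^ (2 * m) *
      ((Q : ℝ) ^ 2 * Real.exp (-(k' : ℝ) / 1000)) := by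
    refine key.trans ?_
    have h1 := add_le_add g1 g2
    calc C₁ * (2 + T) ^ (2 * m) *
          (Real.exp ((2 - lam / 10) * l) + Real.exp ((2 + 50 * lam) * l) / 4 ^ k')
        ≤ C₁ * (2 + T) ^ (2 * m) * (Real.exp 2 * (Q : ℝ) ^ 2 * Real.exp (-(k' : ℝ) / 1000) +
          Real.exp 2 * (Q : ℝ) ^ 2 * Real.exp (-(k' : ℝ) / 1000)) := by
          gcongr
      _ = _ := by ring
  have hfin : Real.exp (-(k' : ℝ) / 1000) ≤ (1 + 2 * (Cd * 2 ^ m)) * (2 + T) ^ m * e := by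
    have hTm2 : (1 : ℝ) ≤ (2 + T) ^ m := one_le_pow₀ (by linarith)
    rcases le_total k ⌊10 * l⌋₊ with h | h
    · have h1 : k' = k := min_eq_left h
      rw [h1]
      have h2 : Real.exp (-(k : ℝ) / 1000) ≤ e := by
        rw [he]
        apply Real.exp_le_exp.2
        linarith
      refine h2.trans (le_mul_of_one_le_left he0.le ?_)
      refine one_le_mul_of_one_le_of_one_le ?_ hTm2
      have : 0 ≤ 2 * (Cd * 2 ^ m) := by positivity
      linarith
    · have h1 : k' = ⌊10 * l⌋₊ := min_eq_right h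
      have h2 : 10 * l - 1 ≤ (k' : ℝ) := by
        rw [h1]
        have := Nat.lt_floor_add_one (10 * l)
        linarith
      have h3 : Real.exp (-(k' : ℝ) / 1000) ≤ 2 * (Q : ℝ) ^ (-(1 / 120) : ℝ) := by
        have h4 : Real.exp (-(k' : ℝ) / 1000) ≤ Real.exp (1 / 2) * Real.exp (-(l / 120)) := by
          rw [← Real.exp_add]
          apply Real.exp_le_exp.2
          linarith
        have h5 : Real.exp (1 / 2) ≤ 2 := by
          have h6 := Real.exp_one_lt_d9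
          have h7 : Real.exp (1 / 2) ^ 2 = Real.exp 1 := by
            rw [← Real.exp_nat_mul]
            norm_num
          have h8 := Real.exp_pos (1 / 2)
          nlinarith
        have h6 : Real.exp (-(l / 120)) ≤ (Q : ℝ) ^ (-(1 / 120) : ℝ) := by
          rw [Real.rpow_def_of_pos hq0]
          apply Real.exp_le_exp.2
          linarith
        exact h4.trans (mul_le_mul h5 h6 (Real.exp_pos _).le (by norm_num))
      have h4 : (Q : ℝ) ^ (-(1 / 120) : ℝ) ≤ W * e := by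
        have h5 : (Q : ℝ) ^ (-(1 / 120) : ℝ) * (Q : ℝ) ^ (1 / 120 : ℝ) = 1 := by
          rw [← Real.rpow_add hq0]
          norm_num
        calc (Q : ℝ) ^ (-(1 / 120) : ℝ) = (Q : ℝ) ^ (-(1 / 120) : ℝ) * 1 := by ring
          _ ≤ (Q : ℝ) ^ (-(1 / 120) : ℝ) * (W * (Q : ℝ) ^ (1 / 120 : ℝ) * e) := by gcongr
          _ = ((Q : ℝ) ^ (-(1 / 120) : ℝ) * (Q : ℝ) ^ (1 / 120 : ℝ)) * (W * e) := by ring
          _ = W * e := by rw [h5, one_mul]
      calc Real.exp (-(k' : ℝ) / 1000) ≤ 2 * (W * e) := h3.trans (by linarith)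
        _ ≤ 2 * ((Cd * 2 ^ m * (2 + T) ^ m) * e) := by gcongr
        _ = (2 * (Cd * 2 ^ m)) * (2 + T) ^ m * e := by ring
        _ ≤ (1 + 2 * (Cd * 2 ^ m)) * (2 + T) ^ m * e := by
            gcongr
            linarith
  calc (I.card : ℝ) ≤ 2 * C₁ * Real.exp 2 * (2 + T) ^ (2 * m) *
      ((Q : ℝ) ^ 2 * Real.exp (-(k' : ℝ) / 1000)) := key2
    _ ≤ 2 * C₁ * Real.exp 2 * (2 + T) ^ (2 * m) *
      ((Q : ℝ) ^ 2 * ((1 + 2 * (Cd * 2 ^ m)) * (2 + T) ^ m * e)) := by gcongr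
    _ = (2 * C₁ * Real.exp 2 * (1 + 2 * (Cd * 2 ^ m))) * (2 + T) ^ (3 * m) *
      ((Q : ℝ) ^ 2 * e) := by
        rw [show 3 * m = 2 * m + m by ring, pow_add (2 + T) (2 * m) m]
        ring
    _ ≤ K * (2 + T) ^ (3 * m) * ((Q : ℝ) ^ 2 * e) := by
        have h2 : 2 * C₁ * Real.exp 2 * (1 + 2 * (Cd * 2 ^ m)) ≤ K := by
          rw [hK]
          have h3 := Real.exp_pos 1
          have h4 : 0 ≤ Real.exp 120 * (Cd * 2 ^ m) := by positivity
          linarith
        gcongr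

end Pool.Agent.NH12.BA
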