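import Pool.Agent.NH12.BA.Expt2
import Pool.Agent.R399.TM.Multi

/-!
# The tail estimate and the average, without loss
-/

set_option autoImplicit false

namespace Pool.Agent.NH12.BA

open Finset Filter Topology Complex MeasureTheory
open Pool.Agent.R399.TW Pool.Agent.R399.TM
open scoped ComplexConjugate

/-- **the tail estimate** -/
theorem tail2 {m N : ℕ} (hm : m ≤ 3) {L : (q : ℕ) → DirichletCharacter ℂ q → ℂ → ℂ}
    (h : Fo m N L) : ∃ C : ℝ, 0 ≤ C ∧ ∀ (Q : ℕ) (t r : ℝ) (k : ℕ), 1 ≤ Q →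
      r ≤ 1 / 100 → 600 * r * (1 + Real.log Q) ≤ k →
      (count N Q (fun q χ => Dv (L q χ) k (pt (1 / 2) t) r) : ℝ) ≤
        C * (2 + |t|) ^ (3 * m) * ((Q : ℝ) ^ 2 * Real.exp (-(k : ℝ) / 2000)) := by
  classical
  obtain ⟨c, R₀, V, C₀, hR₀, hV, hL, hC₀, hmem⟩ := h
  set A : ℝ := max C₀ 0 with hA
  have hA0 : 0 ≤ A := le_max_right _ _
  have hCA : C₀ ≤ A := le_max_left _ _
  obtain ⟨C, hC, hexp⟩ := expt2 hm A C₀ hR₀ hV hL
  refine ⟨C, hC, ?_⟩
  intro Q t r k hQ hr hrk
  set S : (q : ℕ) → DirichletCharacter ℂ q → Prop := fun q χ => Dv (L q χ) k (pt (1 / 2) t) r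
    with hS
  have hcount := count_eq N Q S
  have hcountle := count_le N Q S
  rw [hcount] at hcountle ⊢
  set J := (idx N Q).filter (fun i => S i.1 i.2) with hJ
  have hch : ∀ i : (Σ q : ℕ, DirichletCharacter ℂ q), ∃ (F : ℂ → ℂ), i ∈ J →
      Mem c (R₀ * (Q : ℝ) ^ m) V m (chs i.2) F ∧ Dv F k (pt (1 / 2) t) r := by
    intro i
    by_cases hi : i ∈ J
    · obtain ⟨h1, hd⟩ := Finset.mem_filter.1 hi
      rw [mem_idx] at h1
      obtain ⟨-, F, hF, E, hE, hFE⟩ := hmem i.1 i.2 h1.1.1 h1.2.1 h1.2.2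
      have hq : ((i.1 : ℕ) : ℝ) ≤ Q := by exact_mod_cast h1.1.2
      exact ⟨F, fun _ => ⟨hF.mono hV (by gcongr), Dv.mul hd hE hFE⟩⟩
    · exact ⟨0, fun h => absurd h hi⟩
  choose F hFt using hch
  have hD : Dat m c R₀ V A Q J (fun i => chs i.2) F := by
    refine ⟨hQ, hR₀, hV, hA0, hL, fun θ h0 h1 n => ?_, (ls_idx N hQ).mono (Finset.filter_subset _ _),
      fun i hi => (hFt i hi).1, hcountle⟩
    refine (SB_of hC₀ h0 h1 n).trans ?_
    have h2 : Real.exp (2 * C₀) ≤ Real.exp (2 * A) := Real.exp_le_exp.2 (by linarith)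
    have h3 : θ ^ (-C₀) ≤ θ ^ (-A) :=
      Real.rpow_le_rpow_of_exponent_ge h0 h1 (by linarith)
    gcongr
  exact hexp Q J (fun i => chs i.2) F t r k hD hC₀ hr hrk (fun i hi => (hFt i hi).2)

/-- **the average number of zeros in a disc** -/
theorem avg2 {m N : ℕ} (hm : m ≤ 3) {L : (q : ℕ) → DirichletCharacter ℂ q → ℂ → ℂ}
    (h : Fo m N L) : ∃ C : ℝ, 0 ≤ C ∧ ∀ (Q : ℕ) (t r : ℝ)
      (κ : (q : ℕ) → DirichletCharacter ℂ q → ℕ), 1 ≤ Q → 0 ≤ r → r ≤ 1 / 100 →
      (∀ (q : ℕ) (χ : DirichletCharacter ℂ q), 2 ≤ q → q ≤ Q → Nat.Coprime q N → χ.IsPrimitive →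
        Dv (L q χ) (κ q χ) (pt (1 / 2) t) r) →
      sumq N Q (fun q χ => (κ q χ : ℝ)) ≤
        C * (Q : ℝ) ^ 2 * (r * Real.log Q + Real.log (2 + |t|)) := by
  classical
  obtain ⟨C, hC, ht⟩ := tail2 hm h
  have hl2 := Real.log_two_gt_d9
  set b : ℕ := 3 * m with hb
  set s : ℝ := 1 / 2000 with hs
  have hs0 : 0 < s := by norm_num
  set K : ℝ := (Real.log (1 + C) + b) / s + 1 + 1 / s + 6 with hK
  have hlC : 0 ≤ Real.log (1 + C) := Real.log_nonneg (by linarith)
  have hK0 : 0 ≤ K := by positivity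
  refine ⟨2 * K + 600, by positivity, fun Q t r κ hQ hr0 hr hκ => ?_⟩
  have hq1 : (1 : ℝ) ≤ Q := by exact_mod_cast hQ
  have hlq : 0 ≤ Real.log Q := Real.log_nonneg hq1
  have ht1 : Real.log 2 ≤ Real.log (2 + |t|) :=
    Real.log_le_log (by norm_num) (by linarith [abs_nonneg t])
  set U₀ : ℝ := (1 + C) * (2 + |t|) ^ b with hU₀
  have hU₀1 : 1 ≤ U₀ := by
    rw [hU₀]
    refine one_le_mul_of_one_le_of_one_le (by linarith) ?_
    exact one_le_pow₀ (by linarith [abs_nonneg t])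
  set v : ℝ := 600 * r * (1 + Real.log Q) with hv
  have hv0 : 0 ≤ v := by positivity
  set U : ℝ := U₀ * Real.exp (s * v) with hU
  have hsv : 1 ≤ Real.exp (s * v) := Real.one_le_exp (by positivity)
  have hU1 : 1 ≤ U := one_le_mul_of_one_le_of_one_le hU₀1 hsv
  rw [sumq_eq]
  have hcard : (((idx N Q).card : ℕ) : ℝ) ≤ (Q : ℝ) ^ 2 := by
    have h1 := count_le N Q (fun _ _ => True)
    rw [count_eq] at h1
    simpa using h1
  have key := avg_le (idx N Q) (fun i => κ i.1 i.2) (W := (Q : ℝ) ^ 2) (U := U) (s := s)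
    (by positivity) hU1 hs0 hcard fun k => ?_
  · refine key.trans ?_
    have e1 : Real.log U = Real.log (1 + C) + b * Real.log (2 + |t|) + s * v := by
      have p1 : (0 : ℝ) < 1 + C := by linarith
      have p2 : (0 : ℝ) < 2 + |t| := by positivity
      rw [hU, Real.log_mul (by positivity) (by positivity), Real.log_exp, hU₀,
        Real.log_mul (by positivity) (by positivity), Real.log_pow]
    set a : ℝ := Real.log (2 + |t|) with ha
    have ha2 : 1 ≤ 2 * a := by linarith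
    have e2 : Real.log U ≤ (Real.log (1 + C) + b) * (2 * a) + s * v := by
      rw [e1]
      have q1 : Real.log (1 + C) * 1 ≤ Real.log (1 + C) * (2 * a) := by gcongr
      have q3 : (b : ℝ) * a ≤ b * (2 * a) := by
        have : a ≤ 2 * a := by linarith
        gcongr
      linarith
    have e3 : Real.log U / s ≤ (Real.log (1 + C) + b) / s * (2 * a) + v := by
      have h1 := div_le_div_of_nonneg_right e2 hs0.le
      have h2 : ((Real.log (1 + C) + b) * (2 * a) + s * v) / s =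
          (Real.log (1 + C) + b) / s * (2 * a) + v := by
        field_simp
      rwa [h2] at h1
    have e4 : 1 / s * 1 ≤ 1 / s * (2 * a) := by gcongr
    have e5 : v ≤ 600 * (r * Real.log Q) + 6 * (2 * a) := by
      rw [hv]
      nlinarith
    have e7 : 0 ≤ r * Real.log Q := by positivity
    calc (Q : ℝ) ^ 2 * (Real.log U / s + 1 + 1 / s)
        ≤ (Q : ℝ) ^ 2 * (K * (2 * a) + 600 * (r * Real.log Q)) := by
          refine mul_le_mul_of_nonneg_left ?_ (by positivity)
          rw [hK]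
          nlinarith
      _ ≤ (Q : ℝ) ^ 2 * ((2 * K + 600) * (r * Real.log Q + a)) := by
          refine mul_le_mul_of_nonneg_left ?_ (by positivity)
          nlinarith [mul_nonneg hK0 e7]
      _ = _ := by ring
  · rcases le_total v k with hvk | hvk
    · have h1 := ht Q t r k hQ hr hvk
      rw [count_eq] at h1
      have h2 : (idx N Q).filter (fun i => k ≤ κ i.1 i.2) ⊆
          (idx N Q).filter (fun i => Dv (L i.1 i.2) k (pt (1 / 2) t) r) := by
        intro i hi
        rw [Finset.mem_filter] at hi ⊢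
        have h3 := mem_idx.1 hi.1
        exact ⟨hi.1, (hκ i.1 i.2 h3.1.1 h3.1.2 h3.2.1 h3.2.2).le hi.2⟩
      have h3 : ((((idx N Q).filter (fun i => k ≤ κ i.1 i.2)).card : ℕ) : ℝ) ≤
          ((((idx N Q).filter (fun i => Dv (L i.1 i.2) k (pt (1 / 2) t) r)).card : ℕ) : ℝ) := by
        exact_mod_cast Finset.card_le_card h2
      refine h3.trans (h1.trans ?_)
      have e1 : Real.exp (-(k : ℝ) / 2000) = Real.exp (-(s * k)) := by
        congr 1
        rw [hs]
        ring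
      rw [e1]
      have p0 := Real.exp_pos (-(s * k))
      have e2 : C * (2 + |t|) ^ b ≤ U := by
        calc C * (2 + |t|) ^ b ≤ (1 + C) * (2 + |t|) ^ b := by
              gcongr
              linarith
          _ ≤ U := le_mul_of_one_le_right (by positivity) hsv
      calc C * (2 + |t|) ^ b * ((Q : ℝ) ^ 2 * Real.exp (-(s * k)))
          ≤ U * ((Q : ℝ) ^ 2 * Real.exp (-(s * k))) := by gcongr
        _ = _ := by ring
    · have h1 : (((((idx N Q).filter (fun i => k ≤ κ i.1 i.2)).card : ℕ)) : ℝ) ≤ (Q : ℝ) ^ 2 :=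
        le_trans (by exact_mod_cast Finset.card_filter_le _ _) hcard
      refine h1.trans ?_
      have h2 : 1 ≤ U * Real.exp (-(s * k)) := by
        have h3 : 1 ≤ Real.exp (s * v) * Real.exp (-(s * k)) := by
          rw [← Real.exp_add]
          apply Real.one_le_exp
          nlinarith
        calc (1 : ℝ) ≤ U₀ * (Real.exp (s * v) * Real.exp (-(s * k))) :=
              one_le_mul_of_one_le_of_one_le hU₀1 h3
          _ = _ := by rw [hU]; ring
      calc (Q : ℝ) ^ 2 = 1 * (Q : ℝ) ^ 2 := by ring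
        _ ≤ (U * Real.exp (-(s * k))) * (Q : ℝ) ^ 2 := by gcongr
        _ = _ := by ring

end Pool.Agent.NH12.BA
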