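import Pool.Agent.NH12.BA.Ker
import Pool.Agent.R399.TM.Val

/-!
# The identity for the mollified values, with weights
-/

set_option autoImplicit false

namespace Pool.Agent.NH12.BA

open Finset Filter Topology Complex MeasureTheory
open Pool.Agent.R399.TW Pool.Agent.R399.TM
open scoped ComplexConjugate Interval

/-- the mollifier -/
noncomputable def Mg (ψ m : ℕ → ℂ) (X : ℕ) (z : ℂ) : ℂ := LSeries (cut X (tw ψ m)) z

/-- the first part of the dual series -/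
noncomputable def Dg (ψ d : ℕ → ℂ) (N : ℕ) (z : ℂ) : ℂ := rfl1 (LSeries (cut N (tw ψ d))) z

/-- the second part of the dual series -/
noncomputable def Tg (ψ c d : ℕ → ℂ) (N : ℕ) (z : ℂ) : ℂ :=
  rfl1 (LSeries (tw ψ fun n => E c n - cut N d n)) z

lemma tail_le {c d : ℕ → ℂ} (hd : ∀ n, ‖d n‖ ≤ E (fun k => ‖c k‖) n) (N n : ℕ) :
    ‖E c n - cut N d n‖ ≤ 2 * ab2 c n := by
  have h1 := norm_E_le c n
  have h2 := (norm_cut_le N d n).trans (hd n)
  have h3 : E (fun k => ‖c k‖) n ≤ ab2 c n :=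
    E_mono (fun k => norm_nonneg _) (fun k => by
      have := norm_nonneg (c k); linarith) n
  refine (norm_sub_le _ _).trans ?_
  linarith

/-- **the identity for the mollified values** -/
theorem val_id2 {c : ℕ → ℂ} {R V : ℝ} {m : ℕ} {ψ : ℕ → ℂ} {F ε : ℂ → ℂ} (hL : Lin c)
    (hM : Mem c R V m ψ F) (hε : Eps R V m F ε) {mm d : ℕ → ℂ}
    (hmm : ∀ n, ‖mm n‖ ≤ E (fun k => ‖c k‖) n) (hdd : ∀ n, ‖d n‖ ≤ E (fun k => ‖c k‖) n)
    (X N : ℕ) {α β : ℝ} (hα : 0 ≤ α) (hαβ : α < β) {ρ : ℂ}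
    (h1 : 1 / 2 < ρ.re) (h2 : ρ.re ≤ 1) :
    2 * Real.pi * LSeries (tw ψ fun n => cv (E c) (cut X mm) n *
      ((Ph2 α β (Real.log n) : ℝ) : ℂ)) ρ =
      2 * Real.pi * (F ρ * Mg ψ mm X ρ) +
      ((∫ t : ℝ, ε (pt (1 / 2) t) * (Dg ψ d N (pt (1 / 2) t) * Mg ψ mm X (pt (1 / 2) t)) *
        Kr2 α β ρ (pt (1 / 2) t)) +
      ∫ t : ℝ, ε (pt (-1 / 2) t) * (Tg ψ c d N (pt (-1 / 2) t) * Mg ψ mm X (pt (-1 / 2) t)) *
        Kr2 α β ρ (pt (-1 / 2) t)) := by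
  have hMd : Differentiable ℂ (Mg ψ mm X) := cut_diff X _
  have hDd : Differentiable ℂ (Dg ψ d N) := rfl1_diff (cut_diff N _)
  set v : ℂ := F ρ * Mg ψ mm X ρ with hv
  -- the two integrands
  set G : ℂ → ℂ := fun z => F z * Mg ψ mm X z * KN2 α β ρ z - v * KN 0 ρ z with hG
  set f₀ : ℂ → ℂ := dslope G ρ with hf₀
  set f₁ : ℂ → ℂ := fun z => ε z * (Dg ψ d N z * Mg ψ mm X z) * Kr2 α β ρ z with hf₁
  have hGd : Differentiable ℂ G :=
    ((hM.diff.mul hMd).mul (KN2_diff hαβ ρ)).sub ((KN_diff 0 ρ).const_mul v)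
  have hf₀d : Differentiable ℂ f₀ := by
    rw [← differentiableOn_univ]
    exact (Complex.differentiableOn_dslope Filter.univ_mem).2 hGd.differentiableOn
  have hGρ : G ρ = 0 := by
    simp only [hG, hv]
    rw [KN2_self]
    unfold KN
    simp
  have hds3 : ∀ z : ℂ, z ≠ ρ → f₀ z = G z / (z - ρ) := by
    intro z hz
    rw [hf₀, dslope_of_ne _ hz, slope_def_field, hGρ, sub_zero]
  have hds2 : ∀ z : ℂ, z ≠ ρ → f₀ z = F z * Mg ψ mm X z * Kr2 α β ρ z - v * Kr 0 ρ z := by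
    intro z hz
    rw [hds3 z hz]
    unfold Kr Kr2
    simp only [hG]
    ring
  have hne : ∀ z : ℂ, z.re ≤ 1 / 2 → z - ρ ≠ 0 := by
    intro z hz h
    rw [sub_eq_zero] at h
    rw [h] at hz
    linarith
  -- first bound
  obtain ⟨A, C, hgr⟩ := hM.gr
  obtain ⟨CM, hCM0, hCM⟩ := cut_bd X (tw ψ mm) (-1 / 2)
  obtain ⟨CK, hCK0, hCK⟩ := KN2_bd hα hαβ.le A h1 h2
  obtain ⟨CK₂, hCK₂0, hCK₂⟩ := KN_bd 0 0 h1 h2
  have hC0 : 0 ≤ C := by
    have := (norm_nonneg _).trans (hgr (pt 0 0) ⟨by simp; norm_num, by simp⟩)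
    simpa using this
  have b₀ : ∃ C' : ℝ, ∀ z ∈ strip (-1 / 2) 2, ‖f₀ z‖ ≤ C' * Real.exp (-|z.im|) := by
    refine bd_of_eventually (C := C * CM * CK + ‖v‖ * CK₂) (T₀ := |ρ.im| + 1)
      hf₀d.continuous.continuousOn fun z hz hT => ?_
    have hz1 : 1 ≤ ‖z - ρ‖ := by
      have h3 := Complex.abs_im_le_norm (z - ρ)
      rw [sub_im] at h3
      have h4 := abs_sub_abs_le_abs_sub z.im ρ.im
      linarith
    have hz2 : z ≠ ρ := by
      intro h
      rw [h, sub_self, norm_zero] at hz1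
      linarith
    rw [hds3 z hz2, norm_div]
    refine (div_le_self (norm_nonneg _) hz1).trans ?_
    have h6 := hCM z hz.1
    have h7 := hCK z hz
    have h8 := hCK₂ z hz
    rw [zero_mul, Real.exp_zero, one_mul] at h8
    simp only [hG]
    refine (norm_sub_le _ _).trans ?_
    rw [norm_mul, norm_mul, norm_mul v]
    have h6' : ‖Mg ψ mm X z‖ ≤ CM := h6
    have h9 := hgr z hz
    calc ‖F z‖ * ‖Mg ψ mm X z‖ * ‖KN2 α β ρ z‖ + ‖v‖ * ‖KN 0 ρ z‖
        ≤ (C * Real.exp (A * |z.im|)) * CM * ‖KN2 α β ρ z‖ +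
          ‖v‖ * (CK₂ * Real.exp (-|z.im|)) := by
          gcongr
      _ = C * CM * (Real.exp (A * |z.im|) * ‖KN2 α β ρ z‖) +
          ‖v‖ * (CK₂ * Real.exp (-|z.im|)) := by
          ring
      _ ≤ C * CM * (CK * Real.exp (-|z.im|)) + ‖v‖ * (CK₂ * Real.exp (-|z.im|)) := by gcongr
      _ = _ := by ring
  obtain ⟨C₀, hC₀⟩ := b₀
  -- second bound
  obtain ⟨A', C', hgr'⟩ := hε.gr
  obtain ⟨CD, hCD0, hCD⟩ := cut_bd N (tw ψ d) (1 / 2)
  obtain ⟨CK', hCK0', hCK'⟩ := KN2_bd hα hαβ.le A' h1 h2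
  have hC0' : 0 ≤ C' := by
    have := (norm_nonneg _).trans (hgr' (pt 0 0) ⟨by simp; norm_num, by simp⟩)
    simpa using this
  have hsub : strip (-1 / 2) (1 / 2) ⊆ strip (-1 / 2) 2 := fun z hz => ⟨hz.1, hz.2.trans (by norm_num)⟩
  have hKr : DifferentiableOn ℂ (Kr2 α β ρ) {z | z.re ≤ 1 / 2} := by
    intro z hz
    exact ((KN2_diff hαβ ρ z).div (by fun_prop) (hne z hz)).differentiableWithinAt
  have hf₁c : ContinuousOn f₁ (strip (-1 / 2) (1 / 2)) :=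
    (hε.cont.mul ((hDd.mul hMd).continuous.continuousOn)).mul
      (hKr.continuousOn.mono fun z hz => hz.2)
  have hf₁d : DifferentiableOn ℂ f₁ {z | -1 / 2 < z.re ∧ z.re < 1 / 2} :=
    (hε.diff.mul ((hDd.mul hMd).differentiableOn)).mul (hKr.mono fun z hz => hz.2.le)
  have b₁ : ∃ C'' : ℝ, ∀ z ∈ strip (-1 / 2) (1 / 2), ‖f₁ z‖ ≤ C'' * Real.exp (-|z.im|) := by
    refine bd_of_eventually (C := C' * (CD * CM) * CK') (T₀ := |ρ.im| + 1) hf₁c fun z hz hT => ?_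
    have hz1 : 1 ≤ ‖z - ρ‖ := by
      have h3 := Complex.abs_im_le_norm (z - ρ)
      rw [sub_im] at h3
      have h4 := abs_sub_abs_le_abs_sub z.im ρ.im
      linarith
    have h5 : ‖Kr2 α β ρ z‖ ≤ ‖KN2 α β ρ z‖ := by
      unfold Kr2
      rw [norm_div]
      exact div_le_self (norm_nonneg _) hz1
    have h6 : ‖Mg ψ mm X z‖ ≤ CM := hCM z hz.1
    have h7 : ‖Dg ψ d N z‖ ≤ CD := by
      unfold Dg rfl1
      rw [RCLike.norm_conj]
      refine hCD _ ?_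
      rw [sub_re, one_re, conj_re]
      linarith [hz.2]
    have h8 := hCK' z (hsub hz)
    simp only [hf₁]
    rw [norm_mul, norm_mul, norm_mul]
    calc ‖ε z‖ * (‖Dg ψ d N z‖ * ‖Mg ψ mm X z‖) * ‖Kr2 α β ρ z‖
        ≤ (C' * Real.exp (A' * |z.im|)) * (CD * CM) * ‖KN2 α β ρ z‖ := by
          gcongr
          exact hgr' z hz
      _ = C' * (CD * CM) * (Real.exp (A' * |z.im|) * ‖KN2 α β ρ z‖) := by ring
      _ ≤ C' * (CD * CM) * (CK' * Real.exp (-|z.im|)) := by gcongr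
      _ = _ := by ring
  obtain ⟨C₁, hC₁⟩ := b₁
  obtain ⟨⟨k1, k2⟩, k3⟩ := Kr0_sides h1 h2
  have i0 : Integrable fun t : ℝ => f₀ (pt (-1 / 2) t) :=
    vert_int le_rfl (by norm_num) hf₀d.continuous.continuousOn hC₀
  have i2 : Integrable fun t : ℝ => f₀ (pt 2 t) :=
    vert_int (by norm_num) le_rfl hf₀d.continuous.continuousOn hC₀
  have i1 : Integrable fun t : ℝ => f₁ (pt (-1 / 2) t) :=
    vert_int le_rfl (by norm_num) hf₁c hC₁
  -- the line `Re z = 2`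
  have hp2 : ∀ t : ℝ, pt 2 t ≠ ρ := by
    intro t h
    have := congrArg Complex.re h
    rw [pt_re] at this
    linarith
  have hpm : ∀ t : ℝ, pt (-1 / 2) t ≠ ρ := by
    intro t h
    have := congrArg Complex.re h
    rw [pt_re] at this
    linarith
  have hb2 : LSeriesSummable (cv (E c) (cut X mm)) 2 :=
    ls_of_le hL (K := 1) (fun n => by
      rw [one_mul]
      exact cv_le (norm_E_le c) (fun n => (norm_cut_le _ _ _).trans (hmm n)) n) (by norm_num)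
  have s1 : (∫ t : ℝ, f₀ (pt 2 t)) + v * ∫ t : ℝ, Kr 0 ρ (pt 2 t) =
      2 * Real.pi * LSeries (tw ψ fun n => cv (E c) (cut X mm) n *
        ((Ph2 α β (Real.log n) : ℝ) : ℂ)) ρ := by
    rw [← (right_line2 hM.le hb2 α β h2).2, ← integral_const_mul,
      ← integral_add i2 (k1.const_mul v)]
    congr 1
    funext t
    have hre : 1 < (pt 2 t).re := by rw [pt_re]; norm_num
    rw [hds2 _ (hp2 t), hM.ser _ hre]
    unfold Mg
    rw [← tw_cut]
    have h3 := LS_mul_tw (f := E c) (g := cut X mm) hM.mul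
      (ls_tw hM.le (ls_E hL hre)) (ls_tw hM.le (cut_summable X _ (pt 2 t)))
    rw [← h3]
    ring
  -- shift
  have s2 : ∫ t : ℝ, f₀ (pt (-1 / 2) t) = ∫ t : ℝ, f₀ (pt 2 t) :=
    vshift (by norm_num) hf₀d.continuous.continuousOn hf₀d.differentiableOn hC₀
  have s3 : ∫ t : ℝ, f₁ (pt (-1 / 2) t) = ∫ t : ℝ, f₁ (pt (1 / 2) t) :=
    vshift (by norm_num) hf₁c hf₁d hC₁
  have e4 : ∀ t : ℝ, ε (pt (-1 / 2) t) * (Tg ψ c d N (pt (-1 / 2) t) *
        Mg ψ mm X (pt (-1 / 2) t)) * Kr2 α β ρ (pt (-1 / 2) t) =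
        f₀ (pt (-1 / 2) t) + v * Kr 0 ρ (pt (-1 / 2) t) - f₁ (pt (-1 / 2) t) := by
    intro t
    have hre : 1 < (1 - conj (pt (-1 / 2) t)).re := by
      rw [sub_re, one_re, conj_re, pt_re]; norm_num
    have h5 : rfl1 F (pt (-1 / 2) t) = Dg ψ d N (pt (-1 / 2) t) + Tg ψ c d N (pt (-1 / 2) t) := by
      unfold Dg Tg rfl1
      rw [hM.ser _ hre, ← map_add]
      congr 1
      have h6 : LSeriesSummable (tw ψ fun n => E c n - cut N d n)
          (1 - conj (pt (-1 / 2) t)) :=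
        ls_tw hM.le (ls_of_le hL (K := 2) (tail_le hdd N) hre)
      rw [← LSeries_add (cut_summable N _ _) h6]
      congr 1
      funext n
      rw [Pi.add_apply, ← tw_cut]
      unfold tw
      ring
    rw [hds2 _ (hpm t), hε.fe t, h5]
    simp only [hf₁]
    ring
  simp only [e4]
  have i3 : Integrable fun t : ℝ => f₀ (pt (-1 / 2) t) + v * Kr 0 ρ (pt (-1 / 2) t) :=
    i0.add (k2.const_mul v)
  rw [integral_sub i3 i1, integral_add i0 (k2.const_mul v), integral_const_mul, ← s1, s3, s2]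
  linear_combination v * k3

end Pool.Agent.NH12.BA
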