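import Pool.Agent.NH12.BA.Parts

/-!
# Bounds for the kernel and properties of the weights
-/

set_option autoImplicit false

namespace Pool.Agent.NH12.BA

open Finset Filter Topology Complex MeasureTheory
open Pool.Agent.R399.TW Pool.Agent.R399.TM
open scoped ComplexConjugate

lemma norm_pt_sub (x t σ τ : ℝ) : ‖pt x t - pt σ τ‖ ^ 2 = (x - σ) ^ 2 + (t - τ) ^ 2 := by
  rw [← Complex.normSq_eq_norm_sq, Complex.normSq_apply]
  simp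
  ring

lemma inv_quad (δ τ : ℝ) (hδ : 0 < δ) :
    Integrable (fun t : ℝ => (δ ^ 2 + (t - τ) ^ 2)⁻¹) ∧
      ∫ t : ℝ, (δ ^ 2 + (t - τ) ^ 2)⁻¹ = Real.pi / δ := by
  have e1 : (fun t : ℝ => (δ ^ 2 + (t - τ) ^ 2)⁻¹) =
      fun t : ℝ => (fun s : ℝ => (δ ^ 2)⁻¹ * (1 + (s / δ) ^ 2)⁻¹) (t - τ) := by
    funext t
    simp only
    rw [← mul_inv]
    congr 1
    field_simp
  rw [e1]
  have h1 : Integrable fun s : ℝ => (1 + (s / δ) ^ 2)⁻¹ :=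
    integrable_inv_one_add_sq.comp_div hδ.ne'
  refine ⟨(h1.const_mul _).comp_sub_right τ, ?_⟩
  rw [integral_sub_right_eq_self (fun s : ℝ => (δ ^ 2)⁻¹ * (1 + (s / δ) ^ 2)⁻¹),
    integral_const_mul, Measure.integral_comp_div (fun y : ℝ => (1 + y ^ 2)⁻¹) δ,
    integral_univ_inv_one_add_sq, abs_of_pos hδ, smul_eq_mul]
  field_simp

lemma Kr2_half {α β δ τ : ℝ} (h : α < β) (hδ : 0 < δ) (hδ1 : δ ≤ 1 / 2) (t : ℝ) :
    ‖Kr2 α β (pt (1 / 2 + δ) τ) (pt (1 / 2) t)‖ ≤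
      Real.exp 1 * (2 * Real.exp (-(α * δ)) / (β - α)) * (δ ^ 2 + (t - τ) ^ 2)⁻¹ := by
  have hb : 0 < β - α := sub_pos.2 h
  set w : ℂ := pt (1 / 2) t - pt (1 / 2 + δ) τ with hw
  have hre : w.re = -δ := by rw [hw]; simp
  have hw0 : w ≠ 0 := by
    intro h0
    rw [h0] at hre
    simp at hre
    linarith
  have hn : 0 < ‖w‖ := norm_pos_iff.2 hw0
  have hn2 : ‖w‖ ^ 2 = δ ^ 2 + (t - τ) ^ 2 := by
    rw [hw, norm_pt_sub]
    ring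
  have h1 := norm_GG_dec h hw0 (by rw [hre]; linarith)
  rw [hre] at h1
  have h2 : ‖cexp (w ^ 2)‖ ≤ Real.exp 1 := by
    rw [hw, norm_exp_sq]
    simp only [pt_re, pt_im]
    rw [← Real.exp_add]
    apply Real.exp_le_exp.2
    nlinarith [sq_nonneg (t - τ)]
  unfold Kr2 KN2
  rw [← hw, norm_div, norm_mul]
  calc ‖cexp (w ^ 2)‖ * ‖GG α β w‖ / ‖w‖
      ≤ Real.exp 1 * (2 * Real.exp (α * -δ) / ((β - α) * ‖w‖)) / ‖w‖ := by gcongr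
    _ = Real.exp 1 * (2 * Real.exp (-(α * δ)) / (β - α)) * (‖w‖ ^ 2)⁻¹ := by
        rw [mul_neg]
        field_simp
    _ = _ := by rw [hn2]

lemma Kr2_left {α β δ τ : ℝ} (hα : α ≤ β) (hδ : 0 < δ) (hδ1 : δ ≤ 1 / 2) (t : ℝ) :
    ‖Kr2 α β (pt (1 / 2 + δ) τ) (pt (-1 / 2) t)‖ ≤
      Real.exp 3 * Real.exp (-(α * (1 + δ))) * Real.exp (-((t - τ) ^ 2) / 2) := by
  set w : ℂ := pt (-1 / 2) t - pt (1 / 2 + δ) τ with hw
  have hre : w.re = -(1 + δ) := by rw [hw]; simp; ring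
  have hn : 1 ≤ ‖w‖ := by
    have h1 := Complex.abs_re_le_norm w
    rw [hre, abs_neg, abs_of_pos (by linarith)] at h1
    linarith
  have h1 := norm_GG_left hα (w := w) (by rw [hre]; linarith)
  rw [hre] at h1
  have h2 : ‖cexp (w ^ 2)‖ ≤ Real.exp 3 * Real.exp (-((t - τ) ^ 2) / 2) := by
    rw [hw, norm_exp_sq]
    simp only [pt_re, pt_im]
    rw [← Real.exp_add, ← Real.exp_add]
    apply Real.exp_le_exp.2
    nlinarith [sq_nonneg (t - τ)]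
  unfold Kr2 KN2
  rw [← hw, norm_div, norm_mul]
  calc ‖cexp (w ^ 2)‖ * ‖GG α β w‖ / ‖w‖ ≤ ‖cexp (w ^ 2)‖ * ‖GG α β w‖ :=
        div_le_self (by positivity) hn
    _ ≤ (Real.exp 3 * Real.exp (-((t - τ) ^ 2) / 2)) * Real.exp (α * -(1 + δ)) := by gcongr
    _ = _ := by rw [mul_neg]; ring

/-! ### the weights -/

lemma gw_one {b : ℝ → ℝ} {L r : ℝ} (hL : 0 < L) (hb : ∀ x, |x| ≤ r → b x = 1) {n : ℕ}
    (hn : n ≠ 0) (h : (n : ℝ) ≤ Real.exp (r * L)) : gw b L n = 1 := by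
  have hn1 : (1 : ℝ) ≤ n := by exact_mod_cast Nat.one_le_iff_ne_zero.2 hn
  have h1 : Real.log n ≤ r * L := by
    rw [Real.log_le_iff_le_exp (by linarith)]
    exact h
  unfold gw
  rw [hb _ (by
    rw [abs_of_nonneg (div_nonneg (Real.log_nonneg hn1) hL.le), div_le_iff₀ hL]
    exact h1)]
  simp

lemma gw_zero {b : ℝ → ℝ} {L R : ℝ} (hL : 0 < L) (hb : ∀ x, R ≤ |x| → b x = 0) {n : ℕ}
    (hn : n ≠ 0) (h : Real.exp (R * L) ≤ n) : gw b L n = 0 := by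
  have hn1 : (1 : ℝ) ≤ n := by exact_mod_cast Nat.one_le_iff_ne_zero.2 hn
  have h1 : R * L ≤ Real.log n := by
    rw [Real.le_log_iff_exp_le (by linarith)]
    exact h
  unfold gw
  rw [hb _ (by
    rw [abs_of_nonneg (div_nonneg (Real.log_nonneg hn1) hL.le), le_div_iff₀ hL]
    exact h1)]
  simp

lemma norm_gw {b : ℝ → ℝ} (h0 : ∀ x, 0 ≤ b x) (h1 : ∀ x, b x ≤ 1) (L : ℝ) (n : ℕ) :
    ‖gw b L n‖ ≤ 1 := by
  unfold gw
  rw [Complex.norm_real, Real.norm_of_nonneg (h0 _)]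
  exact h1 _

lemma norm_one_sub_gw {b : ℝ → ℝ} (h0 : ∀ x, 0 ≤ b x) (h1 : ∀ x, b x ≤ 1) (L : ℝ) (n : ℕ) :
    ‖1 - gw b L n‖ ≤ 1 := by
  unfold gw
  have : (1 : ℂ) - ((b (Real.log n / L) : ℝ) : ℂ) = ((1 - b (Real.log n / L) : ℝ) : ℂ) := by
    push_cast
    rfl
  rw [this, Complex.norm_real, Real.norm_of_nonneg (by linarith [h1 (Real.log n / L)])]
  linarith [h0 (Real.log n / L)]

/-- the weighted sequence is supported on `n ≤ ⌊exp (R L)⌋` -/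
lemma cut_gw {b : ℝ → ℝ} {L R : ℝ} (hL : 0 < L) (hb : ∀ x, R ≤ |x| → b x = 0) {f : ℕ → ℂ}
    (hf : f 0 = 0) : cut ⌊Real.exp (R * L)⌋₊ (fun n => gw b L n * f n) = fun n => gw b L n * f n := by
  funext n
  unfold cut
  split_ifs with h
  · rfl
  · rcases eq_or_ne n 0 with rfl | hn
    · rw [hf, mul_zero]
    · rw [gw_zero hL hb hn ((Nat.floor_lt (Real.exp_pos _).le).1 (not_le.1 h)).le, zero_mul]

/-- the exponential factor -/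
lemma gw_shift (b : ℝ → ℝ) {L : ℝ} (_hL : 0 < L) {n : ℕ} (hn : n ≠ 0) :
    gw b L n = (((n : ℝ) ^ (-(1 / L)) : ℝ) : ℂ) * gw (fun x => Real.exp x * b x) L n := by
  have hn0 : (0 : ℝ) < n := by exact_mod_cast Nat.pos_of_ne_zero hn
  unfold gw
  rw [← Complex.ofReal_mul]
  congr 1
  have e1 : (n : ℝ) ^ (-(1 / L)) = Real.exp (-(Real.log n / L)) := by
    rw [Real.rpow_def_of_pos hn0]
    congr 1
    ring
  rw [e1, ← mul_assoc, ← Real.exp_add]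
  simp

lemma wc_shift (b₂ b₁ : ℝ → ℝ) {L : ℝ} (hL : 0 < L) (c : ℕ → ℂ) (n : ℕ) :
    wc b₂ b₁ L c n = (((n : ℝ) ^ (-(1 / L)) : ℝ) : ℂ) *
      wc (fun x => Real.exp x * b₂ x) (fun x => Real.exp x * b₁ x) L c n := by
  unfold wc cv
  rw [Finset.mul_sum]
  refine Finset.sum_congr rfl fun p hp => ?_
  rw [Nat.mem_divisorsAntidiagonal] at hp
  have hp1 : p.1 ≠ 0 := fun h => by rw [h, zero_mul] at hp; exact hp.2 hp.1.symm
  have hp2 : p.2 ≠ 0 := fun h => by rw [h, mul_zero] at hp; exact hp.2 hp.1.symm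
  beta_reduce
  rw [gw_shift b₂ hL hp1, gw_shift b₁ hL hp2]
  have e1 : (n : ℝ) ^ (-(1 / L)) = (p.1 : ℝ) ^ (-(1 / L)) * (p.2 : ℝ) ^ (-(1 / L)) := by
    rw [← Real.mul_rpow (Nat.cast_nonneg _) (Nat.cast_nonneg _), ← Nat.cast_mul, hp.1]
  rw [e1]
  push_cast
  ring

/-- the mean square needed on the critical line -/
theorem ms_one {b₂ b₁ : ℝ → ℝ} {φ₂ φ₁ : ℝ → ℂ} (h₂ : Rep (fun x => Real.exp x * b₂ x) φ₂)
    (h₁ : Rep (fun x => Real.exp x * b₁ x) φ₁) (C : ℝ) :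
    ∃ K : ℝ, 0 ≤ K ∧ ∀ (c : ℕ → ℂ) (L : ℝ) (N : ℕ), Sqb c C → 2 ≤ L →
      ∑ n ∈ Icc 1 N, ‖wc b₂ b₁ L c n‖ ^ 2 * (n : ℝ) ^ (-1 : ℝ) ≤ K := by
  obtain ⟨K, hK, h⟩ := ms h₂ h₁ C
  refine ⟨K, hK, fun c L N hc hL => ?_⟩
  have hL0 : 0 < L := by linarith
  refine le_trans (le_of_eq ?_) (h c L (2 / L) N hc hL0 (by positivity)
    (by rw [div_le_one hL0]; exact hL) (by rw [mul_div_cancel₀ _ hL0.ne']; norm_num))
  refine Finset.sum_congr rfl fun n hn => ?_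
  rw [mem_Icc] at hn
  have hn0 : (0 : ℝ) < n := by exact_mod_cast hn.1
  rw [wc_shift b₂ b₁ hL0, norm_mul, Complex.norm_real, Real.norm_of_nonneg (by positivity), mul_pow,
    ← Real.rpow_natCast ((n : ℝ) ^ (-(1 / L))), ← Real.rpow_mul hn0.le]
  have e1 : (n : ℝ) ^ (-(1 + 2 / L)) = (n : ℝ) ^ (-(1 / L) * ((2 : ℕ) : ℝ)) * (n : ℝ) ^ (-1 : ℝ) := by
    rw [← Real.rpow_add hn0]
    congr 1
    push_cast
    ring
  rw [e1]
  ring

end Pool.Agent.NH12.BA
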