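import Pool.Agent.R399.TW.Ident

/-!
# The averaged kernel
-/

set_option autoImplicit false

namespace Pool.Agent.NH12.BA

open Finset Filter Topology Complex MeasureTheory
open Pool.Agent.R399.TW
open scoped ComplexConjugate Interval

/-- the point of the segment -/
noncomputable def seg (α β u : ℝ) : ℝ := α + u * (β - α)

/-- the average of `exp (L w)` for `α ≤ L ≤ β` -/
noncomputable def GG (α β : ℝ) (w : ℂ) : ℂ := ∫ u in (0 : ℝ)..1, cexp ((seg α β u : ℝ) * w)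

/-- the average of `Ph` -/
noncomputable def Ph2 (α β y : ℝ) : ℝ := ∫ u in (0 : ℝ)..1, Ph (seg α β u - y)

lemma seg_mem {α β u : ℝ} (h : α ≤ β) (h0 : 0 ≤ u) (h1 : u ≤ 1) :
    α ≤ seg α β u ∧ seg α β u ≤ β := by
  unfold seg
  constructor
  · nlinarith [mul_nonneg h0 (sub_nonneg.2 h)]
  · nlinarith [mul_nonneg (sub_nonneg.2 h1) (sub_nonneg.2 h)]

lemma GG_zero (α β : ℝ) : GG α β 0 = 1 := by
  unfold GG
  simp

lemma GG_eq {α β : ℝ} (h : α < β) {w : ℂ} (hw : w ≠ 0) :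
    GG α β w = (cexp (β * w) - cexp (α * w)) / (((β - α : ℝ) : ℂ) * w) := by
  have hb : ((β - α : ℝ) : ℂ) ≠ 0 := by
    exact_mod_cast (sub_pos.2 h).ne'
  have hbw : ((β - α : ℝ) : ℂ) * w ≠ 0 := mul_ne_zero hb hw
  have h1 : ∀ u : ℝ, cexp ((seg α β u : ℝ) * w) =
      cexp (α * w) * cexp ((((β - α : ℝ) : ℂ) * w) * u) := by
    intro u
    rw [← Complex.exp_add]
    congr 1
    unfold seg
    push_cast
    ring
  unfold GG
  simp only [h1]
  rw [intervalIntegral.integral_const_mul, integral_exp_mul_complex hbw]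
  have h2 : cexp (β * w) = cexp (α * w) * cexp ((((β - α : ℝ) : ℂ) * w) * (1 : ℝ)) := by
    rw [← Complex.exp_add]
    congr 1
    push_cast
    ring
  rw [h2]
  simp only [Complex.ofReal_zero, mul_zero, Complex.exp_zero]
  ring

lemma GG_diff {α β : ℝ} (h : α < β) : Differentiable ℂ (GG α β) := by
  set g : ℂ → ℂ := fun w => cexp (β * w) - cexp (α * w) with hg
  have hgd : Differentiable ℂ g := by fun_prop
  have hb : ((β - α : ℝ) : ℂ) ≠ 0 := by
    exact_mod_cast (sub_pos.2 h).ne'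
  have h1 : GG α β = fun w => dslope g 0 w / ((β - α : ℝ) : ℂ) := by
    funext w
    rcases eq_or_ne w 0 with rfl | hw
    · rw [GG_zero, dslope_same]
      have h2 : HasDerivAt g (((β - α : ℝ) : ℂ)) 0 := by
        have e1 : HasDerivAt (fun w : ℂ => cexp (β * w)) (β : ℂ) 0 := by
          have := ((hasDerivAt_id (0 : ℂ)).const_mul (β : ℂ)).cexp
          simpa using this
        have e2 : HasDerivAt (fun w : ℂ => cexp (α * w)) (α : ℂ) 0 := by
          have := ((hasDerivAt_id (0 : ℂ)).const_mul (α : ℂ)).cexp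
          simpa using this
        have := e1.sub e2
        refine this.congr_deriv ?_
        push_cast
        ring
      rw [h2.deriv, div_self hb]
    · rw [GG_eq h hw, dslope_of_ne _ hw, slope_def_field]
      have hg0 : g 0 = 0 := by simp [hg]
      rw [hg0, sub_zero, sub_zero, div_div]
      congr 1
      ring
  rw [h1]
  refine Differentiable.div_const ?_ _
  rw [← differentiableOn_univ]
  exact (Complex.differentiableOn_dslope Filter.univ_mem).2 hgd.differentiableOn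

lemma norm_GG_le {α β : ℝ} {w : ℂ} {B : ℝ} (h : ∀ u : ℝ, 0 ≤ u → u ≤ 1 → seg α β u * w.re ≤ B) :
    ‖GG α β w‖ ≤ Real.exp B := by
  unfold GG
  have := intervalIntegral.norm_integral_le_of_norm_le_const (a := (0 : ℝ)) (b := 1)
    (f := fun u : ℝ => cexp ((seg α β u : ℝ) * w)) (C := Real.exp B) (fun u hu => ?_)
  · simpa using this
  · rw [Set.uIoc_of_le zero_le_one] at hu
    rw [Complex.norm_exp]
    apply Real.exp_le_exp.2
    have := h u hu.1.le hu.2
    simpa using this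

lemma norm_GG_left {α β : ℝ} (h : α ≤ β) {w : ℂ} (hw : w.re ≤ 0) :
    ‖GG α β w‖ ≤ Real.exp (α * w.re) :=
  norm_GG_le fun _ h0 h1 => mul_le_mul_of_nonpos_right (seg_mem h h0 h1).1 hw

lemma norm_GG_right {α β : ℝ} (h : α ≤ β) {w : ℂ} (hw : 0 ≤ w.re) :
    ‖GG α β w‖ ≤ Real.exp (β * w.re) :=
  norm_GG_le fun _ h0 h1 => mul_le_mul_of_nonneg_right (seg_mem h h0 h1).2 hw

lemma norm_GG_dec {α β : ℝ} (h : α < β) {w : ℂ} (hw0 : w ≠ 0) (hw : w.re ≤ 0) :
    ‖GG α β w‖ ≤ 2 * Real.exp (α * w.re) / ((β - α) * ‖w‖) := by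
  have hb : 0 < β - α := sub_pos.2 h
  have hn : 0 < ‖w‖ := norm_pos_iff.2 hw0
  rw [GG_eq h hw0, norm_div, norm_mul, Complex.norm_real, Real.norm_of_nonneg hb.le]
  refine div_le_div_of_nonneg_right ?_ (by positivity)
  refine (norm_sub_le _ _).trans ?_
  rw [Complex.norm_exp, Complex.norm_exp]
  have h1 : ((β : ℂ) * w).re = β * w.re := by simp
  have h2 : ((α : ℂ) * w).re = α * w.re := by simp
  rw [h1, h2]
  have h3 : Real.exp (β * w.re) ≤ Real.exp (α * w.re) :=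
    Real.exp_le_exp.2 (mul_le_mul_of_nonpos_right h.le hw)
  linarith

/-- numerator of the averaged kernel -/
noncomputable def KN2 (α β : ℝ) (ρ z : ℂ) : ℂ := cexp ((z - ρ) ^ 2) * GG α β (z - ρ)

/-- the averaged kernel -/
noncomputable def Kr2 (α β : ℝ) (ρ z : ℂ) : ℂ := KN2 α β ρ z / (z - ρ)

lemma KN2_diff {α β : ℝ} (h : α < β) (ρ : ℂ) : Differentiable ℂ (KN2 α β ρ) := by
  unfold KN2
  have h1 : Differentiable ℂ fun z : ℂ => GG α β (z - ρ) :=
    (GG_diff h).comp (differentiable_id.sub_const ρ)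
  have h2 : Differentiable ℂ fun z : ℂ => cexp ((z - ρ) ^ 2) := by fun_prop
  exact h2.mul h1

lemma KN2_self (α β : ℝ) (ρ : ℂ) : KN2 α β ρ ρ = 1 := by
  unfold KN2
  simp [GG_zero]

lemma norm_exp_sq (ρ z : ℂ) : ‖cexp ((z - ρ) ^ 2)‖ =
    Real.exp ((z.re - ρ.re) ^ 2) * Real.exp (-(z.im - ρ.im) ^ 2) := by
  rw [Complex.norm_exp, ← Real.exp_add]
  congr 1
  simp [pow_two]
  ring

lemma KN2_bd {α β : ℝ} (hα : 0 ≤ α) (hαβ : α ≤ β) (A : ℝ) {ρ : ℂ} (h1 : 1 / 2 < ρ.re)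
    (h2 : ρ.re ≤ 1) : ∃ C : ℝ, 0 ≤ C ∧
    ∀ z ∈ strip (-1 / 2) 2, Real.exp (A * |z.im|) * ‖KN2 α β ρ z‖ ≤ C * Real.exp (-|z.im|) := by
  obtain ⟨C, hC0, hC⟩ := gdec A ρ.im
  refine ⟨C * Real.exp (9 + 3 * β), by positivity, fun z hz => ?_⟩
  have h4 := hC z.im
  have h6 : |z.re - ρ.re| ≤ 3 := by
    rw [abs_le]
    constructor <;> linarith [hz.1, hz.2]
  have h7 : (z.re - ρ.re) ^ 2 ≤ 9 := by
    rw [← sq_abs]
    nlinarith [abs_nonneg (z.re - ρ.re)]
  have hβ : 0 ≤ β := hα.trans hαβ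
  have h8 : ‖GG α β (z - ρ)‖ ≤ Real.exp (3 * β) := by
    refine norm_GG_le fun u h0 h1 => ?_
    obtain ⟨h9, h10⟩ := seg_mem hαβ h0 h1
    rw [sub_re]
    have h11 := abs_le.1 h6
    have h12 : 0 ≤ seg α β u := hα.trans h9
    nlinarith
  have h9 : Real.exp ((z.re - ρ.re) ^ 2) ≤ Real.exp 9 := Real.exp_le_exp.2 h7
  unfold KN2
  rw [norm_mul, norm_exp_sq, Real.exp_add 9]
  calc Real.exp (A * |z.im|) * (Real.exp ((z.re - ρ.re) ^ 2) * Real.exp (-(z.im - ρ.im) ^ 2) *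
        ‖GG α β (z - ρ)‖)
      = (Real.exp (A * |z.im|) * Real.exp (-(z.im - ρ.im) ^ 2)) *
        (Real.exp ((z.re - ρ.re) ^ 2) * ‖GG α β (z - ρ)‖) := by ring
    _ ≤ (C * Real.exp (-|z.im|)) * (Real.exp 9 * Real.exp (3 * β)) := by gcongr
    _ = _ := by ring

lemma Kr_cont (ρ : ℂ) (h2 : ρ.re ≤ 1) (α β y : ℝ) :
    Continuous (Function.uncurry fun (t u : ℝ) => Kr (seg α β u - y) ρ (pt 2 t)) := by
  unfold Kr KN Function.uncurry
  refine Continuous.div ?_ ?_ ?_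
  · have h1 : Continuous fun p : ℝ × ℝ => pt 2 p.1 := (pt_cont 2).comp continuous_fst
    have h3 : Continuous fun p : ℝ × ℝ => ((seg α β p.2 - y : ℝ) : ℂ) := by
      unfold seg
      fun_prop
    have h4 : Continuous fun p : ℝ × ℝ => pt 2 p.1 - ρ := h1.sub continuous_const
    exact Complex.continuous_exp.comp ((h4.pow 2).add (h3.mul h4))
  · exact ((pt_cont 2).comp continuous_fst).sub continuous_const
  · intro p h0
    have := congrArg Complex.re h0
    simp at this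
    linarith

lemma Kr_norm_two (ρ : ℂ) (h2 : ρ.re ≤ 1) (L t : ℝ) :
    ‖Kr L ρ (pt 2 t)‖ ≤ Real.exp ((2 - ρ.re) ^ 2 + L * (2 - ρ.re)) *
      Real.exp (-(t - ρ.im) ^ 2) := by
  unfold Kr
  rw [norm_div, norm_KN]
  refine div_le_self (by positivity) ?_
  have h3 := (le_abs_self _).trans (Complex.abs_re_le_norm (pt 2 t - ρ))
  rw [sub_re, pt_re] at h3
  linarith

lemma Kr2_avg (α β : ℝ) (ρ z : ℂ) : Kr2 α β ρ z = ∫ u in (0 : ℝ)..1, Kr (seg α β u) ρ z := by
  unfold Kr2 KN2 GG Kr KN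
  rw [← intervalIntegral.integral_const_mul, ← intervalIntegral.integral_div]
  refine intervalIntegral.integral_congr fun u _ => ?_
  rw [Complex.exp_add]

/-- the swap -/
lemma Kr2_two (α β y : ℝ) {ρ : ℂ} (h2 : ρ.re ≤ 1) :
    Integrable (fun t : ℝ => ∫ u in (0 : ℝ)..1, Kr (seg α β u - y) ρ (pt 2 t)) ∧
      ∫ t : ℝ, ∫ u in (0 : ℝ)..1, Kr (seg α β u - y) ρ (pt 2 t) =
        2 * Real.pi * ((Ph2 α β y : ℝ) : ℂ) := by
  have hc := Kr_cont ρ h2 α β y
  set M : ℝ := Real.exp ((2 - ρ.re) ^ 2 + (|α| + |β - α| + |y|) * (2 - ρ.re)) with hM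
  have hint : Integrable (Function.uncurry fun (t u : ℝ) => Kr (seg α β u - y) ρ (pt 2 t))
      (volume.prod (volume.restrict (Set.Ioc (0 : ℝ) 1))) := by
    have hg : Integrable (fun p : ℝ × ℝ => (M * Real.exp (-(p.1 - ρ.im) ^ 2)) * (1 : ℝ))
        (volume.prod (volume.restrict (Set.Ioc (0 : ℝ) 1))) := by
      refine Integrable.mul_prod (f := fun t : ℝ => M * Real.exp (-(t - ρ.im) ^ 2))
        (g := fun _ : ℝ => (1 : ℝ)) ?_ (integrable_const 1)
      have h1 : Integrable fun t : ℝ => Real.exp (-1 * t ^ 2) :=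
        integrable_exp_neg_mul_sq (by norm_num : (0 : ℝ) < 1)
      have h3 := (h1.comp_sub_right ρ.im).const_mul M
      refine h3.congr (Eventually.of_forall fun t => ?_)
      simp only
      rw [neg_one_mul]
    refine hg.mono' hc.aestronglyMeasurable ?_
    have hae : ∀ᵐ p : ℝ × ℝ ∂(volume.prod (volume.restrict (Set.Ioc (0 : ℝ) 1))),
        p.2 ∈ Set.Ioc (0 : ℝ) 1 := by
      have h1 : ∀ᵐ u : ℝ ∂(volume.restrict (Set.Ioc (0 : ℝ) 1)), u ∈ Set.Ioc (0 : ℝ) 1 :=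
        ae_restrict_mem measurableSet_Ioc
      exact Measure.quasiMeasurePreserving_snd.ae h1
    filter_upwards [hae] with p hp
    rw [mul_one]
    refine (Kr_norm_two ρ h2 _ _).trans ?_
    refine mul_le_mul_of_nonneg_right ?_ (Real.exp_pos _).le
    apply Real.exp_le_exp.2
    have h3 : seg α β p.2 - y ≤ |α| + |β - α| + |y| := by
      unfold seg
      have h4 := le_abs_self α
      have h5 := neg_abs_le y
      have h6 : p.2 * (β - α) ≤ |β - α| := by
        have h7 := le_abs_self (β - α)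
        have h8 := abs_nonneg (β - α)
        nlinarith [hp.1, hp.2]
      linarith
    have h4 : 0 ≤ 2 - ρ.re := by linarith
    have := mul_le_mul_of_nonneg_right h3 h4
    linarith
  have e1 : ∀ t : ℝ, ∫ u in (0 : ℝ)..1, Kr (seg α β u - y) ρ (pt 2 t) =
      ∫ u in Set.Ioc (0 : ℝ) 1, Kr (seg α β u - y) ρ (pt 2 t) := fun t =>
    intervalIntegral.integral_of_le zero_le_one
  simp only [e1]
  refine ⟨hint.integral_prod_left, ?_⟩
  rw [integral_integral_swap hint]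
  have e2 : ∀ u : ℝ, ∫ t : ℝ, Kr (seg α β u - y) ρ (pt 2 t) =
      2 * Real.pi * ((Ph (seg α β u - y) : ℝ) : ℂ) := fun u => (Kr_two _ h2).2
  simp only [e2]
  rw [integral_const_mul]
  congr 1
  unfold Ph2
  rw [intervalIntegral.integral_of_le zero_le_one]
  exact integral_ofReal

lemma gd_le (x u : ℝ) : gd (x - u) ≤ Real.exp 9 * Real.exp (3 * x) * Real.exp (-3 * u) := by
  unfold gd
  have h1 : 1 / (2 * √Real.pi) ≤ 1 := by
    rw [div_le_one (by positivity)]
    have : 1 ≤ √Real.pi := Real.one_le_sqrt.2 (by linarith [Real.pi_gt_three])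
    linarith
  rw [← Real.exp_add, ← Real.exp_add]
  have h2 : Real.exp (-(1 / 4) * (x - u) ^ 2) ≤ Real.exp (9 + 3 * x + -3 * u) := by
    apply Real.exp_le_exp.2
    nlinarith [sq_nonneg ((x - u) / 2 + 3)]
  have h3 := Real.exp_pos (-(1 / 4) * (x - u) ^ 2)
  calc 1 / (2 * √Real.pi) * Real.exp (-(1 / 4) * (x - u) ^ 2)
      ≤ 1 * Real.exp (-(1 / 4) * (x - u) ^ 2) := by gcongr
    _ ≤ _ := by rw [one_mul]; exact h2

lemma Ph_cont : Continuous Ph := by
  rw [continuous_iff_continuousAt]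
  intro x₀
  unfold Ph
  refine continuousAt_of_dominated (bound := fun u => Real.exp 9 * Real.exp (3 * (x₀ + 1)) *
    Real.exp (-3 * u)) ?_ ?_ ?_ ?_
  · refine Eventually.of_forall fun x => ?_
    have : Continuous fun u => gd (x - u) := gd_cont.comp (continuous_const.sub continuous_id)
    exact this.aestronglyMeasurable
  · filter_upwards [gt_mem_nhds (show x₀ < x₀ + 1 by linarith)] with x hx
    refine Eventually.of_forall fun u => ?_
    rw [Real.norm_of_nonneg (gd_nn _)]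
    refine (gd_le x u).trans ?_
    gcongr
  · exact (exp_neg_integrableOn_Ioi 0 (by norm_num : (0 : ℝ) < 3)).const_mul _
  · refine Eventually.of_forall fun u => ?_
    exact (gd_cont.comp (continuous_id.sub continuous_const)).continuousAt

lemma Ph2_int (α β y : ℝ) : IntervalIntegrable (fun u => Ph (seg α β u - y)) volume 0 1 := by
  have : Continuous fun u => Ph (seg α β u - y) := by
    unfold seg
    exact Ph_cont.comp (by fun_prop)
  exact this.intervalIntegrable _ _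

lemma Ph2_nn (α β y : ℝ) : 0 ≤ Ph2 α β y :=
  intervalIntegral.integral_nonneg zero_le_one fun _ _ => Ph_nn _

lemma Ph2_le {α β y B : ℝ} (h : ∀ u : ℝ, 0 ≤ u → u ≤ 1 → Ph (seg α β u - y) ≤ B) :
    Ph2 α β y ≤ B := by
  have h1 : Ph2 α β y ≤ ∫ _ in (0 : ℝ)..1, B :=
    intervalIntegral.integral_mono_on zero_le_one (Ph2_int α β y)
      (continuous_const.intervalIntegrable _ _) fun u hu => h u hu.1 hu.2
  simpa using h1

lemma Ph2_le_one (α β y : ℝ) : Ph2 α β y ≤ 1 := Ph2_le fun _ _ _ => Ph_le_one _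

lemma Ph2_decay {α β : ℝ} (h : α ≤ β) (y : ℝ) :
    Ph2 α β y ≤ Real.exp 9 * Real.exp (3 * (β - y)) :=
  Ph2_le fun u h0 h1 => (Ph_decay _).trans (by
    have := (seg_mem h h0 h1).2
    gcongr)

lemma half_le_Ph2 {α β : ℝ} (hα : 0 ≤ α) (h : α ≤ β) : 1 / 2 ≤ Ph2 α β 0 := by
  have h1 : ∫ _ in (0 : ℝ)..1, (1 / 2 : ℝ) ≤ Ph2 α β 0 :=
    intervalIntegral.integral_mono_on zero_le_one
      (continuous_const.intervalIntegrable _ _) (Ph2_int α β 0) fun u hu =>
      half_le_Ph (by rw [sub_zero]; exact hα.trans (seg_mem h hu.1 hu.2).1)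
  simpa using h1

/-- the integral on the line `Re z = 2` -/
theorem right_line2 {ψ b : ℕ → ℂ} (hψ : ∀ n, ‖ψ n‖ ≤ 1) (hb : LSeriesSummable b 2) (α β : ℝ)
    {ρ : ℂ} (h2 : ρ.re ≤ 1) :
    LSeriesSummable (tw ψ fun n => b n * ((Ph2 α β (Real.log n) : ℝ) : ℂ)) ρ ∧
    ∫ t : ℝ, LSeries (tw ψ b) (pt 2 t) * Kr2 α β ρ (pt 2 t) =
      2 * Real.pi * LSeries (tw ψ fun n => b n * ((Ph2 α β (Real.log n) : ℝ) : ℂ)) ρ := by
  set b' := tw ψ b with hb'
  have hbs : LSeriesSummable b' 2 := ls_tw hψ hb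
  have hnorm : ∀ (t : ℝ) (n : ℕ), ‖LSeries.term b' (pt 2 t) n‖ = ‖LSeries.term b' 2 n‖ := by
    intro t n
    rw [LSeries.norm_term_eq, LSeries.norm_term_eq, pt_re]
    norm_num
  have hint0 : Integrable fun t : ℝ => Kr2 α β ρ (pt 2 t) := by
    have h3 := (Kr2_two α β 0 h2).1
    refine h3.congr (Eventually.of_forall fun t => ?_)
    simp only [sub_zero]
    exact (Kr2_avg α β ρ _).symm
  have hterm : ∀ (t : ℝ) (n : ℕ), n ≠ 0 → LSeries.term b' (pt 2 t) n * Kr2 α β ρ (pt 2 t) =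
      b' n / (n : ℂ) ^ ρ * ∫ u in (0 : ℝ)..1, Kr (seg α β u - Real.log n) ρ (pt 2 t) := by
    intro t n hn
    rw [LSeries.term_of_ne_zero hn, Kr2_avg, ← intervalIntegral.integral_const_mul,
      ← intervalIntegral.integral_const_mul]
    refine intervalIntegral.integral_congr fun u _ => ?_
    have := Kr_shift (seg α β u) ρ (pt 2 t) hn
    calc b' n / (n : ℂ) ^ (pt 2 t) * Kr (seg α β u) ρ (pt 2 t)
        = b' n * (Kr (seg α β u) ρ (pt 2 t) / (n : ℂ) ^ (pt 2 t)) := by ring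
      _ = _ := by rw [this]; ring
  have hi : ∀ n : ℕ, Integrable fun t : ℝ => LSeries.term b' (pt 2 t) n * Kr2 α β ρ (pt 2 t) := by
    intro n
    rcases eq_or_ne n 0 with rfl | hn
    · simp
    · simp only [hterm _ n hn]
      exact (Kr2_two α β _ h2).1.const_mul _
  have hs : Summable fun n : ℕ =>
      ∫ t : ℝ, ‖LSeries.term b' (pt 2 t) n * Kr2 α β ρ (pt 2 t)‖ := by
    have : (fun n : ℕ => ∫ t : ℝ, ‖LSeries.term b' (pt 2 t) n * Kr2 α β ρ (pt 2 t)‖) =
        fun n : ℕ => ‖LSeries.term b' 2 n‖ * ∫ t : ℝ, ‖Kr2 α β ρ (pt 2 t)‖ := by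
      funext n
      rw [← integral_const_mul]
      congr 1
      funext t
      rw [norm_mul, hnorm]
    rw [this]
    exact hbs.norm.mul_right _
  have key := hasSum_integral_of_summable_integral_norm hi hs
  have e1 : ∀ t : ℝ, ∑' n : ℕ, LSeries.term b' (pt 2 t) n * Kr2 α β ρ (pt 2 t) =
      LSeries b' (pt 2 t) * Kr2 α β ρ (pt 2 t) := fun t => by
    rw [tsum_mul_right]; rfl
  simp only [e1] at key
  have e2 : ∀ n : ℕ, ∫ t : ℝ, LSeries.term b' (pt 2 t) n * Kr2 α β ρ (pt 2 t) =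
      2 * Real.pi * LSeries.term (tw ψ fun n => b n * ((Ph2 α β (Real.log n) : ℝ) : ℂ)) ρ n := by
    intro n
    rcases eq_or_ne n 0 with rfl | hn
    · simp
    · simp only [hterm _ n hn]
      rw [integral_const_mul, (Kr2_two α β _ h2).2, LSeries.term_of_ne_zero hn, hb']
      unfold tw
      ring
  simp only [e2] at key
  have hpi : (2 * (Real.pi : ℂ)) ≠ 0 := by
    have := Real.pi_pos.ne'
    have h5 : (Real.pi : ℂ) ≠ 0 := by exact_mod_cast this
    simpa using h5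
  have k2 := key.mul_left (2 * (Real.pi : ℂ))⁻¹
  have e3 : ∀ n : ℕ, (2 * (Real.pi : ℂ))⁻¹ * (2 * Real.pi *
      LSeries.term (tw ψ fun n => b n * ((Ph2 α β (Real.log n) : ℝ) : ℂ)) ρ n) =
      LSeries.term (tw ψ fun n => b n * ((Ph2 α β (Real.log n) : ℝ) : ℂ)) ρ n := by
    intro n
    rw [← mul_assoc, inv_mul_cancel₀ hpi, one_mul]
  simp only [e3] at k2
  refine ⟨k2.summable, ?_⟩
  have k5 : LSeries (tw ψ fun n => b n * ((Ph2 α β (Real.log n) : ℝ) : ℂ)) ρ = _ := k2.tsum_eq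
  rw [k5]
  field_simp

end Pool.Agent.NH12.BA
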