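import Pool.Agent.NH12.BA.Wt
import Pool.Agent.R399.TW.Vm

/-!
# The mean square of the coefficients of the mollified series
-/

set_option autoImplicit false

namespace Pool.Agent.NH12.BA

open Finset Filter Topology Complex MeasureTheory
open ArithmeticFunction (vonMangoldt)
open Pool.Agent.R399.TW

/-- the weight `b (log n / L)` -/
noncomputable def gw (b : ℝ → ℝ) (L : ℝ) (n : ℕ) : ℂ := ((b (Real.log n / L) : ℝ) : ℂ)

/-- the coefficients of the weighted product -/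
noncomputable def wc (b₂ b₁ : ℝ → ℝ) (L : ℝ) (c : ℕ → ℂ) : ℕ → ℂ :=
  cv (fun e => gw b₂ L e * E c e) (fun d => gw b₁ L d * E (fun k => -c k) d)

lemma nu_zero_arg (u : ℝ) : nu u 0 = if u = 0 then 1 else 0 := by
  unfold nu
  split_ifs with h
  · rw [h]; simp
  · rw [Nat.cast_zero, Complex.zero_cpow (by simp [h])]

lemma nu_sub_le (v w : ℝ) (k : ℕ) : ‖nu v k - nu w k‖ ≤ ‖1 - nu (w - v) k‖ := by
  rcases eq_or_ne k 0 with rfl | hk
  · rcases eq_or_ne v w with rfl | hvw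
    · simp
    · have h1 : w - v ≠ 0 := sub_ne_zero.2 hvw.symm
      rw [nu_zero_arg (w - v), if_neg h1, nu_zero_arg, nu_zero_arg]
      split_ifs <;> simp
  · have h1 : nu w k = nu v k * nu (w - v) k := by
      rw [← nu_add hk]
      congr 1
      ring
    have h2 : nu v k - nu w k = nu v k * (1 - nu (w - v) k) := by
      rw [h1]
      ring
    rw [h2, norm_mul, norm_nu hk, one_mul]

lemma E_nu (u : ℝ) (κ : ℕ → ℂ) (n : ℕ) : nu u n * E κ n = E (fun k => nu u k * κ k) n :=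
  E_twist κ (nu u) (nu_one u) (nu_mul u) n

lemma cv_nu (v w : ℝ) (c : ℕ → ℂ) (n : ℕ) :
    cv (fun e => nu v e * E c e) (fun d => nu w d * E (fun k => -c k) d) n =
      E (fun k => (nu v k - nu w k) * c k) n := by
  have h1 : (fun e => nu v e * E c e) = E (fun k => nu v k * c k) := funext fun e => E_nu v c e
  have h2 : (fun d => nu w d * E (fun k => -c k) d) = E (fun k => nu w k * (-c k)) :=
    funext fun e => E_nu w _ e
  rw [h1, h2, E_add]
  congr 1
  funext k
  ring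

/-- the mean square for fixed twists -/
lemma ms_fixed {c : ℕ → ℂ} {C : ℝ} (h : Sqb c C) (N : ℕ) {η : ℝ} (v w : ℝ) (hη : 0 < η)
    (hη1 : η ≤ 1) :
    ∑ n ∈ Icc 1 N, ‖E (fun k => (nu v k - nu w k) * c k) n‖ ^ 2 * (n : ℝ) ^ (-(1 + η)) ≤
      Real.exp (2 * C) * (1 + |w - v| / η) ^ (3 * C) := by
  have h1 := tw_bound (κ := fun k => ‖c k‖ ^ 2) (fun k => by positivity) (C := C / 4)
    (fun σ hσ hσ' N => ?_) N (w - v) hη hη1
  · have e1 : 8 * (C / 4) = 2 * C := by ring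
    have e2 : 12 * (C / 4) = 3 * C := by ring
    rw [e1, e2] at h1
    refine le_trans (Finset.sum_le_sum fun n _ => ?_) h1
    refine mul_le_mul_of_nonneg_right ?_ (by positivity)
    refine (norm_E_sq_le _ n).trans ?_
    refine E_mono (fun k => by positivity) (fun k => ?_) n
    rw [norm_mul, mul_pow, mul_comm]
    have := nu_sub_le v w k
    gcongr
  · have h2 := h σ hσ hσ' N
    have h3 : ∑ n ∈ Icc 2 N, vonMangoldt n * (4 * ‖c n‖ ^ 2) * (n : ℝ) ^ (-σ) =
        4 * ∑ n ∈ Icc 2 N, vonMangoldt n * ‖c n‖ ^ 2 * (n : ℝ) ^ (-σ) := by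
      rw [Finset.mul_sum]
      exact Finset.sum_congr rfl fun n _ => by ring
    rw [h3] at h2
    have h4 : C / 4 / (σ - 1) = C / (σ - 1) / 4 := by ring
    rw [h4]
    linarith

lemma Rep.integrable {b : ℝ → ℝ} {φ : ℝ → ℂ} (h : Rep b φ) : Integrable φ := by
  have h1 := h.int 0
  simp only [pow_zero, one_mul] at h1
  exact (integrable_norm_iff h.cont.aestronglyMeasurable).1 h1

lemma gw_eq {b : ℝ → ℝ} {φ : ℝ → ℂ} (h : Rep b φ) (L : ℝ) {n : ℕ} (hn : n ≠ 0) :
    gw b L n = ∫ v : ℝ, φ v * nu (2 * Real.pi * v / L) n := by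
  unfold gw
  rw [h.eq]
  congr 1
  funext v
  rw [nu_eq hn]
  congr 3
  push_cast
  ring

lemma Rep.int_nu {b : ℝ → ℝ} {φ : ℝ → ℂ} (h : Rep b φ) (L : ℝ) {n : ℕ} (hn : n ≠ 0) :
    Integrable fun v : ℝ => φ v * nu (2 * Real.pi * v / L) n := by
  refine h.integrable.norm.mono' ?_ (Eventually.of_forall fun v => ?_)
  · exact (h.cont.mul (nu_cont hn (f := fun v => 2 * Real.pi * v / L)
      (by fun_prop))).aestronglyMeasurable
  · rw [norm_mul, norm_nu hn, mul_one]

lemma cv_int_right {b : ℝ → ℝ} {φ : ℝ → ℂ} (h : Rep b φ) (L : ℝ) (f g : ℕ → ℂ) (n : ℕ) :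
    cv f (fun d => gw b L d * g d) n =
      ∫ v : ℝ, φ v * cv f (fun d => nu (2 * Real.pi * v / L) d * g d) n := by
  have hne : ∀ p ∈ n.divisorsAntidiagonal, p.2 ≠ 0 := by
    intro p hp h0
    rw [Nat.mem_divisorsAntidiagonal] at hp
    rw [h0, mul_zero] at hp
    exact hp.2 hp.1.symm
  unfold cv
  simp only [Finset.mul_sum]
  rw [integral_finsetSum]
  · refine Finset.sum_congr rfl fun p hp => ?_
    rw [gw_eq h L (hne p hp)]
    rw [show f p.1 * ((∫ v : ℝ, φ v * nu (2 * Real.pi * v / L) p.2) * g p.2) =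
      (f p.1 * g p.2) * ∫ v : ℝ, φ v * nu (2 * Real.pi * v / L) p.2 by ring,
      ← integral_const_mul]
    congr 1
    funext v
    ring
  · intro p hp
    have := (h.int_nu L (hne p hp)).const_mul (f p.1 * g p.2)
    refine this.congr (Eventually.of_forall fun v => ?_)
    simp only
    ring

lemma cv_int_left {b : ℝ → ℝ} {φ : ℝ → ℂ} (h : Rep b φ) (L : ℝ) (f g : ℕ → ℂ) (n : ℕ) :
    cv (fun d => gw b L d * f d) g n =
      ∫ v : ℝ, φ v * cv (fun d => nu (2 * Real.pi * v / L) d * f d) g n := by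
  rw [cv_comm, cv_int_right h]
  congr 1
  funext v
  rw [cv_comm]

/-- **the mean square of the coefficients** -/
theorem ms {b₂ b₁ : ℝ → ℝ} {φ₂ φ₁ : ℝ → ℂ} (h₂ : Rep b₂ φ₂) (h₁ : Rep b₁ φ₁) (C : ℝ) :
    ∃ K : ℝ, 0 ≤ K ∧ ∀ (c : ℕ → ℂ) (L η : ℝ) (N : ℕ), Sqb c C → 0 < L → 0 < η → η ≤ 1 →
      1 ≤ L * η →
      ∑ n ∈ Icc 1 N, ‖wc b₂ b₁ L c n‖ ^ 2 * (n : ℝ) ^ (-(1 + η)) ≤ K := by
  set k : ℕ := ⌈3 * C⌉₊ with hk
  set J₁ : ℝ := ∫ v : ℝ, (1 + |v|) ^ k * ‖φ₁ v‖ with hJ₁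
  set J₂ : ℝ := ∫ v : ℝ, (1 + |v|) ^ k * ‖φ₂ v‖ with hJ₂
  set B : ℝ := Real.exp (2 * C) * 7 ^ (3 * C) with hB
  refine ⟨B * J₁ ^ 2 * J₂ ^ 2, by positivity, ?_⟩
  intro c L η N hc hL hη hη1 hLη
  have hC0 : 0 ≤ C := by
    have := hc 2 (by norm_num) le_rfl 0
    simp at this
    linarith
  have hk3 : 3 * C ≤ k := Nat.le_ceil _
  have hpi := Real.pi_lt_d2
  have hpi0 := Real.pi_pos
  -- fixed twists
  have hfix : ∀ v w : ℝ, ∑ n ∈ Icc 1 N, ‖E (fun j => (nu (2 * Real.pi * v / L) j -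
      nu (2 * Real.pi * w / L) j) * c j) n‖ ^ 2 * (n : ℝ) ^ (-(1 + η)) ≤
      B * (1 + |v|) ^ (2 * k) * (1 + |w|) ^ (2 * k) := by
    intro v w
    refine (ms_fixed hc N _ _ hη hη1).trans ?_
    have h1 : 1 + |2 * Real.pi * w / L - 2 * Real.pi * v / L| / η ≤
        7 * ((1 + |v|) * (1 + |w|)) := by
      have h2 : |2 * Real.pi * w / L - 2 * Real.pi * v / L| / η =
          2 * Real.pi * |w - v| / (L * η) := by
        rw [← sub_div, ← mul_sub, abs_div, abs_mul, abs_of_pos hL,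
          abs_of_pos (by positivity : 0 < 2 * Real.pi), div_div]
      rw [h2]
      have h3 : 2 * Real.pi * |w - v| / (L * η) ≤ 2 * Real.pi * |w - v| :=
        div_le_self (by positivity) hLη
      have h4 : |w - v| ≤ |w| + |v| := abs_sub w v
      have h5 : 0 ≤ |v| := abs_nonneg v
      have h6 : 0 ≤ |w| := abs_nonneg w
      have h7 : 2 * Real.pi * |w - v| ≤ 7 * (|w| + |v|) := by
        have : 0 ≤ |w - v| := abs_nonneg _
        nlinarith
      nlinarith [mul_nonneg h5 h6]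
    have h0 : 0 < 1 + |2 * Real.pi * w / L - 2 * Real.pi * v / L| / η := by positivity
    have hv1 : (1 : ℝ) ≤ 1 + |v| := by linarith [abs_nonneg v]
    have hw1 : (1 : ℝ) ≤ 1 + |w| := by linarith [abs_nonneg w]
    have hz : ∀ z : ℝ, 1 ≤ z → z ^ (3 * C) ≤ z ^ (2 * k) := by
      intro z hz
      rw [← Real.rpow_natCast z (2 * k)]
      refine Real.rpow_le_rpow_of_exponent_le hz ?_
      push_cast
      linarith
    calc Real.exp (2 * C) * (1 + |2 * Real.pi * w / L - 2 * Real.pi * v / L| / η) ^ (3 * C)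
        ≤ Real.exp (2 * C) * (7 * ((1 + |v|) * (1 + |w|))) ^ (3 * C) := by
          gcongr
      _ = B * ((1 + |v|) ^ (3 * C) * (1 + |w|) ^ (3 * C)) := by
          rw [hB, Real.mul_rpow (by norm_num) (by positivity),
            Real.mul_rpow (by positivity) (by positivity)]
          ring
      _ ≤ B * ((1 + |v|) ^ (2 * k) * (1 + |w|) ^ (2 * k)) := by
          have := hz _ hv1
          have := hz _ hw1
          gcongr
      _ = _ := by ring
  -- the factor `n ^ (-(1 + η) / 2)`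
  set s : ℕ → ℝ := fun n => (n : ℝ) ^ (-(1 + η) / 2) with hs
  have hs2 : ∀ (z : ℂ) (n : ℕ), ‖(s n : ℂ) * z‖ ^ 2 = ‖z‖ ^ 2 * (n : ℝ) ^ (-(1 + η)) := by
    intro z n
    rw [norm_mul, Complex.norm_real, Real.norm_of_nonneg (by rw [hs]; positivity), mul_pow, hs]
    simp only
    rw [← Real.rpow_natCast, ← Real.rpow_mul (Nat.cast_nonneg n), mul_comm]
    congr 2
    push_cast
    ring
  -- inner
  have hin : ∀ v : ℝ, ∑ n ∈ Icc 1 N, ‖(s n : ℂ) * cv (fun e => nu (2 * Real.pi * v / L) e * E c e)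
      (fun d => gw b₁ L d * E (fun k => -c k) d) n‖ ^ 2 ≤ B * J₁ ^ 2 * (1 + |v|) ^ (2 * k) := by
    intro v
    have key := mink (Icc 1 N) h₁ k (fun n w => (s n : ℂ) *
      E (fun j => (nu (2 * Real.pi * v / L) j - nu (2 * Real.pi * w / L) j) * c j) n)
      (fun n _ => continuous_const.mul (E_cont (fun j hj => ?_) n))
      (B := B * (1 + |v|) ^ (2 * k)) (fun w => ?_)
    · have e1 : ∀ n ∈ Icc 1 N, ‖(s n : ℂ) * cv (fun e => nu (2 * Real.pi * v / L) e * E c e)
          (fun d => gw b₁ L d * E (fun k => -c k) d) n‖ ^ 2 = ‖∫ w : ℝ, φ₁ w * ((s n : ℂ) *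
          E (fun j => (nu (2 * Real.pi * v / L) j - nu (2 * Real.pi * w / L) j) * c j) n)‖ ^ 2 := by
        intro n _
        rw [cv_int_right h₁, ← integral_const_mul]
        congr 3
        funext w
        rw [cv_nu]
        ring
      rw [Finset.sum_congr rfl e1]
      refine key.trans (le_of_eq ?_)
      ring
    · exact (continuous_const.sub (nu_cont hj (f := fun w => 2 * Real.pi * w / L)
        (by fun_prop))).mul continuous_const
    · simp only [hs2]
      exact hfix v w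
  have key := mink (Icc 1 N) h₂ k (fun n v => (s n : ℂ) *
      cv (fun e => nu (2 * Real.pi * v / L) e * E c e)
      (fun d => gw b₁ L d * E (fun k => -c k) d) n)
      (fun n _ => continuous_const.mul (cv_cont
        (f := fun (v : ℝ) e => nu (2 * Real.pi * v / L) e * E c e)
        (g := fun _ d => gw b₁ L d * E (fun k => -c k) d) (fun j hj => ?_)
        (fun _ _ => continuous_const) n))
      (B := B * J₁ ^ 2) hin
  · have e1 : ∀ n ∈ Icc 1 N, ‖wc b₂ b₁ L c n‖ ^ 2 * (n : ℝ) ^ (-(1 + η)) =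
        ‖∫ v : ℝ, φ₂ v * ((s n : ℂ) * cv (fun e => nu (2 * Real.pi * v / L) e * E c e)
      (fun d => gw b₁ L d * E (fun k => -c k) d) n)‖ ^ 2 := by
      intro n _
      rw [← hs2]
      unfold wc
      rw [cv_int_left h₂, ← integral_const_mul]
      congr 3
      funext v
      ring
    rw [Finset.sum_congr rfl e1]
    exact key
  · exact (nu_cont hj (f := fun v => 2 * Real.pi * v / L) (by fun_prop)).mul continuous_const

end Pool.Agent.NH12.BA
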