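import Pool.Agent.NH12.BA.Right
import Pool.Agent.R399.TM.Cnt

/-!
# Near the critical line, without loss
-/

set_option autoImplicit false

namespace Pool.Agent.NH12.BA

open Finset Filter Topology Complex MeasureTheory
open Pool.Agent.R399.TW Pool.Agent.R399.TM
open scoped ComplexConjugate

variable {b₁ b₂ b₃ : ℝ → ℝ}

/-- **near the critical line** -/
theorem near2 (hw : Wts b₁ b₂ b₃) {m : ℕ} (hm : m ≤ 3) {c : ℕ → ℂ} (R₀ V A C₀ : ℝ) :
    ∃ C : ℝ, 0 ≤ C ∧
    ∀ (Q : ℕ) {ι : Type} (I : Finset ι) (ψ : ι → ℕ → ℂ) (F : ι → ℂ → ℂ) (l a : ℝ) (s : ℂ),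
      Dat m c R₀ V A Q I ψ F → Sqb c C₀ → l = 1 + Real.log Q → 8 ≤ l → a ≤ 1 / 2 →
      |s.re - 1 / 2| ≤ a →
      ∑ i ∈ I, ‖Gw b₁ l c (ψ i) (F i) s‖ ^ 2 ≤
        C * (1 + |s.im|) ^ (2 * m) * Real.exp ((2 + 10 * a) * l) := by
  obtain ⟨C₁, hC₁, hr⟩ := right2 hw hm (c := c) R₀ V A C₀
  set CR : ℝ := 2 * C₁ + 2 with hCR
  have hCR1 : 1 ≤ CR := by rw [hCR]; linarith
  set CL : ℝ := 1 + |R₀ * V ^ m * Bs c (3 / 2) ^ 2| with hCL
  have hCL1 : 1 ≤ CL := by
    rw [hCL]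
    linarith [abs_nonneg (R₀ * V ^ m * Bs c (3 / 2) ^ 2)]
  set CK : ℝ := Real.exp 4 * Real.exp ((m : ℝ) ^ 2) * (CL * CR * Real.exp 20) with hCK
  refine ⟨CR + CK ^ 2, by positivity, ?_⟩
  intro Q ι I ψ F l a s hD hSq hl hl8 ha hs
  have hQ := hD.Q1
  have hR₀ := hD.R0
  have hV := hD.V0
  have hA := hD.A0
  have hq1 : (1 : ℝ) ≤ Q := by exact_mod_cast hQ
  have hq0 : (0 : ℝ) < Q := by linarith
  have hlq : 0 ≤ Real.log Q := Real.log_nonneg hq1
  have hl0 : 0 < l := by linarith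
  have hl1 : 1 ≤ l := by linarith
  have ha0 : 0 ≤ a := (abs_nonneg _).trans hs
  have hτ : (1 : ℝ) ≤ (1 + |s.im|) ^ (2 * m) := one_le_pow₀ (by linarith [abs_nonneg s.im])
  have hse := abs_le.1 hs
  have hQl : (Q : ℝ) ≤ Real.exp l := by
    rw [← Real.exp_log hq0]
    exact Real.exp_le_exp.2 (by linarith)
  have hP : (Q : ℝ) ^ 2 ≤ Real.exp (2 * l) := by
    calc (Q : ℝ) ^ 2 ≤ Real.exp l ^ 2 := by gcongr
      _ = _ := by rw [← Real.exp_nat_mul]; push_cast; rfl
  -- to the right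
  have hright : ∀ (δ t : ℝ), 4 ≤ δ * l → δ ≤ 1 / 2 →
      ∑ i ∈ I, ‖Gw b₁ l c (ψ i) (F i) (pt (1 / 2 + δ) t)‖ ^ 2 ≤
        CR * (1 + |t|) ^ (2 * m) * Real.exp (2 * l) := by
    intro δ t h4 hδ
    have hδ0 : 0 ≤ δ := by
      by_contra hcon
      have : δ * l ≤ 0 := mul_nonpos_of_nonpos_of_nonneg (not_le.1 hcon).le hl0.le
      linarith
    have h1 := hr Q I ψ F l δ t hD hSq hl hl8 h4 hδ
    set y : ℂ := ((yl l : ℝ) : ℂ) with hy
    have hy1 : ‖y‖ ^ 2 ≤ 1 := by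
      have h0 : 0 ≤ yl l := by linarith [half_le_yl hl0.le]
      rw [hy, Complex.norm_real, Real.norm_of_nonneg h0]
      exact pow_le_one₀ h0 (yl_le l)
    have h2 : ∑ i ∈ I, ‖Gw b₁ l c (ψ i) (F i) (pt (1 / 2 + δ) t)‖ ^ 2 ≤
        2 * ∑ i ∈ I, ‖Gw b₁ l c (ψ i) (F i) (pt (1 / 2 + δ) t) - y‖ ^ 2 + 2 * (I.card : ℝ) := by
      have h3 : ∀ i ∈ I, ‖Gw b₁ l c (ψ i) (F i) (pt (1 / 2 + δ) t)‖ ^ 2 ≤
          2 * ‖Gw b₁ l c (ψ i) (F i) (pt (1 / 2 + δ) t) - y‖ ^ 2 + 2 := fun i _ => by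
        have := sq_two (Gw b₁ l c (ψ i) (F i) (pt (1 / 2 + δ) t)) y
        linarith
      refine (Finset.sum_le_sum h3).trans (le_of_eq ?_)
      rw [Finset.sum_add_distrib, ← Finset.mul_sum, Finset.sum_const, nsmul_eq_mul]
      ring
    have h5 : Real.exp ((2 - δ / 10) * l) ≤ Real.exp (2 * l) := by
      apply Real.exp_le_exp.2
      nlinarith
    have hτ' : (1 : ℝ) ≤ (1 + |t|) ^ (2 * m) := one_le_pow₀ (by linarith [abs_nonneg t])
    have h6 : C₁ * (1 + |t|) ^ (2 * m) * Real.exp ((2 - δ / 10) * l) ≤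
        C₁ * ((1 + |t|) ^ (2 * m) * Real.exp (2 * l)) := by
      calc _ ≤ C₁ * (1 + |t|) ^ (2 * m) * Real.exp (2 * l) := by gcongr
        _ = _ := by ring
    have h7 : (I.card : ℝ) ≤ (1 + |t|) ^ (2 * m) * Real.exp (2 * l) :=
      (hD.card.trans hP).trans (le_mul_of_one_le_left (Real.exp_pos _).le hτ')
    calc _ ≤ 2 * ∑ i ∈ I, ‖Gw b₁ l c (ψ i) (F i) (pt (1 / 2 + δ) t) - y‖ ^ 2 +
          2 * (I.card : ℝ) := h2
      _ ≤ 2 * (C₁ * ((1 + |t|) ^ (2 * m) * Real.exp (2 * l))) +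
          2 * ((1 + |t|) ^ (2 * m) * Real.exp (2 * l)) := by
          have := h1.trans h6
          linarith
      _ = _ := by rw [hCR]; ring
  have hQa : Real.exp (2 * l) ≤ Real.exp ((2 + 10 * a) * l) := by
    apply Real.exp_le_exp.2
    nlinarith
  have hCK0 : 0 ≤ CK ^ 2 := by positivity
  rcases le_total (1 / 2 + 4 / l) s.re with hcase | hcase
  · -- the right part
    have h1 := hright (s.re - 1 / 2) s.im (by
      have h3 : 4 / l ≤ s.re - 1 / 2 := by linarith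
      rwa [div_le_iff₀ hl0] at h3) (by linarith)
    have h2 : pt (1 / 2 + (s.re - 1 / 2)) s.im = s := by
      apply Complex.ext <;> simp
    rw [h2] at h1
    refine h1.trans ?_
    have h4 : CR ≤ CR + CK ^ 2 := by linarith
    gcongr
  · -- three lines
    set b : ℝ := 1 / 2 + 4 / l with hb
    have hbl : 4 / l ≤ 1 / 2 := by
      rw [div_le_iff₀ hl0]
      linarith
    have hbl0 : 0 < 4 / l := by positivity
    have key := three I (fun i => Gw b₁ l c (ψ i) (F i)) (a := -1 / 2) (b := b)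
      (A₀ := CL * Real.exp ((m + 2) * l)) (A₁ := CR * Real.exp l) (n := m) (s := s) (by norm_num)
      (by rw [hb]; linarith) (by rw [hb]; linarith)
      (fun i hi => (hD.mem i hi).diff.mul (cut_diff _ _)) (fun i hi => ?_) (by positivity)
      (by positivity) (fun t => ?_) (fun t => ?_) (by linarith) hcase
    · set θ : ℝ := (s.re - -1 / 2) / (b - -1 / 2) with hθ
      have hbb : 1 ≤ b - -1 / 2 := by rw [hb]; linarith
      have hθ0 : 0 ≤ θ := div_nonneg (by linarith) (by linarith)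
      have hθ1 : θ ≤ 1 := by
        rw [hθ, div_le_one (by linarith)]
        linarith
      have hθ2 : 1 - θ ≤ 4 / l + a := by
        have h1 : 1 - θ = (b - s.re) / (b - -1 / 2) := by
          have hne : b - -1 / 2 ≠ 0 := by linarith
          rw [hθ, eq_div_iff hne, sub_mul, div_mul_cancel₀ _ hne]
          ring
        rw [h1]
        refine (div_le_self (by linarith) hbb).trans ?_
        rw [hb]
        linarith
      have hm' : (m : ℝ) ≤ 3 := by exact_mod_cast hm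
      have w1 : (CL * Real.exp ((m + 2) * l)) ^ (1 - θ) ≤
          CL * Real.exp (((m : ℝ) + 2) * (1 - θ) * l) := by
        rw [Real.mul_rpow (by positivity) (by positivity)]
        have e1 : CL ^ (1 - θ) ≤ CL := by
          have := Real.rpow_le_rpow_of_exponent_le hCL1 (show 1 - θ ≤ 1 by linarith)
          rwa [Real.rpow_one] at this
        have e2 : (Real.exp ((m + 2) * l)) ^ (1 - θ) = Real.exp (((m : ℝ) + 2) * (1 - θ) * l) := by
          rw [← Real.exp_mul]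
          congr 1
          ring
        rw [e2]
        gcongr
      have w2 : (CR * Real.exp l) ^ θ ≤ CR * Real.exp (θ * l) := by
        rw [Real.mul_rpow (by positivity) (by positivity)]
        have e1 : CR ^ θ ≤ CR := by
          have := Real.rpow_le_rpow_of_exponent_le hCR1 hθ1
          rwa [Real.rpow_one] at this
        have e2 : (Real.exp l) ^ θ = Real.exp (θ * l) := by
          rw [← Real.exp_mul, mul_comm]
        rw [e2]
        gcongr
      have w3 : Real.exp (((m : ℝ) + 2) * (1 - θ) * l) * Real.exp (θ * l) ≤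
          Real.exp 20 * Real.exp ((1 + 5 * a) * l) := by
        rw [← Real.exp_add, ← Real.exp_add]
        apply Real.exp_le_exp.2
        have h2 : ((m : ℝ) + 1) * (1 - θ) ≤ 5 * (4 / l + a) :=
          mul_le_mul (by linarith) hθ2 (by linarith) (by norm_num)
        have h3 : 4 / l * l = 4 := div_mul_cancel₀ _ hl0.ne'
        have h4 := mul_le_mul_of_nonneg_right h2 hl0.le
        nlinarith
      have w4 : (CL * Real.exp ((m + 2) * l)) ^ (1 - θ) * (CR * Real.exp l) ^ θ ≤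
          CL * CR * Real.exp 20 * Real.exp ((1 + 5 * a) * l) := by
        calc _ ≤ (CL * Real.exp (((m : ℝ) + 2) * (1 - θ) * l)) * (CR * Real.exp (θ * l)) :=
              mul_le_mul w1 w2 (by positivity) (by positivity)
          _ = CL * CR * (Real.exp (((m : ℝ) + 2) * (1 - θ) * l) * Real.exp (θ * l)) := by ring
          _ ≤ CL * CR * (Real.exp 20 * Real.exp ((1 + 5 * a) * l)) := by gcongr
          _ = _ := by ring
      refine key.trans ?_
      have w5 : (Real.exp 4 * Real.exp ((m : ℝ) ^ 2) * (1 + |s.im|) ^ m *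
          ((CL * Real.exp ((m + 2) * l)) ^ (1 - θ) * (CR * Real.exp l) ^ θ)) ^ 2 ≤
          (Real.exp 4 * Real.exp ((m : ℝ) ^ 2) * (1 + |s.im|) ^ m *
          (CL * CR * Real.exp 20 * Real.exp ((1 + 5 * a) * l))) ^ 2 := by
        gcongr
      refine w5.trans ?_
      have w6 : (Real.exp ((1 + 5 * a) * l)) ^ 2 = Real.exp ((2 + 10 * a) * l) := by
        rw [← Real.exp_nat_mul]
        congr 1
        push_cast
        ring
      have w7 : (Real.exp 4 * Real.exp ((m : ℝ) ^ 2) * (1 + |s.im|) ^ m *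
          (CL * CR * Real.exp 20 * Real.exp ((1 + 5 * a) * l))) ^ 2 =
          CK ^ 2 * (1 + |s.im|) ^ (2 * m) * Real.exp ((2 + 10 * a) * l) := by
        rw [← w6, hCK, pow_mul' (1 + |s.im|)]
        ring
      rw [w7]
      have h4 : CK ^ 2 ≤ CR + CK ^ 2 := by linarith
      gcongr
    · -- growth
      obtain ⟨A', C', h'⟩ := (hD.mem i hi).gr
      refine ⟨A', C' * ((Xl l : ℝ) ^ 2 * Bs c (3 / 2)), fun z hz => ?_⟩
      have hz' : z ∈ strip (-1 / 2) 2 := ⟨hz.1, hz.2.trans (by rw [hb]; linarith)⟩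
      have h1 := h' z hz'
      have h2 := mg_le hD.lin (hD.mem i hi).le (hw.mw_le l c) (Xl l) hz.1
      unfold Gw
      rw [norm_mul]
      calc ‖F i z‖ * ‖Mg (ψ i) (mw b₁ l c) (Xl l) z‖
          ≤ (C' * Real.exp (A' * |z.im|)) * ((Xl l : ℝ) ^ 2 * Bs c (3 / 2)) :=
            mul_le_mul h1 h2 (norm_nonneg _) ((norm_nonneg _).trans h1)
        _ = _ := by ring
    · refine (left2 hw c hD hl t).trans ?_
      have hB := Bs_nn c (3 / 2)
      have h1 : R₀ * V ^ m * Bs c (3 / 2) ^ 2 ≤ CL := by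
        rw [hCL]
        linarith [le_abs_self (R₀ * V ^ m * Bs c (3 / 2) ^ 2)]
      have h2 : 0 ≤ R₀ * V ^ m * Bs c (3 / 2) ^ 2 := by positivity
      gcongr
    · have h1 := hright (4 / l) t (by rw [div_mul_cancel₀ _ hl0.ne']) hbl
      refine h1.trans ?_
      have h2 : (CR * Real.exp l * (1 + |t|) ^ m) ^ 2 =
          CR ^ 2 * (1 + |t|) ^ (2 * m) * Real.exp (2 * l) := by
        have e1 : Real.exp (2 * l) = Real.exp l ^ 2 := by
          rw [← Real.exp_nat_mul]; push_cast; rfl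
        rw [e1, pow_mul' (1 + |t|)]
        ring
      rw [h2]
      have h3 : CR ≤ CR ^ 2 := by nlinarith
      gcongr

/-- **one cell** -/
theorem cell2 (hw : Wts b₁ b₂ b₃) {m : ℕ} (hm : m ≤ 3) {c : ℕ → ℂ} (R₀ V A C₀ : ℝ) :
    ∃ C : ℝ, 0 ≤ C ∧
    ∀ (Q : ℕ) {ι : Type} (I : Finset ι) (ψ : ι → ℕ → ℂ) (F : ι → ℂ → ℂ)
      (l lam τ : ℝ) (k : ℕ),
      Dat m c R₀ V A Q I ψ F → Sqb c C₀ → l = 1 + Real.log Q → 4 ≤ lam * l → lam ≤ 1 / 10 →
      (∀ i ∈ I, Dv (F i) k (pt (1 / 2 + lam) τ) (4 / 3 * lam)) →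
      (I.card : ℝ) ≤ C * (2 + |τ|) ^ (2 * m) *
        (Real.exp ((2 - lam / 10) * l) + Real.exp ((2 + 50 * lam) * l) / 4 ^ k) := by
  classical
  obtain ⟨C₁, hC₁, hr⟩ := right2 hw hm (c := c) R₀ V A C₀
  obtain ⟨C₂, hC₂, hn⟩ := near2 hw hm (c := c) R₀ V A C₀
  refine ⟨16 * C₁ + 64 * C₂, by positivity, ?_⟩
  intro Q ι I ψ F l lam τ k hD hSq hld hl hlam hk
  have hQ := hD.Q1
  have hA := hD.A0
  have hq1 : (1 : ℝ) ≤ Q := by exact_mod_cast hQ
  have hq0 : (0 : ℝ) < Q := by linarith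
  have hlq : 0 ≤ Real.log Q := Real.log_nonneg hq1
  have hl0 : 0 < l := by linarith
  have hl1 : 1 ≤ l := by linarith
  have hlam0 : 0 < lam := by
    by_contra hcon
    have : lam * l ≤ 0 := mul_nonpos_of_nonpos_of_nonneg (not_lt.1 hcon) hl0.le
    linarith
  have hl40 : 40 ≤ l := by nlinarith
  set y : ℂ := ((yl l : ℝ) : ℂ) with hy
  set s₁ : ℂ := pt (1 / 2 + lam) τ with hs₁
  set G : ι → ℂ → ℂ := fun i => Gw b₁ l c (ψ i) (F i) with hG
  -- the two parts
  set I₁ := I.filter fun i => ‖G i s₁‖ < 1 / 4 with hI₁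
  set I₂ := I.filter fun i => ¬ ‖G i s₁‖ < 1 / 4 with hI₂
  have hcard : (I.card : ℝ) = I₁.card + I₂.card := by
    rw [hI₁, hI₂]
    exact_mod_cast (Finset.card_filter_add_card_filter_not (s := I) (fun i => ‖G i s₁‖ < 1 / 4)).symm
  have hτ1 : 1 + |τ| ≤ 2 + |τ| := by linarith
  have hτ0 : 0 ≤ 1 + |τ| := by positivity
  -- small values
  have b1 : (I₁.card : ℝ) ≤ 16 * C₁ * ((2 + |τ|) ^ (2 * m) * Real.exp ((2 - lam / 10) * l)) := by
    have h1 := hr Q I₁ ψ F l lam τ (hD.mono (Finset.filter_subset _ _)) hSq hld (by linarith) hl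
      (by linarith)
    have hPh : (1 / 2 : ℝ) ≤ ‖y‖ := by
      have h0 := half_le_yl hl0.le
      rw [hy, Complex.norm_real, Real.norm_of_nonneg (by linarith)]
      exact h0
    have h2 := card_le_sum I₁ (fun i => ‖G i s₁ - y‖ ^ 2) (κ := 1 / 16)
      (fun i _ => by positivity) (fun i hi => by
        rw [hI₁, Finset.mem_filter] at hi
        have h3 : ‖y‖ ≤ ‖G i s₁ - y‖ + ‖G i s₁‖ := by
          have := norm_sub_le (G i s₁) (G i s₁ - y)
          rw [sub_sub_cancel] at this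
          linarith
        have h4 : (1 / 4 : ℝ) ≤ ‖G i s₁ - y‖ := by linarith [hi.2]
        have h5 : ((1 : ℝ) / 4) ^ 2 ≤ ‖G i s₁ - y‖ ^ 2 := by gcongr
        norm_num at h5 ⊢
        linarith)
    have h3 := h2.trans h1
    have h4 : C₁ * (1 + |τ|) ^ (2 * m) * Real.exp ((2 - lam / 10) * l) ≤
        C₁ * (2 + |τ|) ^ (2 * m) * Real.exp ((2 - lam / 10) * l) := by gcongr
    have h5 := h3.trans h4
    calc (I₁.card : ℝ) = 16 * (1 / 16 * (I₁.card : ℝ)) := by ring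
      _ ≤ 16 * (C₁ * (2 + |τ|) ^ (2 * m) * Real.exp ((2 - lam / 10) * l)) := by
          gcongr
      _ = _ := by ring
  -- zeros of high order
  have b2 : (I₂.card : ℝ) ≤ 64 * C₂ * ((2 + |τ|) ^ (2 * m) *
      (Real.exp ((2 + 50 * lam) * l) / 4 ^ k)) := by
    have hD₂ := hD.mono (Finset.filter_subset _ _ : I₂ ⊆ I)
    have h1 := dv_le I₂ G (s₁ := s₁) (r := 2 * lam) (k := k)
      (B := C₂ * (2 + |τ|) ^ (2 * m) * Real.exp ((2 + 50 * lam) * l)) (by positivity)
      (fun i hi => ?_) (fun t => ?_)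
    · have h2 := card_le_sum I₂ (fun i => ‖G i s₁‖ ^ 2) (κ := 1 / 16)
        (fun i _ => by positivity) (fun i hi => by
          rw [hI₂, Finset.mem_filter] at hi
          have h4 : (1 / 4 : ℝ) ≤ ‖G i s₁‖ := not_lt.1 hi.2
          have h5 : ((1 : ℝ) / 4) ^ 2 ≤ ‖G i s₁‖ ^ 2 := by gcongr
          norm_num at h5 ⊢
          linarith)
      have h3 := h2.trans h1
      calc (I₂.card : ℝ) = 16 * (1 / 16 * (I₂.card : ℝ)) := by ring
        _ ≤ 16 * (4 * (C₂ * (2 + |τ|) ^ (2 * m) *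
            Real.exp ((2 + 50 * lam) * l) / 4 ^ k)) := by gcongr
        _ = _ := by ring
    · have h2 := (hk i (Finset.mem_filter.1 hi).1).mul
        (cut_diff (Xl l) _ : Differentiable ℂ (Mg (ψ i) (mw b₁ l c) (Xl l))) (G := G i)
        (fun _ => rfl)
      exact h2.move (by rw [sub_self, norm_zero]; linarith)
    · have h5 : ‖circleMap s₁ (2 * (2 * lam)) t - s₁‖ = 4 * lam := by
        rw [circleMap_sub_center, norm_circleMap_zero, abs_of_pos (by positivity)]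
        ring
      have h6 := (Complex.abs_re_le_norm (circleMap s₁ (2 * (2 * lam)) t - s₁)).trans h5.le
      have h7 := (Complex.abs_im_le_norm (circleMap s₁ (2 * (2 * lam)) t - s₁)).trans h5.le
      rw [sub_re, hs₁, pt_re] at h6
      rw [sub_im, hs₁, pt_im] at h7
      have h8 := hn Q I₂ ψ F l (5 * lam) (circleMap s₁ (2 * (2 * lam)) t) hD₂ hSq hld
        (by linarith) (by linarith) (by
          rw [abs_le] at h6 ⊢
          constructor <;> linarith [h6.1, h6.2])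
      refine h8.trans ?_
      have h9 : 1 + |(circleMap s₁ (2 * (2 * lam)) t).im| ≤ 2 + |τ| := by
        have h10 : |(circleMap s₁ (2 * (2 * lam)) t).im| ≤ 4 * lam + |τ| := by
          have := abs_add_le ((circleMap s₁ (2 * (2 * lam)) t).im - τ) τ
          rw [sub_add_cancel] at this
          linarith
        linarith
      have h10 : (2 : ℝ) + 10 * (5 * lam) = 2 + 50 * lam := by ring
      rw [h10]
      gcongr
  have hp0 : 0 ≤ (2 + |τ|) ^ (2 * m) := by positivity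
  have q1 : 0 ≤ Real.exp ((2 - lam / 10) * l) := by positivity
  have q2 : 0 ≤ Real.exp ((2 + 50 * lam) * l) / 4 ^ k := by positivity
  set U := (2 + |τ|) ^ (2 * m) with hU
  set u₁ := Real.exp ((2 - lam / 10) * l) with hu₁
  set u₂ := Real.exp ((2 + 50 * lam) * l) / 4 ^ k with hu₂
  have e1 : (16 * C₁ + 64 * C₂) * U * (u₁ + u₂) =
      16 * C₁ * (U * u₁) + 64 * C₂ * (U * u₂) + (16 * C₁ * (U * u₂) + 64 * C₂ * (U * u₁)) := by
    ring
  rw [hcard, e1]
  have p1 : 0 ≤ 16 * C₁ * (U * u₂) := by positivity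
  have p2 : 0 ≤ 64 * C₂ * (U * u₁) := by positivity
  linarith

end Pool.Agent.NH12.BA
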