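import Pool.Agent.NH12.BA.Id
import Pool.Agent.NH12.BA.MS

/-!
# The mean squares of the three parts
-/

set_option autoImplicit false

namespace Pool.Agent.NH12.BA

open Finset Filter Topology Complex MeasureTheory
open Pool.Agent.R399.TW Pool.Agent.R399.TM
open scoped ComplexConjugate

variable {ι : Type} {I : Finset ι} {ψ : ι → ℕ → ℂ} {H P : ℝ}

/-- the mean square on the critical line -/
theorem bound_B2 (h : LSv I ψ H P 0) (hm : ∀ i ∈ I, ∀ k n, ψ i (k * n) = ψ i k * ψ i n)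
    {d mm : ℕ → ℂ} {S : ℝ} {N X : ℕ} (t : ℝ)
    (hS : ∑ n ∈ Icc 1 (N * X), ‖cv (cut N d) (cut X mm) n‖ ^ 2 * (n : ℝ) ^ (-1 : ℝ) ≤ S) :
    ∑ i ∈ I, ‖Dg (ψ i) d N (pt (1 / 2) t) * Mg (ψ i) mm X (pt (1 / 2) t)‖ ^ 2 ≤
      H * (P + (N * X : ℕ)) * S := by
  have hP := h.P_ge
  have hH := h.H_nn
  set u := cv (cut N d) (cut X mm) with hu
  have e1 : ∀ i ∈ I, ‖Dg (ψ i) d N (pt (1 / 2) t) * Mg (ψ i) mm X (pt (1 / 2) t)‖ =
      ‖∑ n ∈ Icc 1 (N * X), (u n * (n : ℂ) ^ (-pt (1 / 2) t)) * ψ i n‖ := by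
    intro i hi
    have hz : (1 - conj (pt (1 / 2) t)) = pt (1 / 2) t := by
      apply Complex.ext
      · simp; norm_num
      · simp
    have h1 : ‖Dg (ψ i) d N (pt (1 / 2) t)‖ = ‖LSeries (tw (ψ i) (cut N d)) (pt (1 / 2) t)‖ := by
      unfold Dg rfl1
      rw [RCLike.norm_conj, hz, tw_cut]
    have h2 : Mg (ψ i) mm X (pt (1 / 2) t) = LSeries (tw (ψ i) (cut X mm)) (pt (1 / 2) t) := by
      unfold Mg
      rw [tw_cut]
    rw [norm_mul, h1, h2, ← norm_mul, LS_mul_tw (hm i hi)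
      (ls_tw (h.norm_le i hi) (cut_summable _ _ _)) (ls_tw (h.norm_le i hi) (cut_summable _ _ _)),
      ← hu]
    have h3 : tw (ψ i) u = cut (N * X) (tw (ψ i) u) := by
      funext n
      unfold cut
      split_ifs with h4
      · rfl
      · unfold tw
        rw [hu, cv_supp (by omega), mul_zero]
    rw [h3, LSeries_cut]
    congr 1
    refine Finset.sum_congr rfl fun n _ => ?_
    unfold tw
    ring
  rw [Finset.sum_congr rfl fun i hi => by rw [e1 i hi]]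
  refine (h.ls (N * X) _).trans ?_
  rw [Real.rpow_zero, mul_one]
  refine mul_le_mul_of_nonneg_left (le_trans (Finset.sum_le_sum fun n hn => ?_) hS) (by positivity)
  rw [mem_Icc] at hn
  have hn0 : (0 : ℝ) < n := by exact_mod_cast hn.1
  rw [norm_mul, Complex.norm_natCast_cpow_of_pos (by omega), neg_re, pt_re, mul_pow,
    ← Real.rpow_natCast ((n : ℝ) ^ (-(1 / 2) : ℝ)), ← Real.rpow_mul hn0.le]
  refine le_of_eq ?_
  congr 2
  push_cast
  ring

/-- the mean square on the line `Re z = -1/2` -/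
theorem bound_C2 (h : LSv I ψ H P 0) (hm : ∀ i ∈ I, ∀ k n, ψ i (k * n) = ψ i k * ψ i n) {c : ℕ → ℂ}
    (hL : Lin c) {θ S : ℝ} {N X M : ℕ} {d mm : ℕ → ℂ} (hSB : SB c θ S) (hθ : θ ≤ 1 / 2)
    (hM : 1 ≤ M) (hmm : ∀ n, ‖mm n‖ ≤ E (fun k => ‖c k‖) n)
    (hd : ∀ n, ‖E c n - cut N d n‖ ≤ E (fun k => ‖c k‖) n)
    (hd0 : ∀ n, n ≤ M → E c n - cut N d n = 0)
    (t : ℝ) :
    ∑ i ∈ I, ‖Tg (ψ i) c d N (pt (-1 / 2) t) * Mg (ψ i) mm X (pt (-1 / 2) t)‖ ^ 2 ≤
      10 * H * ((X : ℝ) ^ 4 * (16 * (1 + P / M) *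
        ((1 + Real.log M) ^ 2 * (M : ℝ) ^ (θ - 1))) * S) := by
  have hP := h.P_ge
  set f : ℕ → ℂ := fun n => E c n - cut N d n with hf
  set g : ℕ → ℂ := fun k => mm k * (k : ℂ) ^ 2 with hg
  set v := cv f (cut X g) with hv
  have hz : (1 - conj (pt (-1 / 2) t)) = pt (3 / 2) t := by
    apply Complex.ext
    · simp; norm_num
    · simp
  have hgle : ∀ n, ‖cut X g n‖ ≤ (X : ℝ) ^ 2 * E (fun k => ‖c k‖) n := by
    intro n
    have h0 := E_nonneg (κ := fun k => ‖c k‖) (fun k => norm_nonneg _) n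
    unfold cut
    split_ifs with h1
    · rw [hg]
      simp only [norm_mul, norm_pow, Complex.norm_natCast]
      have h2 : (n : ℝ) ≤ X := by exact_mod_cast h1
      have h3 := hmm n
      calc ‖mm n‖ * (n : ℝ) ^ 2 ≤ E (fun k => ‖c k‖) n * (X : ℝ) ^ 2 := by gcongr
        _ = _ := by ring
    · rw [norm_zero]
      positivity
  have hvle : ∀ n, ‖v n‖ ≤ (X : ℝ) ^ 2 * ab2 c n := by
    intro n
    have h1 : ‖v n‖ ≤ (X : ℝ) ^ 2 * cv (E (fun k => ‖c k‖)) (E (fun k => ‖c k‖)) n := by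
      rw [hv]
      unfold cv
      rw [Finset.mul_sum]
      refine norm_sum_le_of_le _ fun p _ => ?_
      rw [norm_mul]
      have h1 := hd p.1
      have h2 := hgle p.2
      have h3 := norm_nonneg (cut X g p.2)
      have h4 := (norm_nonneg _).trans h1
      calc ‖f p.1‖ * ‖cut X g p.2‖
          ≤ E (fun k => ‖c k‖) p.1 * ((X : ℝ) ^ 2 * E (fun k => ‖c k‖) p.2) := by gcongr
        _ = _ := by ring
    rw [E_add] at h1
    have : (fun k => ‖c k‖ + ‖c k‖) = fun k => 2 * ‖c k‖ := by funext k; ring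
    rw [this] at h1
    exact h1
  have hv0 : ∀ n, n ≤ M → v n = 0 := by
    intro n hn
    rw [hv]
    unfold cv
    refine Finset.sum_eq_zero fun p hp => ?_
    rw [Nat.mem_divisorsAntidiagonal] at hp
    have hp1 : p.1 ≤ M := by
      refine le_trans ?_ hn
      rw [← hp.1]
      exact Nat.le_mul_of_pos_right _ (Nat.pos_of_ne_zero fun h => by
        rw [h, mul_zero] at hp; exact hp.2 hp.1.symm)
    have : f p.1 = 0 := hd0 _ hp1
    rw [this, zero_mul]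
  have hls : ∀ i ∈ I, LSeriesSummable (tw (ψ i) v) (pt (3 / 2) t) := fun i hi =>
    ls_tw (h.norm_le i hi) (ls_of_le hL hvle (by rw [pt_re]; norm_num))
  have hlt : ∀ i ∈ I, LSeriesSummable (tw (ψ i) f) (pt (3 / 2) t) := fun i hi =>
    ls_tw (h.norm_le i hi) (ls_of_le hL (K := 1) (fun n => by
          rw [one_mul]
          refine (hd n).trans ?_
          exact E_mono (fun k => norm_nonneg _) (fun k => by
            have := norm_nonneg (c k); linarith) n) (by rw [pt_re]; norm_num))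
  have e1 : ∀ i ∈ I, ‖Tg (ψ i) c d N (pt (-1 / 2) t) * Mg (ψ i) mm X (pt (-1 / 2) t)‖ =
      ‖LSeries (tw (ψ i) v) (pt (3 / 2) t)‖ := by
    intro i hi
    have h1 : ‖Tg (ψ i) c d N (pt (-1 / 2) t)‖ = ‖LSeries (tw (ψ i) f) (pt (3 / 2) t)‖ := by
      unfold Tg rfl1
      rw [RCLike.norm_conj, hz]
    have h2 : Mg (ψ i) mm X (pt (-1 / 2) t) = LSeries (tw (ψ i) (cut X g)) (pt (3 / 2) t) := by
      unfold Mg
      rw [tw_cut, LSeries_cut, LSeries_cut]
      refine Finset.sum_congr rfl fun n hn => ?_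
      rw [mem_Icc] at hn
      have hn0 : (n : ℂ) ≠ 0 := by exact_mod_cast (show n ≠ 0 by omega)
      unfold tw
      rw [hg]
      simp only
      have h3 : (n : ℂ) ^ 2 * (n : ℂ) ^ (-pt (3 / 2) t) = (n : ℂ) ^ (-pt (-1 / 2) t) := by
        rw [← Complex.cpow_ofNat, ← Complex.cpow_add _ _ hn0]
        congr 1
        unfold pt
        push_cast
        ring
      rw [← h3]
      ring
    rw [norm_mul, h1, h2, ← norm_mul, LS_mul_tw (hm i hi) (hlt i hi)
      (ls_tw (h.norm_le i hi) (cut_summable _ _ _))]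
  rw [Finset.sum_congr rfl fun i hi => by rw [e1 i hi]]
  have key := h.ser (f := v) (s := pt (3 / 2) t) (σ := 3 / 2)
    (B := (X : ℝ) ^ 4 * (16 * (1 + P / M) *
        ((1 + Real.log M) ^ 2 * (M : ℝ) ^ (θ - 1))) * S) (by rw [pt_re]) hls fun J => ?_
  · rwa [Real.rpow_zero, mul_one] at key
  refine le_trans ?_ (mul_le_mul_of_nonneg_left (hSB J) (by positivity))
  rw [Finset.mul_sum]
  refine Finset.sum_le_sum fun n hn => ?_
  rw [mem_Icc] at hn
  have hn0 : (0 : ℝ) < n := by exact_mod_cast hn.1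
  have hG := ab4_nn c n
  rcases Nat.lt_or_ge M n with h1 | h1
  · have h2 := wC_le (P := P) (η := 0) (θ := θ) hM h1 (by linarith) (by linarith)
    rw [zero_add] at h2
    have h3 : ‖v n‖ ^ 2 ≤ (X : ℝ) ^ 4 * ab4 c n := by
      refine (pow_le_pow_left₀ (norm_nonneg _) (hvle n) 2).trans ?_
      rw [mul_pow, ← pow_mul]
      have := ab2_sq c n
      gcongr
    have hw := wt_nn (show 0 ≤ P by linarith) 0 n
    have h4 : (-(2 * (3 / 2 : ℝ))) = -3 := by norm_num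
    rw [h4]
    calc wt P 0 n * (‖v n‖ ^ 2 * (n : ℝ) ^ (-3 : ℝ))
        ≤ wt P 0 n * (((X : ℝ) ^ 4 * ab4 c n) * (n : ℝ) ^ (-3 : ℝ)) := by gcongr
      _ = (X : ℝ) ^ 4 * ab4 c n * (wt P 0 n * (n : ℝ) ^ (-3 : ℝ)) := by ring
      _ ≤ (X : ℝ) ^ 4 * ab4 c n * (16 * (1 + P / M) * ((1 + Real.log M) ^ 2 *
          (M : ℝ) ^ (θ - 1)) * (n : ℝ) ^ (-(1 + θ))) := by gcongr
      _ = _ := by ring
  · rw [hv0 n h1, norm_zero]
    have : (0 : ℝ) ≤ (X : ℝ) ^ 4 * (16 * (1 + P / M) *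
        ((1 + Real.log M) ^ 2 * (M : ℝ) ^ (θ - 1))) * (ab4 c n * (n : ℝ) ^ (-(1 + θ))) := by
      positivity
    simpa using this

end Pool.Agent.NH12.BA
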