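import Pool.Agent.NH12.BA.RightB
import Pool.Agent.R399.TM.Near

/-!
# The mean square to the right of the critical line, without loss
-/

set_option autoImplicit false

namespace Pool.Agent.NH12.BA

open Finset Filter Topology Complex MeasureTheory
open Pool.Agent.R399.TW Pool.Agent.R399.TM
open scoped ComplexConjugate

variable {b₁ b₂ b₃ : ℝ → ℝ}

/-- the mollified functions -/
noncomputable def Gw (b₁ : ℝ → ℝ) (l : ℝ) (c ψ : ℕ → ℂ) (F : ℂ → ℂ) (z : ℂ) : ℂ :=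
  F z * Mg ψ (mw b₁ l c) (Xl l) z

/-- the value of the limit -/
noncomputable def yl (l : ℝ) : ℝ := Ph2 (15 / 8 * l) (31 / 16 * l) 0

lemma yl_le (l : ℝ) : yl l ≤ 1 := Ph2_le_one _ _ _

lemma half_le_yl {l : ℝ} (hl : 0 ≤ l) : 1 / 2 ≤ yl l :=
  half_le_Ph2 (by positivity) (by linarith)

/-- **to the right of the critical line** -/
theorem right2 (hw : Wts b₁ b₂ b₃) {m : ℕ} (hm : m ≤ 3) {c : ℕ → ℂ} (R₀ V A C₀ : ℝ) :
    ∃ C : ℝ, 0 ≤ C ∧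
    ∀ (Q : ℕ) {ι : Type} (I : Finset ι) (ψ : ι → ℕ → ℂ) (F : ι → ℂ → ℂ) (l δ τ : ℝ),
      Dat m c R₀ V A Q I ψ F → Sqb c C₀ → l = 1 + Real.log Q → 8 ≤ l → 4 ≤ δ * l → δ ≤ 1 / 2 →
      ∑ i ∈ I, ‖Gw b₁ l c (ψ i) (F i) (pt (1 / 2 + δ) τ) - ((yl l : ℝ) : ℂ)‖ ^ 2 ≤
        C * (1 + |τ|) ^ (2 * m) * Real.exp ((2 - δ / 10) * l) := by
  by_cases hpos : 0 ≤ R₀ ∧ 0 ≤ V ∧ 0 ≤ A
  swap
  · exact ⟨0, le_rfl, fun Q ι I ψ F l δ τ hD => absurd ⟨hD.R0, hD.V0, hD.A0⟩ hpos⟩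
  obtain ⟨hR₀, hV, hA⟩ := hpos
  obtain ⟨φ₃, h3⟩ := hw.r3
  obtain ⟨φ₁, h1⟩ := hw.r1
  obtain ⟨KA, hKA, hA'⟩ := part_A C₀ A hA h3 h1 hw.one3 hw.one1 hw.zero1 hw.nn1 hw.le1
  obtain ⟨KB, hKB, hB'⟩ := part_B hw C₀
  obtain ⟨KC, hKC, hC'⟩ := part_C hw hm hR₀ hV hA
  refine ⟨3 * (KA + KB + KC), by positivity, ?_⟩
  intro Q ι I ψ F l δ τ hD hSq hlQ hl hδl hδ
  have hQ := hD.Q1
  have hq1 : (1 : ℝ) ≤ Q := by exact_mod_cast hQ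
  have hq0 : (0 : ℝ) < Q := by linarith
  have hl0 : 0 < l := by linarith
  have hδ0 : 0 < δ := by
    by_contra hcon
    have : δ * l ≤ 0 := mul_nonpos_of_nonpos_of_nonneg (not_lt.1 hcon) hl0.le
    linarith
  have hQl : (Q : ℝ) ≤ Real.exp l := by
    rw [← Real.exp_log hq0]
    exact Real.exp_le_exp.2 (by linarith)
  have hP : (Q : ℝ) ^ 2 ≤ Real.exp (2 * l) := by
    calc (Q : ℝ) ^ 2 ≤ Real.exp l ^ 2 := by gcongr
      _ = _ := by rw [← Real.exp_nat_mul]; push_cast; rfl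
  have hQm : R₀ * (Q : ℝ) ^ m ≤ R₀ * Real.exp (m * l) := by
    rw [Real.exp_nat_mul]
    gcongr
  set ρ : ℂ := pt (1 / 2 + δ) τ with hρ
  have hρre : ρ.re = 1 / 2 + δ := by rw [hρ, pt_re]
  -- choose the factors
  have hch : ∀ i : ι, ∃ ε : ℂ → ℂ, i ∈ I → Eps (R₀ * (Q : ℝ) ^ m) V m (F i) ε := by
    intro i
    by_cases hi : i ∈ I
    · obtain ⟨ε, hε⟩ := (hD.mem i hi).fe
      exact ⟨ε, fun _ => hε⟩
    · exact ⟨0, fun h => absurd h hi⟩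
  choose ε hε using hch
  have hmul : ∀ i ∈ I, ∀ k n, ψ i (k * n) = ψ i k * ψ i n := fun i hi => (hD.mem i hi).mul
  have a1 := hA' I ψ c ((Q : ℝ) ^ 2) l δ τ hD.ls (fun i hi => (hD.mem i hi).one) hD.lin hSq hD.sb
    hP hl hδl hδ
  have a2 := hB' I ψ ε c ((Q : ℝ) ^ 2) l δ τ hD.ls hmul hSq (fun i hi => (hε i hi).mid) hP hl hδl hδ
  have a3 := hC' I ψ ε c ((Q : ℝ) ^ 2) l δ τ (R₀ * (Q : ℝ) ^ m) hD.ls hmul hD.lin hD.sb
    (fun i hi => (hε i hi).left) (by positivity) hQm hP hl hδl hδ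
  set S₁ : ι → ℂ := fun i => LSeries (tw (ψ i) fun n => cv (E c) (cut ⌊Real.exp (1 / 8 * l)⌋₊
        (fun n => gw b₁ l n * E (fun k => -c k) n)) n *
        ((Ph2 (15 / 8 * l) (31 / 16 * l) (Real.log n) : ℝ) : ℂ)) ρ -
        ((Ph2 (15 / 8 * l) (31 / 16 * l) 0 : ℝ) : ℂ) with hS₁
  set J₁ : ι → ℂ := fun i => ∫ t : ℝ, ε i (pt (1 / 2) t) *
    (Dg (ψ i) (dw b₂ l c) (Nl l) (pt (1 / 2) t) * Mg (ψ i) (mw b₁ l c) (Xl l) (pt (1 / 2) t)) *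
          Kr2 (15 / 8 * l) (31 / 16 * l) ρ (pt (1 / 2) t) with hJ₁
  set J₂ : ι → ℂ := fun i => ∫ t : ℝ, ε i (pt (-1 / 2) t) *
    (Tg (ψ i) c (dw b₂ l c) (Nl l) (pt (-1 / 2) t) *
        Mg (ψ i) (mw b₁ l c) (Xl l) (pt (-1 / 2) t)) *
          Kr2 (15 / 8 * l) (31 / 16 * l) ρ (pt (-1 / 2) t) with hJ₂
  have a1' : ∑ i ∈ I, ‖S₁ i‖ ^ 2 ≤ KA * Real.exp ((2 - δ / 10) * l) := a1
  have a2' : ∑ i ∈ I, ‖J₁ i‖ ^ 2 ≤ KB * Real.exp ((2 - δ / 10) * l) := a2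
  have a3' : ∑ i ∈ I, ‖J₂ i‖ ^ 2 ≤ KC * (1 + |τ|) ^ (2 * m) * Real.exp ((2 - δ / 10) * l) := a3
  have key : ∀ i ∈ I, ‖Gw b₁ l c (ψ i) (F i) ρ - ((yl l : ℝ) : ℂ)‖ ^ 2 ≤
      3 * (‖S₁ i‖ ^ 2 + ‖J₁ i‖ ^ 2 + ‖J₂ i‖ ^ 2) := by
    intro i hi
    have h1 := val_id2 hD.lin (hD.mem i hi) (hε i hi) (mm := mw b₁ l c) (d := dw b₂ l c)
      (hw.mw_le l c) (hw.dw_le l c) (Xl l) (Nl l) (α := 15 / 8 * l) (β := 31 / 16 * l)
      (by positivity) (by linarith) (ρ := ρ) (by rw [hρre]; linarith) (by rw [hρre]; linarith)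
    set w : ℂ := Gw b₁ l c (ψ i) (F i) ρ - ((yl l : ℝ) : ℂ) with hw'
    have hpi := Real.pi_gt_three
    have h4 : 2 * Real.pi * w = 2 * Real.pi * S₁ i - (J₁ i + J₂ i) := by
      have e1 : 2 * Real.pi * (F i ρ * Mg (ψ i) (mw b₁ l c) (Xl l) ρ) + (J₁ i + J₂ i) =
          2 * Real.pi * (S₁ i + ((yl l : ℝ) : ℂ)) := by
        rw [hS₁, hJ₁, hJ₂]
        simp only
        unfold yl
        rw [sub_add_cancel]
        exact h1.symm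
      rw [hw']
      unfold Gw
      linear_combination e1
    have h3 : 2 * Real.pi * ‖w‖ ≤ 2 * Real.pi * ‖S₁ i‖ + (‖J₁ i‖ + ‖J₂ i‖) := by
      have h5 : ‖(2 * Real.pi * w : ℂ)‖ = 2 * Real.pi * ‖w‖ := by
        rw [norm_mul, norm_mul, Complex.norm_real, Complex.norm_ofNat,
          Real.norm_of_nonneg (by positivity)]
      have h7 : ‖(2 * Real.pi * S₁ i : ℂ)‖ = 2 * Real.pi * ‖S₁ i‖ := by
        rw [norm_mul, norm_mul, Complex.norm_real, Complex.norm_ofNat,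
          Real.norm_of_nonneg (by positivity)]
      rw [← h5, h4, ← h7]
      refine (norm_sub_le _ _).trans ?_
      have h6 := norm_add_le (J₁ i) (J₂ i)
      linarith
    have n0 := norm_nonneg w
    have n1 := norm_nonneg (S₁ i)
    have n2 := norm_nonneg (J₁ i)
    have n3 := norm_nonneg (J₂ i)
    have h8 : ‖w‖ ≤ ‖S₁ i‖ + ‖J₁ i‖ + ‖J₂ i‖ := by
      have h11 : ‖J₁ i‖ ≤ 2 * Real.pi * ‖J₁ i‖ := by nlinarith
      have h12 : ‖J₂ i‖ ≤ 2 * Real.pi * ‖J₂ i‖ := by nlinarith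
      have h9 : 2 * Real.pi * ‖w‖ ≤ 2 * Real.pi * (‖S₁ i‖ + ‖J₁ i‖ + ‖J₂ i‖) := by nlinarith
      exact le_of_mul_le_mul_left h9 (by positivity)
    have h9 : ‖w‖ ^ 2 ≤ (‖S₁ i‖ + ‖J₁ i‖ + ‖J₂ i‖) ^ 2 := by gcongr
    nlinarith [sq_nonneg (‖S₁ i‖ - ‖J₁ i‖), sq_nonneg (‖S₁ i‖ - ‖J₂ i‖),
      sq_nonneg (‖J₁ i‖ - ‖J₂ i‖)]
  refine (Finset.sum_le_sum key).trans ?_
  rw [← Finset.mul_sum, Finset.sum_add_distrib, Finset.sum_add_distrib]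
  have hτ : (1 : ℝ) ≤ (1 + |τ|) ^ (2 * m) := one_le_pow₀ (by linarith [abs_nonneg τ])
  set T : ℝ := Real.exp ((2 - δ / 10) * l) with hT
  have hT0 : 0 ≤ T := (Real.exp_pos _).le
  have b1 : KA * T ≤ KA * (1 + |τ|) ^ (2 * m) * T := by
    have := mul_le_mul_of_nonneg_left hτ hKA
    rw [mul_one] at this
    exact mul_le_mul_of_nonneg_right this hT0
  have b2 : KB * T ≤ KB * (1 + |τ|) ^ (2 * m) * T := by
    have := mul_le_mul_of_nonneg_left hτ hKB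
    rw [mul_one] at this
    exact mul_le_mul_of_nonneg_right this hT0
  calc 3 * (∑ i ∈ I, ‖S₁ i‖ ^ 2 + ∑ i ∈ I, ‖J₁ i‖ ^ 2 + ∑ i ∈ I, ‖J₂ i‖ ^ 2)
      ≤ 3 * (KA * (1 + |τ|) ^ (2 * m) * T + KB * (1 + |τ|) ^ (2 * m) * T +
        KC * (1 + |τ|) ^ (2 * m) * T) := by linarith
    _ = _ := by ring

/-! ### the left line -/

lemma mg_le {c ψ : ℕ → ℂ} (hL : Lin c) (hψ : ∀ n, ‖ψ n‖ ≤ 1) {mm : ℕ → ℂ}
    (hmm : ∀ n, ‖mm n‖ ≤ E (fun k => ‖c k‖) n) (X : ℕ) {s : ℂ}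
    (hs : -1 / 2 ≤ s.re) : ‖Mg ψ mm X s‖ ≤ (X : ℝ) ^ 2 * Bs c (3 / 2) := by
  unfold Mg
  rw [LSeries_cut]
  refine (norm_sum_le _ _).trans ?_
  calc ∑ n ∈ Icc 1 X, ‖tw ψ mm n * (n : ℂ) ^ (-s)‖
      ≤ ∑ n ∈ Icc 1 X, (X : ℝ) ^ 2 * (E (fun k => ‖c k‖) n * (n : ℝ) ^ (-(3 / 2) : ℝ)) := by
        refine Finset.sum_le_sum fun n hn => ?_
        rw [mem_Icc] at hn
        have hn0 : (0 : ℝ) < n := by exact_mod_cast hn.1
        have hn1 : (1 : ℝ) ≤ n := by exact_mod_cast hn.1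
        have hnX : (n : ℝ) ≤ X := by exact_mod_cast hn.2
        rw [norm_mul, Complex.norm_natCast_cpow_of_pos hn.1, neg_re]
        have h1 := (norm_tw_le hψ mm n).trans (hmm n)
        have h0 := E_nonneg (κ := fun k => ‖c k‖) (fun k => norm_nonneg _) n
        have h2 : (n : ℝ) ^ (-s.re) ≤ (n : ℝ) ^ (1 / 2 : ℝ) :=
          Real.rpow_le_rpow_of_exponent_le hn1 (by linarith)
        have h3 : (n : ℝ) ^ (1 / 2 : ℝ) = (n : ℝ) ^ 2 * (n : ℝ) ^ (-(3 / 2) : ℝ) := by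
          rw [← Real.rpow_natCast (n : ℝ) 2, ← Real.rpow_add hn0]
          congr 1
          norm_num
        calc ‖tw ψ mm n‖ * (n : ℝ) ^ (-s.re)
            ≤ E (fun k => ‖c k‖) n * ((n : ℝ) ^ 2 * (n : ℝ) ^ (-(3 / 2) : ℝ)) := by
              rw [← h3]
              exact mul_le_mul h1 h2 (by positivity) h0
          _ ≤ E (fun k => ‖c k‖) n * ((X : ℝ) ^ 2 * (n : ℝ) ^ (-(3 / 2) : ℝ)) := by gcongr
          _ = _ := by ring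
    _ = (X : ℝ) ^ 2 * ∑ n ∈ Icc 1 X, (E (fun k => ‖c k‖) n * (n : ℝ) ^ (-(3 / 2) : ℝ)) := by
        rw [Finset.mul_sum]
    _ ≤ (X : ℝ) ^ 2 * Bs c (3 / 2) := by
        refine mul_le_mul_of_nonneg_left ?_ (by positivity)
        exact (hL.summ (by norm_num : (1 : ℝ) < 3 / 2)).sum_le_tsum (Icc 1 X)
          fun n _ => Bs_term c (3 / 2) n

lemma Xl_sq {l : ℝ} (hl : 0 ≤ l) : (Xl l : ℝ) ^ 2 ≤ Real.exp l := by
  calc (Xl l : ℝ) ^ 2 ≤ Real.exp (1 / 8 * l) ^ 2 := by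
        have := Xl_le l
        gcongr
    _ ≤ Real.exp l := by
        rw [← Real.exp_nat_mul]
        apply Real.exp_le_exp.2
        push_cast
        linarith

/-- the mean square on the line `Re s = -1/2` -/
theorem left2 (hw : Wts b₁ b₂ b₃) {m : ℕ} (c : ℕ → ℂ) {R₀ V A : ℝ} {Q : ℕ} {ι : Type}
    {I : Finset ι} {ψ : ι → ℕ → ℂ} {F : ι → ℂ → ℂ} (hD : Dat m c R₀ V A Q I ψ F) {l : ℝ}
    (hl : l = 1 + Real.log Q) (t : ℝ) :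
    ∑ i ∈ I, ‖Gw b₁ l c (ψ i) (F i) (pt (-1 / 2) t)‖ ^ 2 ≤
      (R₀ * V ^ m * Bs c (3 / 2) ^ 2 * Real.exp ((m + 2) * l) * (1 + |t|) ^ m) ^ 2 := by
  have hQ := hD.Q1
  have hR₀ := hD.R0
  have hV := hD.V0
  have hB := Bs_nn c (3 / 2)
  have hq1 : (1 : ℝ) ≤ Q := by exact_mod_cast hQ
  have hq0 : (0 : ℝ) < Q := by linarith
  have hlq : 0 ≤ Real.log Q := Real.log_nonneg hq1
  have hQl : (Q : ℝ) ≤ Real.exp l := by
    rw [← Real.exp_log hq0]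
    exact Real.exp_le_exp.2 (by linarith)
  set W : ℝ := R₀ * V ^ m * Bs c (3 / 2) ^ 2 * Real.exp ((m + 1) * l) * (1 + |t|) ^ m with hW
  have hW0 : 0 ≤ W := by positivity
  have e0 : Real.exp ((m + 1) * l) = Real.exp l ^ m * Real.exp l := by
    rw [← Real.exp_nat_mul, ← Real.exp_add]
    congr 1
    ring
  have h1 : ∀ i ∈ I, ‖Gw b₁ l c (ψ i) (F i) (pt (-1 / 2) t)‖ ^ 2 ≤ W ^ 2 := by
    intro i hi
    have h2 := left_F hD.lin (hD.mem i hi) t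
    have h3 := mg_le hD.lin (hD.mem i hi).le (hw.mw_le l c) (Xl l) (s := pt (-1 / 2) t)
      (by rw [pt_re])
    have h4 := Xl_sq (l := l) (by linarith)
    have h5 : ‖Gw b₁ l c (ψ i) (F i) (pt (-1 / 2) t)‖ ≤ W := by
      unfold Gw
      rw [norm_mul]
      calc ‖F i (pt (-1 / 2) t)‖ * ‖Mg (ψ i) (mw b₁ l c) (Xl l) (pt (-1 / 2) t)‖
          ≤ (R₀ * (Q : ℝ) ^ m * (V * (1 + |t|)) ^ m * Bs c (3 / 2)) *
            ((Xl l : ℝ) ^ 2 * Bs c (3 / 2)) := by gcongr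
        _ ≤ (R₀ * Real.exp l ^ m * (V * (1 + |t|)) ^ m * Bs c (3 / 2)) *
            (Real.exp l * Bs c (3 / 2)) := by gcongr
        _ = W := by rw [hW, e0, mul_pow V]; ring
    gcongr
  refine (Finset.sum_le_sum h1).trans ?_
  rw [Finset.sum_const, nsmul_eq_mul]
  have e1 : Real.exp ((m + 2) * l) = Real.exp ((m + 1) * l) * Real.exp l := by
    rw [← Real.exp_add]
    congr 1
    ring
  calc (I.card : ℝ) * W ^ 2 ≤ (Q : ℝ) ^ 2 * W ^ 2 :=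
        mul_le_mul_of_nonneg_right hD.card (by positivity)
    _ ≤ (Real.exp l) ^ 2 * W ^ 2 := by gcongr
    _ = (Real.exp l * W) ^ 2 := by ring
    _ = _ := by rw [hW, e1]; ring

end Pool.Agent.NH12.BA
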