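import Pool.Agent.NH12.BA.KBd

/-!
# The series part of the mollified values
-/

set_option autoImplicit false

namespace Pool.Agent.NH12.BA

open Finset Filter Topology Complex MeasureTheory
open Pool.Agent.R399.TW Pool.Agent.R399.TM
open scoped ComplexConjugate

/-- polynomials are smaller than exponentials -/
lemma rpow_le_exp {p ε x : ℝ} (hp : 0 < p) (hε : 0 < ε) (hx : 0 ≤ x) :
    x ^ p ≤ (p / ε) ^ p * Real.exp (ε * x) := by
  have h1 : ε * x / p ≤ Real.exp (ε * x / p) := by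
    have := Real.add_one_le_exp (ε * x / p)
    linarith
  have h2 : x = (p / ε) * (ε * x / p) := by field_simp
  calc x ^ p = ((p / ε) * (ε * x / p)) ^ p := by rw [← h2]
    _ = (p / ε) ^ p * (ε * x / p) ^ p := Real.mul_rpow (by positivity) (by positivity)
    _ ≤ (p / ε) ^ p * Real.exp (ε * x / p) ^ p := by gcongr
    _ = _ := by
      rw [← Real.exp_mul]
      congr 2
      field_simp

lemma norm_mul_gw {b : ℝ → ℝ} (h0 : ∀ x, 0 ≤ b x) (h1 : ∀ x, b x ≤ 1) (L : ℝ) {f : ℕ → ℂ} {g : ℕ → ℝ}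
    (hf : ∀ n, ‖f n‖ ≤ g n) (n : ℕ) : ‖gw b L n * f n‖ ≤ g n := by
  rw [norm_mul]
  have h2 := norm_gw h0 h1 L n
  have h3 := hf n
  have h4 := norm_nonneg (f n)
  calc ‖gw b L n‖ * ‖f n‖ ≤ 1 * g n := by gcongr
    _ = _ := one_mul _

variable {ι : Type} {I : Finset ι} {ψ : ι → ℕ → ℂ}

/-- **the series part** -/
theorem part_A (C A : ℝ) {b₃ b₁ : ℝ → ℝ} {φ₃ φ₁ : ℝ → ℂ} (hA : 0 ≤ A)
    (hr₃ : Rep b₃ φ₃) (hr₁ : Rep b₁ φ₁)
    (h31 : ∀ x, |x| ≤ 2 → b₃ x = 1) (h11 : ∀ x, |x| ≤ 1 / 10 → b₁ x = 1)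
    (h12 : ∀ x, 1 / 8 ≤ |x| → b₁ x = 0) (h13 : ∀ x, 0 ≤ b₁ x) (h14 : ∀ x, b₁ x ≤ 1) :
    ∃ K : ℝ, 0 ≤ K ∧ ∀ {ι : Type} (I : Finset ι) (ψ : ι → ℕ → ℂ) (c : ℕ → ℂ) (P l δ τ : ℝ),
      LSv I ψ 6 P 0 → (∀ i ∈ I, ψ i 1 = 1) → Lin c → Sqb c C →
      (∀ θ : ℝ, 0 < θ → θ ≤ 1 → SB c θ (Real.exp (2 * A) * θ ^ (-A))) →
      P ≤ Real.exp (2 * l) → 8 ≤ l → 4 ≤ δ * l → δ ≤ 1 / 2 →
      ∑ i ∈ I, ‖LSeries (tw (ψ i) fun n => cv (E c) (cut ⌊Real.exp (1 / 8 * l)⌋₊
        (fun n => gw b₁ l n * E (fun k => -c k) n)) n *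
        ((Ph2 (15 / 8 * l) (31 / 16 * l) (Real.log n) : ℝ) : ℂ)) (pt (1 / 2 + δ) τ) -
        ((Ph2 (15 / 8 * l) (31 / 16 * l) 0 : ℝ) : ℂ)‖ ^ 2 ≤
        K * Real.exp ((2 - δ / 10) * l) := by
  obtain ⟨Km, hKm, hms⟩ := ms hr₃ hr₁ C
  set Kp : ℝ := ((A + 2) / (1 / 8)) ^ (A + 2) with hKp
  have hKp0 : 0 ≤ Kp := by positivity
  refine ⟨24 * Km + 2 * (10 * 6 * (512 * Real.exp 18 * (Real.exp (2 * A) * Kp))), by positivity, ?_⟩
  intro ι I ψ c P l δ τ hls hone hL hC hSB hP hl hδl hδ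
  have hl0 : 0 < l := by linarith
  have hδ0 : 0 < δ := by
    by_contra hcon
    have : δ * l ≤ 0 := mul_nonpos_of_nonpos_of_nonneg (not_lt.1 hcon) hl0.le
    linarith
  have hP1 := hls.P_ge
  set mm : ℕ → ℂ := fun n => gw b₁ l n * E (fun k => -c k) n with hmm
  set X : ℕ := ⌊Real.exp (1 / 8 * l)⌋₊ with hX
  set α : ℝ := 15 / 8 * l with hα
  set β : ℝ := 31 / 16 * l with hβ
  have hαβ : α ≤ β := by rw [hα, hβ]; nlinarith
  have hα0 : 0 ≤ α := by rw [hα]; positivity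
  have hcut : cut X mm = mm := cut_gw hl0 h12 (E_zero _)
  rw [hcut]
  set a : ℕ → ℂ := cv (E c) mm with ha
  have hmmle : ∀ n, ‖mm n‖ ≤ E (fun k => ‖c k‖) n := norm_mul_gw h13 h14 l (norm_neg_E_le c)
  have hale : ∀ n, ‖a n‖ ≤ ab2 c n := cv_le (norm_E_le c) hmmle
  have ha1 : a 1 = 1 := by
    rw [ha]
    unfold cv
    simp only [Nat.divisorsAntidiagonal_one, Finset.sum_singleton, E_one, one_mul, hmm]
    rw [gw_one hl0 h11 one_ne_zero (by
      rw [Nat.cast_one]; exact Real.one_le_exp (by positivity)), one_mul]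
  have hmid : ∀ n : ℕ, (n : ℝ) ≤ Real.exp (1 / 10 * l) → a n = if n = 1 then 1 else 0 := by
    intro n hn
    rw [← E_inv c n, ha]
    unfold cv
    refine Finset.sum_congr rfl fun p hp => ?_
    rw [Nat.mem_divisorsAntidiagonal] at hp
    have hp2 : p.2 ≠ 0 := fun h => by rw [h, mul_zero] at hp; exact hp.2 hp.1.symm
    have hp1 : p.1 ≠ 0 := fun h => by rw [h, zero_mul] at hp; exact hp.2 hp.1.symm
    have h5 : p.2 ≤ n := by
      rw [← hp.1]
      exact Nat.le_mul_of_pos_left _ (Nat.pos_of_ne_zero hp1)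
    have h6 : (p.2 : ℝ) ≤ n := by exact_mod_cast h5
    simp only [hmm]
    rw [gw_one hl0 h11 hp2 (h6.trans hn), one_mul]
  have hwc : ∀ n : ℕ, (n : ℝ) ≤ Real.exp (2 * l) → a n = wc b₃ b₁ l c n := by
    intro n hn
    rw [ha]
    unfold wc cv
    refine Finset.sum_congr rfl fun p hp => ?_
    rw [Nat.mem_divisorsAntidiagonal] at hp
    have hp2 : p.2 ≠ 0 := fun h => by rw [h, mul_zero] at hp; exact hp.2 hp.1.symm
    have hp1 : p.1 ≠ 0 := fun h => by rw [h, zero_mul] at hp; exact hp.2 hp.1.symm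
    have h5 : p.1 ≤ n := by
      rw [← hp.1]
      exact Nat.le_mul_of_pos_right _ (Nat.pos_of_ne_zero hp2)
    have h6 : (p.1 : ℝ) ≤ n := by exact_mod_cast h5
    beta_reduce
    rw [gw_one hl0 h31 hp1 (h6.trans hn), one_mul]
  -- splitting
  set y : ℝ := Ph2 α β 0 with hy
  set N₂ : ℕ := ⌊Real.exp (2 * l)⌋₊ with hN₂
  have hN₂1 : 1 ≤ N₂ := Nat.le_floor (by
    rw [Nat.cast_one]; exact Real.one_le_exp (by positivity))
  have hN₂2 : (N₂ : ℝ) ≤ Real.exp (2 * l) := Nat.floor_le (Real.exp_pos _).le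
  set g : ℕ → ℂ := fun n => a n * ((Ph2 α β (Real.log n) : ℝ) : ℂ) with hg
  set ρ : ℂ := pt (1 / 2 + δ) τ with hρ
  have hρre : ρ.re = 1 / 2 + δ := by rw [hρ, pt_re]
  have hsum : ∀ i ∈ I, LSeriesSummable (tw (ψ i) g) ρ := by
    intro i hi
    refine (right_line2 (hls.norm_le i hi) ?_ α β (by rw [hρre]; linarith)).1
    exact ls_of_le hL (K := 1) (fun n => by rw [one_mul]; exact hale n) (by norm_num)
  have hstl : ∀ i ∈ I, LSeriesSummable (tw (ψ i) (tl N₂ g)) ρ := by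
    intro i hi
    have h1 := (hsum i hi).sub (cut_summable N₂ (tw (ψ i) g) ρ)
    have h2 : tw (ψ i) (tl N₂ g) = tw (ψ i) g - cut N₂ (tw (ψ i) g) := by
      funext n
      rw [Pi.sub_apply, ← cut_add_tl N₂ (tw (ψ i) g) n, tw_tl]
      ring
    rw [h2]
    exact h1
  have hdec : ∀ i ∈ I, LSeries (tw (ψ i) g) ρ - (y : ℂ) =
      (∑ n ∈ Icc 1 N₂, ((if n = 1 then 0 else g n) * (n : ℂ) ^ (-ρ)) * ψ i n) +
        LSeries (tw (ψ i) (tl N₂ g)) ρ := by
    intro i hi
    have h1 : LSeries (tw (ψ i) g) ρ = LSeries (cut N₂ (tw (ψ i) g)) ρ +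
        LSeries (tw (ψ i) (tl N₂ g)) ρ := by
      rw [← LSeries_add (cut_summable N₂ _ _) (hstl i hi)]
      congr 1
      funext n
      rw [Pi.add_apply, tw_tl, cut_add_tl]
    rw [h1, LSeries_cut]
    have h2 : ∑ n ∈ Icc 1 N₂, tw (ψ i) g n * (n : ℂ) ^ (-ρ) = (y : ℂ) +
        ∑ n ∈ Icc 1 N₂, ((if n = 1 then 0 else g n) * (n : ℂ) ^ (-ρ)) * ψ i n := by
      rw [← Finset.add_sum_erase _ _ (show 1 ∈ Icc 1 N₂ by rw [mem_Icc]; exact ⟨le_rfl, hN₂1⟩)]
      rw [← Finset.add_sum_erase _ (fun n => ((if n = 1 then 0 else g n) * (n : ℂ) ^ (-ρ)) * ψ i n)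
        (show 1 ∈ Icc 1 N₂ by rw [mem_Icc]; exact ⟨le_rfl, hN₂1⟩)]
      have e1 : tw (ψ i) g 1 * ((1 : ℕ) : ℂ) ^ (-ρ) = (y : ℂ) := by
        unfold tw
        rw [hone i hi, hg]
        simp only
        rw [ha1]
        simp [hy]
      rw [e1]
      simp only [if_true, zero_mul, zero_add]
      congr 1
      refine Finset.sum_congr rfl fun n hn => ?_
      rw [if_neg (Finset.ne_of_mem_erase hn)]
      unfold tw
      ring
    rw [h2]
    ring
  -- the finite part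
  have hA1 : ∑ i ∈ I, ‖∑ n ∈ Icc 1 N₂, ((if n = 1 then 0 else g n) * (n : ℂ) ^ (-ρ)) * ψ i n‖ ^ 2 ≤
      12 * Real.exp (2 * l) * (Real.exp (-(δ / 10 * l)) * Km) := by
    refine (hls.ls N₂ _).trans ?_
    rw [Real.rpow_zero, mul_one]
    have h1 : ∑ n ∈ Icc 1 N₂, ‖(if n = 1 then 0 else g n) * (n : ℂ) ^ (-ρ)‖ ^ 2 ≤
        Real.exp (-(δ / 10 * l)) * Km := by
      refine le_trans ?_ (mul_le_mul_of_nonneg_left (hms c l δ N₂ hC hl0 hδ0 (by linarith)
        (by rw [mul_comm]; linarith)) (Real.exp_pos _).le)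
      rw [Finset.mul_sum]
      refine Finset.sum_le_sum fun n hn => ?_
      rw [mem_Icc] at hn
      have hn1 : (1 : ℝ) ≤ n := by exact_mod_cast hn.1
      have hn0 : (0 : ℝ) < n := by linarith
      have hnN : (n : ℝ) ≤ Real.exp (2 * l) := le_trans (by exact_mod_cast hn.2) hN₂2
      rcases le_or_gt (n : ℝ) (Real.exp (1 / 10 * l)) with h2 | h2
      · have h3 : (if n = 1 then (0 : ℂ) else g n) = 0 := by
          split_ifs with h4
          · rfl
          · rw [hg]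
            simp only
            rw [hmid n h2, if_neg h4, zero_mul]
        have h30 : ‖(if n = 1 then (0 : ℂ) else g n) * (n : ℂ) ^ (-ρ)‖ ^ 2 = 0 := by
          rw [h3, zero_mul, norm_zero, zero_pow two_ne_zero]
        refine h30.le.trans ?_
        exact mul_nonneg (Real.exp_pos _).le (mul_nonneg (sq_nonneg _)
          (Real.rpow_nonneg hn0.le _))
      · have h3 : ‖(if n = 1 then (0 : ℂ) else g n)‖ ≤ ‖wc b₃ b₁ l c n‖ := by
          split_ifs with h4
          · rw [norm_zero]; positivity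
          · rw [hg]
            simp only
            rw [hwc n hnN, norm_mul, Complex.norm_real, Real.norm_of_nonneg (Ph2_nn _ _ _)]
            exact mul_le_of_le_one_right (norm_nonneg _) (Ph2_le_one _ _ _)
        have h4 : (n : ℝ) ^ (-δ) ≤ Real.exp (-(δ / 10 * l)) := by
          have h5 : (n : ℝ) ^ (-δ) ≤ (Real.exp (1 / 10 * l)) ^ (-δ) :=
            Real.rpow_le_rpow_of_nonpos (Real.exp_pos _) h2.le (by linarith)
          refine h5.trans (le_of_eq ?_)
          rw [← Real.exp_mul]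
          congr 1
          ring
        rw [norm_mul, Complex.norm_natCast_cpow_of_pos (by omega), neg_re, hρre, mul_pow,
          ← Real.rpow_natCast ((n : ℝ) ^ (-(1 / 2 + δ))), ← Real.rpow_mul hn0.le]
        have h5 : (n : ℝ) ^ (-(1 / 2 + δ) * ((2 : ℕ) : ℝ)) = (n : ℝ) ^ (-δ) * (n : ℝ) ^ (-(1 + δ)) := by
          rw [← Real.rpow_add hn0]
          congr 1
          push_cast
          ring
        rw [h5]
        calc ‖(if n = 1 then (0 : ℂ) else g n)‖ ^ 2 * ((n : ℝ) ^ (-δ) * (n : ℝ) ^ (-(1 + δ)))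
            ≤ ‖wc b₃ b₁ l c n‖ ^ 2 * (Real.exp (-(δ / 10 * l)) * (n : ℝ) ^ (-(1 + δ))) := by
              gcongr
          _ = _ := by ring
    have h2 : 6 * (P + (N₂ : ℝ)) ≤ 12 * Real.exp (2 * l) := by linarith
    have h3 : 0 ≤ ∑ n ∈ Icc 1 N₂, ‖(if n = 1 then 0 else g n) * (n : ℂ) ^ (-ρ)‖ ^ 2 :=
      Finset.sum_nonneg fun _ _ => by positivity
    exact mul_le_mul h2 h1 h3 (by positivity)
  -- the tail
  have hθ0 : 0 < 1 / l := by positivity
  have hθ1 : 1 / l ≤ 1 := by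
    rw [div_le_one hl0]; linarith
  have hSBl := hSB (1 / l) hθ0 hθ1
  have hA2 : ∑ i ∈ I, ‖LSeries (tw (ψ i) (tl N₂ g)) ρ‖ ^ 2 ≤
      10 * 6 * (512 * Real.exp 18 * (Real.exp (2 * A) * Kp) * Real.exp ((2 - δ / 10) * l)) := by
    have key := hls.ser (f := tl N₂ g) (s := ρ) (σ := 1 / 2 + δ)
      (B := 32 * Real.exp 18 * (1 + 2 * l) ^ 2 * Real.exp (13 / 8 * l) *
        (Real.exp (2 * A) * (1 / l) ^ (-A))) (by rw [hρre]) hstl fun J => ?_
    · rw [Real.rpow_zero, mul_one] at key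
      refine key.trans ?_
      have h1 : (1 / l) ^ (-A) = l ^ A := by
        rw [one_div, Real.inv_rpow hl0.le, ← Real.rpow_neg hl0.le, neg_neg]
      have h2 : (1 + 2 * l) ^ 2 ≤ 16 * l ^ (2 : ℝ) := by
        rw [show (2 : ℝ) = ((2 : ℕ) : ℝ) by norm_num, Real.rpow_natCast]
        push_cast
        nlinarith
      have h3 : l ^ (A + 2) ≤ Kp * Real.exp (1 / 8 * l) :=
        rpow_le_exp (by linarith) (by norm_num) hl0.le
      have h4 : l ^ (A + 2) = l ^ A * l ^ (2 : ℝ) := Real.rpow_add hl0 _ _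
      have h5 : Real.exp (13 / 8 * l) * Real.exp (1 / 8 * l) ≤ Real.exp ((2 - δ / 10) * l) := by
        rw [← Real.exp_add]
        apply Real.exp_le_exp.2
        nlinarith
      rw [h1]
      calc 10 * 6 * (32 * Real.exp 18 * (1 + 2 * l) ^ 2 * Real.exp (13 / 8 * l) *
            (Real.exp (2 * A) * l ^ A))
          ≤ 10 * 6 * (32 * Real.exp 18 * (16 * l ^ (2 : ℝ)) * Real.exp (13 / 8 * l) *
            (Real.exp (2 * A) * l ^ A)) := by gcongr
        _ = 10 * 6 * (512 * Real.exp 18 * Real.exp (2 * A) * Real.exp (13 / 8 * l) *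
            l ^ (A + 2)) := by rw [h4]; ring
        _ ≤ 10 * 6 * (512 * Real.exp 18 * Real.exp (2 * A) * Real.exp (13 / 8 * l) *
            (Kp * Real.exp (1 / 8 * l))) := by gcongr
        _ = 10 * 6 * (512 * Real.exp 18 * (Real.exp (2 * A) * Kp) *
            (Real.exp (13 / 8 * l) * Real.exp (1 / 8 * l))) := by ring
        _ ≤ _ := by gcongr
    · refine le_trans ?_ (mul_le_mul_of_nonneg_left (hSBl J) (by positivity))
      rw [Finset.mul_sum]
      refine Finset.sum_le_sum fun n hn => ?_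
      rw [mem_Icc] at hn
      have hn1 : (1 : ℝ) ≤ n := by exact_mod_cast hn.1
      have hn0 : (0 : ℝ) < n := by linarith
      have hG := ab4_nn c n
      unfold tl
      split_ifs with hnN
      · rw [norm_zero]
        have : (0 : ℝ) ≤ 32 * Real.exp 18 * (1 + 2 * l) ^ 2 * Real.exp (13 / 8 * l) *
          (ab4 c n * (n : ℝ) ^ (-(1 + 1 / l))) := by positivity
        simpa using this
      · have hnY : Real.exp (2 * l) ≤ n :=
          ((Nat.floor_lt (Real.exp_pos _).le).1 (not_le.1 hnN)).le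
        have hY1 : 1 ≤ Real.exp (2 * l) := Real.one_le_exp (by positivity)
        have h1 := log_split hY1 hnY
        rw [Real.log_exp] at h1
        set Y : ℝ := Real.exp (2 * l) with hY
        have hY0 : 0 < Y := Real.exp_pos _
        set u : ℝ := n / Y with hu
        have hu1 : 1 ≤ u := by rw [hu, le_div_iff₀ hY0, one_mul]; exact hnY
        have hnu : (n : ℝ) = Y * u := by rw [hu]; field_simp
        have h2 : ‖g n‖ ^ 2 ≤ ab4 c n * (Real.exp 18 * Real.exp (6 * (β - Real.log n))) := by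
          have h3 : ‖g n‖ ≤ ab2 c n * (Real.exp 9 * Real.exp (3 * (β - Real.log n))) := by
            rw [hg]
            simp only
            rw [norm_mul, Complex.norm_real, Real.norm_of_nonneg (Ph2_nn _ _ _)]
            exact mul_le_mul (hale n) (Ph2_decay hαβ _) (Ph2_nn _ _ _) (ab2_nn c n)
          refine (pow_le_pow_left₀ (norm_nonneg _) h3 2).trans ?_
          rw [mul_pow, mul_pow, ← Real.exp_nat_mul, ← Real.exp_nat_mul]
          have h4 := ab2_sq c n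
          have e1 : ((2 : ℕ) : ℝ) * 9 = 18 := by norm_num
          have e2 : ((2 : ℕ) : ℝ) * (3 * (β - Real.log n)) = 6 * (β - Real.log n) := by
            push_cast; ring
          rw [e1, e2]
          gcongr
        have h3 : Real.exp (6 * (β - Real.log n)) = Real.exp (93 / 8 * l) * (Y ^ 6)⁻¹ * (u ^ 6)⁻¹ := by
          have e1 : 6 * (β - Real.log n) = 93 / 8 * l - 6 * Real.log n := by rw [hβ]; ring
          rw [e1, Real.exp_sub, mul_assoc, ← mul_inv, ← mul_pow, ← hnu, div_eq_mul_inv]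
          congr 2
          have := Real.exp_nat_mul (Real.log n) 6
          rw [Real.exp_log hn0] at this
          rw [← this]
          norm_num
        have h4 : wt P 0 n ≤ 2 * n * (16 * (1 + 2 * l) ^ 2 * u ^ (1 / 2 : ℝ)) := by
          unfold wt
          rw [Real.rpow_zero, mul_one]
          have : P + n ≤ 2 * n := by linarith
          exact mul_le_mul this h1 (by positivity) (by positivity)
        have h5 : (n : ℝ) ^ (-(2 * (1 / 2 + δ))) ≤ (n : ℝ) ^ (-(1 + 1 / l)) := by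
          refine Real.rpow_le_rpow_of_exponent_le hn1 ?_
          have : 1 / l ≤ 2 * δ := by
            rw [div_le_iff₀ hl0]
            nlinarith
          linarith
        have h6 : Real.exp (93 / 8 * l) * (Y ^ 6)⁻¹ * Y = Real.exp (13 / 8 * l) := by
          have e1 : Y ^ 6 = Real.exp (10 * l) * Y := by
            rw [hY, ← Real.exp_nat_mul, ← Real.exp_add]
            congr 1
            push_cast
            ring
          rw [e1, mul_inv, mul_assoc, mul_assoc, inv_mul_cancel₀ hY0.ne', mul_one,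
            ← Real.exp_neg, ← Real.exp_add]
          congr 1
          ring
        have h7 : u * u ^ (1 / 2 : ℝ) * (u ^ 6)⁻¹ ≤ 1 := by
          have h8 : u ^ (1 / 2 : ℝ) ≤ u := by
            have := Real.rpow_le_rpow_of_exponent_le hu1 (show (1 / 2 : ℝ) ≤ 1 by norm_num)
            rwa [Real.rpow_one] at this
          have h9 : u ^ 2 ≤ u ^ 6 := pow_le_pow_right₀ hu1 (by norm_num)
          rw [← div_eq_mul_inv, div_le_one (by positivity)]
          nlinarith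
        have hwn := wt_nn (show 0 ≤ P by linarith) 0 n
        calc wt P 0 n * (‖g n‖ ^ 2 * (n : ℝ) ^ (-(2 * (1 / 2 + δ))))
            ≤ (2 * n * (16 * (1 + 2 * l) ^ 2 * u ^ (1 / 2 : ℝ))) *
              ((ab4 c n * (Real.exp 18 * Real.exp (6 * (β - Real.log n)))) *
                (n : ℝ) ^ (-(1 + 1 / l))) := by gcongr
          _ = 32 * Real.exp 18 * (1 + 2 * l) ^ 2 * (Real.exp (93 / 8 * l) * (Y ^ 6)⁻¹ * Y) *
              (ab4 c n * (n : ℝ) ^ (-(1 + 1 / l))) * (u * u ^ (1 / 2 : ℝ) * (u ^ 6)⁻¹) := by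
              rw [h3]
              nth_rewrite 1 [hnu]
              ring
          _ ≤ 32 * Real.exp 18 * (1 + 2 * l) ^ 2 * (Real.exp (93 / 8 * l) * (Y ^ 6)⁻¹ * Y) *
              (ab4 c n * (n : ℝ) ^ (-(1 + 1 / l))) * 1 := by gcongr
          _ = _ := by rw [h6]; ring
  have hfin : ∀ i ∈ I, ‖LSeries (tw (ψ i) g) ρ - (y : ℂ)‖ ^ 2 ≤
      2 * ‖∑ n ∈ Icc 1 N₂, ((if n = 1 then 0 else g n) * (n : ℂ) ^ (-ρ)) * ψ i n‖ ^ 2 +
        2 * ‖LSeries (tw (ψ i) (tl N₂ g)) ρ‖ ^ 2 := by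
    intro i hi
    rw [hdec i hi]
    have h1 := norm_add_le (∑ n ∈ Icc 1 N₂, ((if n = 1 then 0 else g n) * (n : ℂ) ^ (-ρ)) * ψ i n)
      (LSeries (tw (ψ i) (tl N₂ g)) ρ)
    have h2 := pow_le_pow_left₀ (norm_nonneg _) h1 2
    nlinarith [sq_nonneg (‖∑ n ∈ Icc 1 N₂, ((if n = 1 then 0 else g n) * (n : ℂ) ^ (-ρ)) * ψ i n‖ -
      ‖LSeries (tw (ψ i) (tl N₂ g)) ρ‖)]
  refine (Finset.sum_le_sum hfin).trans ?_
  rw [Finset.sum_add_distrib, ← Finset.mul_sum, ← Finset.mul_sum]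
  have h1 : Real.exp (2 * l) * Real.exp (-(δ / 10 * l)) = Real.exp ((2 - δ / 10) * l) := by
    rw [← Real.exp_add]
    congr 1
    ring
  have h2 : 2 * (12 * Real.exp (2 * l) * (Real.exp (-(δ / 10 * l)) * Km)) =
      24 * Km * Real.exp ((2 - δ / 10) * l) := by
    rw [← h1]
    ring
  linarith

end Pool.Agent.NH12.BA
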