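import Pool.Agent.NH12.BA.RightA
import Pool.Agent.R399.TW.Cell

/-!
# The two integrals of the mollified values
-/

set_option autoImplicit false

namespace Pool.Agent.NH12.BA

open Finset Filter Topology Complex MeasureTheory
open Pool.Agent.R399.TW Pool.Agent.R399.TM
open scoped ComplexConjugate

/-- the weighted coefficients of the mollifier -/
noncomputable def mw (b₁ : ℝ → ℝ) (l : ℝ) (c : ℕ → ℂ) : ℕ → ℂ :=
  fun n => gw b₁ l n * E (fun k => -c k) n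

/-- the weighted coefficients of the dual sum -/
noncomputable def dw (b₂ : ℝ → ℝ) (l : ℝ) (c : ℕ → ℂ) : ℕ → ℂ := fun n => gw b₂ l n * E c n

/-- the length of the mollifier -/
noncomputable def Xl (l : ℝ) : ℕ := ⌊Real.exp (1 / 8 * l)⌋₊

/-- the length of the dual sum -/
noncomputable def Nl (l : ℝ) : ℕ := ⌊Real.exp (15 / 8 * l)⌋₊

/-- the weights -/
structure Wts (b₁ b₂ b₃ : ℝ → ℝ) : Prop where
  r1 : ∃ φ, Rep b₁ φ
  r1' : ∃ φ, Rep (fun x => Real.exp x * b₁ x) φ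
  r2' : ∃ φ, Rep (fun x => Real.exp x * b₂ x) φ
  r3 : ∃ φ, Rep b₃ φ
  one1 : ∀ x, |x| ≤ 1 / 10 → b₁ x = 1
  zero1 : ∀ x, 1 / 8 ≤ |x| → b₁ x = 0
  nn1 : ∀ x, 0 ≤ b₁ x
  le1 : ∀ x, b₁ x ≤ 1
  one2 : ∀ x, |x| ≤ 7 / 4 → b₂ x = 1
  zero2 : ∀ x, 15 / 8 ≤ |x| → b₂ x = 0
  nn2 : ∀ x, 0 ≤ b₂ x
  le2 : ∀ x, b₂ x ≤ 1
  one3 : ∀ x, |x| ≤ 2 → b₃ x = 1

theorem exists_wts : ∃ b₁ b₂ b₃, Wts b₁ b₂ b₃ := by
  obtain ⟨b₁, φ₁, φ₁', h1, h1', h11, h12, h13, h14⟩ :=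
    bump2 (r := 1 / 10) (R := 1 / 8) (by norm_num) (by norm_num)
  obtain ⟨b₂, φ₂, φ₂', h2, h2', h21, h22, h23, h24⟩ :=
    bump2 (r := 7 / 4) (R := 15 / 8) (by norm_num) (by norm_num)
  obtain ⟨b₃, φ₃, φ₃', h3, h3', h31, h32, h33, h34⟩ :=
    bump2 (r := 2) (R := 3) (by norm_num) (by norm_num)
  exact ⟨b₁, b₂, b₃, ⟨φ₁, h1⟩, ⟨φ₁', h1'⟩, ⟨φ₂', h2'⟩, ⟨φ₃, h3⟩, h11, h12, h13, h14, h21, h22,
    h23, h24, h31⟩

variable {b₁ b₂ b₃ : ℝ → ℝ}

lemma Wts.mw_le (h : Wts b₁ b₂ b₃) (l : ℝ) (c : ℕ → ℂ) (n : ℕ) :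
    ‖mw b₁ l c n‖ ≤ E (fun k => ‖c k‖) n := norm_mul_gw h.nn1 h.le1 l (norm_neg_E_le c) n

lemma Wts.dw_le (h : Wts b₁ b₂ b₃) (l : ℝ) (c : ℕ → ℂ) (n : ℕ) :
    ‖dw b₂ l c n‖ ≤ E (fun k => ‖c k‖) n := norm_mul_gw h.nn2 h.le2 l (norm_E_le c) n

lemma Wts.cut_mw (h : Wts b₁ b₂ b₃) {l : ℝ} (hl : 0 < l) (c : ℕ → ℂ) :
    cut (Xl l) (mw b₁ l c) = mw b₁ l c := cut_gw hl h.zero1 (E_zero _)

lemma Wts.cut_dw (h : Wts b₁ b₂ b₃) {l : ℝ} (hl : 0 < l) (c : ℕ → ℂ) :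
    cut (Nl l) (dw b₂ l c) = dw b₂ l c := cut_gw hl h.zero2 (E_zero _)

lemma Xl_le (l : ℝ) : (Xl l : ℝ) ≤ Real.exp (1 / 8 * l) := Nat.floor_le (Real.exp_pos _).le

lemma Nl_le (l : ℝ) : (Nl l : ℝ) ≤ Real.exp (15 / 8 * l) := Nat.floor_le (Real.exp_pos _).le

/-- **the critical line** -/
theorem part_B (hw : Wts b₁ b₂ b₃) (C : ℝ) :
    ∃ K : ℝ, 0 ≤ K ∧ ∀ {ι : Type} (I : Finset ι) (ψ : ι → ℕ → ℂ) (ε : ι → ℂ → ℂ) (c : ℕ → ℂ)
      (P l δ τ : ℝ),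
      LSv I ψ 6 P 0 → (∀ i ∈ I, ∀ k n, ψ i (k * n) = ψ i k * ψ i n) → Sqb c C →
      (∀ i ∈ I, ∀ t : ℝ, ‖ε i (pt (1 / 2) t)‖ ≤ 1) →
      P ≤ Real.exp (2 * l) → 8 ≤ l → 4 ≤ δ * l → δ ≤ 1 / 2 →
      ∑ i ∈ I, ‖∫ t : ℝ, ε i (pt (1 / 2) t) * (Dg (ψ i) (dw b₂ l c) (Nl l) (pt (1 / 2) t) *
        Mg (ψ i) (mw b₁ l c) (Xl l) (pt (1 / 2) t)) *
          Kr2 (15 / 8 * l) (31 / 16 * l) (pt (1 / 2 + δ) τ) (pt (1 / 2) t)‖ ^ 2 ≤
        K * Real.exp ((2 - δ / 10) * l) := by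
  obtain ⟨φ₁, h1⟩ := hw.r1'
  obtain ⟨φ₂, h2⟩ := hw.r2'
  obtain ⟨Km, hKm, hms⟩ := ms_one h2 h1 C
  refine ⟨12 * Km * (8 * Real.pi * Real.exp 1) ^ 2, by positivity, ?_⟩
  intro ι I ψ ε c P l δ τ hls hmul hC hε hP hl hδl hδ
  have hl0 : 0 < l := by linarith
  have hδ0 : 0 < δ := by
    by_contra hcon
    have : δ * l ≤ 0 := mul_nonpos_of_nonpos_of_nonneg (not_lt.1 hcon) hl0.le
    linarith
  have hP1 := hls.P_ge
  set α : ℝ := 15 / 8 * l with hα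
  set β : ℝ := 31 / 16 * l with hβ
  have hαβ : α < β := by rw [hα, hβ]; linarith
  have hβα : β - α = l / 16 := by rw [hα, hβ]; ring
  set C₁ : ℝ := Real.exp 1 * (2 * Real.exp (-(α * δ)) / (β - α)) with hC₁
  have hC₁0 : 0 ≤ C₁ := by
    have : 0 < β - α := sub_pos.2 hαβ
    positivity
  obtain ⟨hi0, hi1⟩ := inv_quad δ τ hδ0
  set κ : ℝ → ℝ := fun t => C₁ * (δ ^ 2 + (t - τ) ^ 2)⁻¹ with hκdef
  have hκ : Integrable κ := hi0.const_mul C₁
  have hκ0 : ∀ t, 0 ≤ κ t := fun t => by positivity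
  have hmeas : ∀ i ∈ I, AEStronglyMeasurable (fun t : ℝ =>
      Dg (ψ i) (dw b₂ l c) (Nl l) (pt (1 / 2) t) *
      Mg (ψ i) (mw b₁ l c) (Xl l) (pt (1 / 2) t)) volume := by
    intro i _
    have h1 : Differentiable ℂ (Dg (ψ i) (dw b₂ l c) (Nl l)) := rfl1_diff (cut_diff _ _)
    have h2 : Differentiable ℂ (Mg (ψ i) (mw b₁ l c) (Xl l)) := cut_diff _ _
    exact ((h1.continuous.comp (pt_cont _)).mul (h2.continuous.comp (pt_cont _))).aestronglyMeasurable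
  set B : ℝ := 12 * Real.exp (2 * l) * Km with hB
  have hBd : ∀ t : ℝ, ∑ i ∈ I, ‖Dg (ψ i) (dw b₂ l c) (Nl l) (pt (1 / 2) t) *
      Mg (ψ i) (mw b₁ l c) (Xl l) (pt (1 / 2) t)‖ ^ 2 ≤ B := by
    intro t
    have h3 := bound_B2 hls hmul (d := dw b₂ l c) (mm := mw b₁ l c) (S := Km) (N := Nl l)
      (X := Xl l) t (by
        rw [hw.cut_mw hl0, hw.cut_dw hl0]
        exact hms c l _ hC (by linarith))
    refine h3.trans ?_
    have h4 : ((Nl l * Xl l : ℕ) : ℝ) ≤ Real.exp (2 * l) := by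
      push_cast
      calc (Nl l : ℝ) * Xl l ≤ Real.exp (15 / 8 * l) * Real.exp (1 / 8 * l) :=
            mul_le_mul (Nl_le l) (Xl_le l) (Nat.cast_nonneg _) (Real.exp_pos _).le
        _ = Real.exp (2 * l) := by rw [← Real.exp_add]; congr 1; ring
    rw [hB]
    refine mul_le_mul_of_nonneg_right ?_ hKm
    linarith
  have h3 := sum_cs I (fun i t => Dg (ψ i) (dw b₂ l c) (Nl l) (pt (1 / 2) t) *
      Mg (ψ i) (mw b₁ l c) (Xl l) (pt (1 / 2) t))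
    (fun i => ‖∫ t : ℝ, ε i (pt (1 / 2) t) * (Dg (ψ i) (dw b₂ l c) (Nl l) (pt (1 / 2) t) *
        Mg (ψ i) (mw b₁ l c) (Xl l) (pt (1 / 2) t)) *
          Kr2 (15 / 8 * l) (31 / 16 * l) (pt (1 / 2 + δ) τ) (pt (1 / 2) t)‖)
    hκ0 hκ hmeas hBd (fun i _ => norm_nonneg _) (fun i hi => ?_)
  · refine h3.trans ?_
    have h4 : ∫ t, κ t ≤ 8 * Real.pi * Real.exp 1 * Real.exp (-(α * δ)) := by
      rw [hκdef, integral_const_mul, hi1, hC₁, hβα]
      have e1 : Real.exp 1 * (2 * Real.exp (-(α * δ)) / (l / 16)) * (Real.pi / δ) =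
          Real.exp 1 * Real.exp (-(α * δ)) * Real.pi * (32 / (δ * l)) := by
        field_simp
        ring
      rw [e1]
      have e2 : 32 / (δ * l) ≤ 8 := by
        rw [div_le_iff₀ (by positivity)]
        linarith
      calc Real.exp 1 * Real.exp (-(α * δ)) * Real.pi * (32 / (δ * l))
          ≤ Real.exp 1 * Real.exp (-(α * δ)) * Real.pi * 8 := by gcongr
        _ = _ := by ring
    have h5 : 0 ≤ ∫ t, κ t := integral_nonneg hκ0
    have h6 : 0 ≤ B := by positivity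
    calc B * (∫ t, κ t) ^ 2 ≤ B * (8 * Real.pi * Real.exp 1 * Real.exp (-(α * δ))) ^ 2 := by
          gcongr
      _ = 12 * Km * (8 * Real.pi * Real.exp 1) ^ 2 *
          (Real.exp (2 * l) * Real.exp (-(α * δ)) ^ 2) := by rw [hB]; ring
      _ ≤ _ := by
          refine mul_le_mul_of_nonneg_left ?_ (by positivity)
          rw [← Real.exp_nat_mul, ← Real.exp_add]
          apply Real.exp_le_exp.2
          rw [hα]
          push_cast
          nlinarith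
  · refine norm_integral_le_of_norm_le (int_norm_mul hκ0 hκ (hmeas i hi) (B := B) fun t => ?_)
      (Eventually.of_forall fun t => ?_)
    · exact (Finset.single_le_sum (f := fun i => ‖Dg (ψ i) (dw b₂ l c) (Nl l) (pt (1 / 2) t) *
        Mg (ψ i) (mw b₁ l c) (Xl l) (pt (1 / 2) t)‖ ^ 2) (fun i _ => by positivity) hi).trans
          (hBd t)
    · have h4 := hε i hi t
      have h8 := Kr2_half hαβ hδ0 hδ (τ := τ) t
      rw [norm_mul, norm_mul (ε i (pt (1 / 2) t))]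
      set q := ‖Dg (ψ i) (dw b₂ l c) (Nl l) (pt (1 / 2) t) *
        Mg (ψ i) (mw b₁ l c) (Xl l) (pt (1 / 2) t)‖
      have hq : 0 ≤ q := norm_nonneg _
      calc ‖ε i (pt (1 / 2) t)‖ * q * ‖Kr2 α β (pt (1 / 2 + δ) τ) (pt (1 / 2) t)‖
          ≤ 1 * q * κ t := by gcongr
        _ = q * κ t := by ring

lemma Tg_cont {c d ψ : ℕ → ℂ} (hL : Lin c) (hψ : ∀ n, ‖ψ n‖ ≤ 1) (N : ℕ)
    (hd : ∀ n, ‖d n‖ ≤ E (fun k => ‖c k‖) n) :
    Continuous fun t : ℝ => Tg ψ c d N (pt (-1 / 2) t) := by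
  have hz : ∀ t : ℝ, (1 - conj (pt (-1 / 2) t)) = pt (3 / 2) t := by
    intro t
    apply Complex.ext
    · simp; norm_num
    · simp
  have h1 : LSeries.abscissaOfAbsConv (tw ψ fun n => E c n - cut N d n) ≤ ((1 : ℝ) : EReal) :=
    LSeries.abscissaOfAbsConv_le_of_forall_lt_LSeriesSummable fun y hy =>
      ls_tw hψ (ls_of_le hL (K := 2) (tail_le hd N) (by simpa using hy))
  have h2 : ∀ t : ℝ, ContinuousAt (LSeries (tw ψ fun n => E c n - cut N d n)) (pt (3 / 2) t) :=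
    fun t => (LSeries_hasDerivAt (lt_of_le_of_lt h1
      (by rw [pt_re]; exact_mod_cast (by norm_num)))).continuousAt
  have h3 : Continuous fun t : ℝ => LSeries (tw ψ fun n => E c n - cut N d n) (pt (3 / 2) t) :=
    continuous_iff_continuousAt.2 fun t => (h2 t).comp (pt_cont _).continuousAt
  unfold Tg rfl1
  simp only [hz]
  exact Complex.continuous_conj.comp h3

/-- **the left line** -/
theorem part_C (hw : Wts b₁ b₂ b₃) {m : ℕ} (hm : m ≤ 3) {R₀ V A : ℝ} (hR₀ : 0 ≤ R₀) (hV : 0 ≤ V)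
    (hA : 0 ≤ A) :
    ∃ K : ℝ, 0 ≤ K ∧ ∀ {ι : Type} (I : Finset ι) (ψ : ι → ℕ → ℂ) (ε : ι → ℂ → ℂ) (c : ℕ → ℂ)
      (P l δ τ R : ℝ),
      LSv I ψ 6 P 0 → (∀ i ∈ I, ∀ k n, ψ i (k * n) = ψ i k * ψ i n) → Lin c →
      (∀ θ : ℝ, 0 < θ → θ ≤ 1 → SB c θ (Real.exp (2 * A) * θ ^ (-A))) →
      (∀ i ∈ I, ∀ t : ℝ, ‖ε i (pt (-1 / 2) t)‖ ≤ R * (V * (1 + |t|)) ^ m) →
      0 ≤ R → R ≤ R₀ * Real.exp (m * l) →
      P ≤ Real.exp (2 * l) → 8 ≤ l → 4 ≤ δ * l → δ ≤ 1 / 2 →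
      ∑ i ∈ I, ‖∫ t : ℝ, ε i (pt (-1 / 2) t) * (Tg (ψ i) c (dw b₂ l c) (Nl l) (pt (-1 / 2) t) *
        Mg (ψ i) (mw b₁ l c) (Xl l) (pt (-1 / 2) t)) *
          Kr2 (15 / 8 * l) (31 / 16 * l) (pt (1 / 2 + δ) τ) (pt (-1 / 2) t)‖ ^ 2 ≤
        K * (1 + |τ|) ^ (2 * m) * Real.exp ((2 - δ / 10) * l) := by
  have hgm := gI_nn m
  set Kp : ℝ := ((A + 2) / (1 / 2)) ^ (A + 2) with hKp
  have hKp0 : 0 ≤ Kp := by positivity
  refine ⟨60 * 16 * 3 * 4 * (2 * Real.exp 2) * Real.exp (2 * A) * Kp *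
    (R₀ * V ^ m * Real.exp 3 * gI m) ^ 2, by positivity, ?_⟩
  intro ι I ψ ε c P l δ τ R hls hmul hL hSB hε hR hRl hP hl hδl hδ
  have hl0 : 0 < l := by linarith
  have hδ0 : 0 < δ := by
    by_contra hcon
    have : δ * l ≤ 0 := mul_nonpos_of_nonpos_of_nonneg (not_lt.1 hcon) hl0.le
    linarith
  have hP1 := hls.P_ge
  have hm' : (m : ℝ) ≤ 3 := by exact_mod_cast hm
  set α : ℝ := 15 / 8 * l with hα
  set β : ℝ := 31 / 16 * l with hβ
  have hαβ : α ≤ β := by rw [hα, hβ]; linarith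
  have hθ0 : 0 < 1 / l := by positivity
  have hθ2 : 1 / l ≤ 1 / 2 := by
    rw [div_le_div_iff₀ hl0 (by norm_num)]; linarith
  have hSBl := hSB (1 / l) hθ0 (by linarith)
  set M : ℕ := ⌊Real.exp (7 / 4 * l)⌋₊ with hM
  have hM1 : 1 ≤ M := Nat.le_floor (by
    rw [Nat.cast_one]; exact Real.one_le_exp (by positivity))
  have hM1' : (1 : ℝ) ≤ M := by exact_mod_cast hM1
  have hM2 : (M : ℝ) ≤ Real.exp (7 / 4 * l) := Nat.floor_le (Real.exp_pos _).le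
  have hM3 : Real.exp (7 / 4 * l) ≤ 2 * M := by
    have := (Nat.lt_floor_add_one (Real.exp (7 / 4 * l))).le
    have h0 : Real.exp (7 / 4 * l) ≤ (M : ℝ) + 1 := this
    linarith
  set S : ℝ := Real.exp (2 * A) * (1 / l) ^ (-A) with hS
  have hS0 : 0 ≤ S := by positivity
  set B : ℝ := 10 * 6 * ((Xl l : ℝ) ^ 4 * (16 * (1 + P / M) *
        ((1 + Real.log M) ^ 2 * (M : ℝ) ^ (1 / l - 1))) * S) with hB
  have hlM : 0 ≤ Real.log M := Real.log_nonneg hM1'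
  have hB0 : 0 ≤ B := by positivity
  have hdle := hw.dw_le l c
  have hsub : ∀ n, E c n - cut (Nl l) (dw b₂ l c) n = (1 - gw b₂ l n) * E c n := by
    intro n
    rw [hw.cut_dw hl0]
    unfold dw
    ring
  have hBd : ∀ t : ℝ, ∑ i ∈ I, ‖Tg (ψ i) c (dw b₂ l c) (Nl l) (pt (-1 / 2) t) *
      Mg (ψ i) (mw b₁ l c) (Xl l) (pt (-1 / 2) t)‖ ^ 2 ≤ B := by
    intro t
    refine bound_C2 hls hmul hL hSBl hθ2 hM1 (hw.mw_le l c) (fun n => ?_) (fun n hn => ?_) t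
    · rw [hsub, norm_mul]
      have h1 := norm_one_sub_gw hw.nn2 hw.le2 l n
      have h2 := norm_E_le c n
      calc ‖1 - gw b₂ l n‖ * ‖E c n‖ ≤ 1 * E (fun k => ‖c k‖) n := by gcongr
        _ = _ := one_mul _
    · rw [hsub]
      rcases eq_or_ne n 0 with rfl | hn0
      · rw [E_zero, mul_zero]
      · rw [gw_one hl0 hw.one2 hn0 (le_trans (by exact_mod_cast hn) hM2), sub_self, zero_mul]
  set C₂ : ℝ := R * V ^ m * (Real.exp 3 * Real.exp (-(α * (1 + δ)))) with hC₂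
  have hC₂0 : 0 ≤ C₂ := by positivity
  obtain ⟨hi0, hle0⟩ := gint m τ
  set κ : ℝ → ℝ := fun t => C₂ * ((1 + |t|) ^ m * Real.exp (-((t - τ) ^ 2) / 2)) with hκdef
  have hκ : Integrable κ := hi0.const_mul C₂
  have hκ0 : ∀ t, 0 ≤ κ t := fun t => by positivity
  have hmeas : ∀ i ∈ I, AEStronglyMeasurable (fun t : ℝ =>
      Tg (ψ i) c (dw b₂ l c) (Nl l) (pt (-1 / 2) t) *
      Mg (ψ i) (mw b₁ l c) (Xl l) (pt (-1 / 2) t)) volume := by
    intro i hi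
    have h1 := Tg_cont hL (hls.norm_le i hi) (Nl l) hdle
    have h2 : Differentiable ℂ (Mg (ψ i) (mw b₁ l c) (Xl l)) := cut_diff _ _
    exact (h1.mul (h2.continuous.comp (pt_cont _))).aestronglyMeasurable
  have h3 := sum_cs I (fun i t => Tg (ψ i) c (dw b₂ l c) (Nl l) (pt (-1 / 2) t) *
      Mg (ψ i) (mw b₁ l c) (Xl l) (pt (-1 / 2) t))
    (fun i => ‖∫ t : ℝ, ε i (pt (-1 / 2) t) * (Tg (ψ i) c (dw b₂ l c) (Nl l) (pt (-1 / 2) t) *
        Mg (ψ i) (mw b₁ l c) (Xl l) (pt (-1 / 2) t)) *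
          Kr2 (15 / 8 * l) (31 / 16 * l) (pt (1 / 2 + δ) τ) (pt (-1 / 2) t)‖)
    hκ0 hκ hmeas hBd (fun i _ => norm_nonneg _) (fun i hi => ?_)
  · refine h3.trans ?_
    have h4 : ∫ t, κ t ≤ C₂ * ((1 + |τ|) ^ m * gI m) := by
      rw [hκdef, integral_const_mul]
      exact mul_le_mul_of_nonneg_left hle0 hC₂0
    have h5 : 0 ≤ ∫ t, κ t := integral_nonneg hκ0
    -- the bound of `B`
    have hX4 : (Xl l : ℝ) ^ 4 ≤ Real.exp (1 / 2 * l) := by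
      calc (Xl l : ℝ) ^ 4 ≤ Real.exp (1 / 8 * l) ^ 4 := by
            have := Xl_le l
            gcongr
        _ = Real.exp (1 / 2 * l) := by rw [← Real.exp_nat_mul]; congr 1; push_cast; ring
    have hPM : 1 + P / M ≤ 3 * Real.exp (1 / 4 * l) := by
      have h6 : P / M ≤ 2 * Real.exp (1 / 4 * l) := by
        rw [div_le_iff₀ (by linarith)]
        calc P ≤ Real.exp (2 * l) := hP
          _ = Real.exp (1 / 4 * l) * Real.exp (7 / 4 * l) := by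
              rw [← Real.exp_add]; congr 1; ring
          _ ≤ Real.exp (1 / 4 * l) * (2 * M) := by gcongr
          _ = _ := by ring
      have h7 : 1 ≤ Real.exp (1 / 4 * l) := Real.one_le_exp (by positivity)
      linarith
    have hlog : (1 + Real.log M) ^ 2 ≤ 4 * l ^ (2 : ℝ) := by
      have h6 : Real.log M ≤ 7 / 4 * l := by
        rw [Real.log_le_iff_le_exp (by linarith)]
        exact hM2
      rw [show (2 : ℝ) = ((2 : ℕ) : ℝ) by norm_num, Real.rpow_natCast]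
      have h7 : 1 + Real.log M ≤ 2 * l := by linarith
      calc (1 + Real.log M) ^ 2 ≤ (2 * l) ^ 2 := by gcongr
        _ = _ := by ring
    have hMp : (M : ℝ) ^ (1 / l - 1) ≤ 2 * Real.exp 2 * Real.exp (-(7 / 4 * l)) := by
      have hM0 : (0 : ℝ) < M := by linarith
      rw [Real.rpow_sub hM0, Real.rpow_one, div_le_iff₀ hM0]
      have h6 : (M : ℝ) ^ (1 / l) ≤ Real.exp 2 := by
        calc (M : ℝ) ^ (1 / l) ≤ (Real.exp (7 / 4 * l)) ^ (1 / l) := by gcongr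
          _ = Real.exp (7 / 4) := by
              rw [← Real.exp_mul]
              congr 1
              field_simp
          _ ≤ Real.exp 2 := Real.exp_le_exp.2 (by norm_num)
      have h7 : 1 ≤ 2 * Real.exp (-(7 / 4 * l)) * M := by
        calc (1 : ℝ) = Real.exp (-(7 / 4 * l)) * Real.exp (7 / 4 * l) := by
              rw [← Real.exp_add]; simp
          _ ≤ Real.exp (-(7 / 4 * l)) * (2 * M) := by gcongr
          _ = _ := by ring
      calc (M : ℝ) ^ (1 / l) ≤ Real.exp 2 * 1 := by rw [mul_one]; exact h6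
        _ ≤ Real.exp 2 * (2 * Real.exp (-(7 / 4 * l)) * M) := by gcongr
        _ = _ := by ring
    have hSe : S = Real.exp (2 * A) * l ^ A := by
      rw [hS, one_div, Real.inv_rpow hl0.le, ← Real.rpow_neg hl0.le, neg_neg]
    have hpow : l ^ (A + 2) ≤ Kp * Real.exp (1 / 2 * l) :=
      rpow_le_exp (by linarith) (by norm_num) hl0.le
    have hpow2 : l ^ (A + 2) = l ^ A * l ^ (2 : ℝ) := Real.rpow_add hl0 _ _
    have hBb : B ≤ 60 * 16 * 3 * 4 * (2 * Real.exp 2) * Real.exp (2 * A) * Kp *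
        Real.exp (-(1 / 2) * l) := by
      have e1 : Real.exp (1 / 2 * l) * Real.exp (1 / 4 * l) * Real.exp (-(7 / 4 * l)) *
          Real.exp (1 / 2 * l) = Real.exp (-(1 / 2) * l) := by
        rw [← Real.exp_add, ← Real.exp_add, ← Real.exp_add]
        congr 1
        ring
      rw [hB, hSe]
      calc 10 * 6 * ((Xl l : ℝ) ^ 4 * (16 * (1 + P / M) *
            ((1 + Real.log M) ^ 2 * (M : ℝ) ^ (1 / l - 1))) * (Real.exp (2 * A) * l ^ A))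
          ≤ 10 * 6 * (Real.exp (1 / 2 * l) * (16 * (3 * Real.exp (1 / 4 * l)) *
            ((4 * l ^ (2 : ℝ)) * (2 * Real.exp 2 * Real.exp (-(7 / 4 * l))))) *
              (Real.exp (2 * A) * l ^ A)) := by gcongr
        _ = 60 * 16 * 3 * 4 * (2 * Real.exp 2) * Real.exp (2 * A) * (Real.exp (1 / 2 * l) *
            Real.exp (1 / 4 * l) * Real.exp (-(7 / 4 * l))) * l ^ (A + 2) := by
            rw [hpow2]; ring
        _ ≤ 60 * 16 * 3 * 4 * (2 * Real.exp 2) * Real.exp (2 * A) * (Real.exp (1 / 2 * l) *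
            Real.exp (1 / 4 * l) * Real.exp (-(7 / 4 * l))) * (Kp * Real.exp (1 / 2 * l)) := by
            gcongr
        _ = 60 * 16 * 3 * 4 * (2 * Real.exp 2) * Real.exp (2 * A) * Kp * (Real.exp (1 / 2 * l) *
            Real.exp (1 / 4 * l) * Real.exp (-(7 / 4 * l)) * Real.exp (1 / 2 * l)) := by ring
        _ = _ := by rw [e1]
    have hRe : R ≤ R₀ * Real.exp (3 * l) := by
      refine hRl.trans ?_
      have : Real.exp (m * l) ≤ Real.exp (3 * l) := Real.exp_le_exp.2 (by gcongr)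
      gcongr
    calc B * (∫ t, κ t) ^ 2 ≤ B * (C₂ * ((1 + |τ|) ^ m * gI m)) ^ 2 := by gcongr
      _ ≤ (60 * 16 * 3 * 4 * (2 * Real.exp 2) * Real.exp (2 * A) * Kp *
          Real.exp (-(1 / 2) * l)) * (((R₀ * Real.exp (3 * l)) * V ^ m * (Real.exp 3 *
            Real.exp (-(α * (1 + δ))))) * ((1 + |τ|) ^ m * gI m)) ^ 2 := by
          rw [hC₂]
          gcongr
      _ = 60 * 16 * 3 * 4 * (2 * Real.exp 2) * Real.exp (2 * A) * Kp *
          (R₀ * V ^ m * Real.exp 3 * gI m) ^ 2 * (1 + |τ|) ^ (2 * m) *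
          (Real.exp (-(1 / 2) * l) * Real.exp (3 * l) ^ 2 * Real.exp (-(α * (1 + δ))) ^ 2) := by
          rw [pow_mul' (1 + |τ|)]
          ring
      _ ≤ _ := by
          refine mul_le_mul_of_nonneg_left ?_ (by positivity)
          rw [← Real.exp_nat_mul, ← Real.exp_nat_mul, ← Real.exp_add, ← Real.exp_add]
          apply Real.exp_le_exp.2
          rw [hα]
          push_cast
          nlinarith
  · refine norm_integral_le_of_norm_le (int_norm_mul hκ0 hκ (hmeas i hi) (B := B) fun t => ?_)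
      (Eventually.of_forall fun t => ?_)
    · exact (Finset.single_le_sum (f := fun i => ‖Tg (ψ i) c (dw b₂ l c) (Nl l) (pt (-1 / 2) t) *
        Mg (ψ i) (mw b₁ l c) (Xl l) (pt (-1 / 2) t)‖ ^ 2) (fun i _ => by positivity) hi).trans
          (hBd t)
    · have h4 := hε i hi t
      have h8 := Kr2_left hαβ hδ0 hδ (τ := τ) t
      rw [norm_mul, norm_mul (ε i (pt (-1 / 2) t))]
      set q := ‖Tg (ψ i) c (dw b₂ l c) (Nl l) (pt (-1 / 2) t) *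
        Mg (ψ i) (mw b₁ l c) (Xl l) (pt (-1 / 2) t)‖
      have hq : 0 ≤ q := norm_nonneg _
      have h9 : ‖ε i (pt (-1 / 2) t)‖ * ‖Kr2 α β (pt (1 / 2 + δ) τ) (pt (-1 / 2) t)‖ ≤ κ t := by
        calc ‖ε i (pt (-1 / 2) t)‖ * ‖Kr2 α β (pt (1 / 2 + δ) τ) (pt (-1 / 2) t)‖
            ≤ (R * (V * (1 + |t|)) ^ m) * (Real.exp 3 * Real.exp (-(α * (1 + δ))) *
              Real.exp (-((t - τ) ^ 2) / 2)) := by gcongr
          _ = κ t := by
              rw [hκdef, hC₂]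
              simp only
              rw [mul_pow]
              ring
      calc ‖ε i (pt (-1 / 2) t)‖ * q * ‖Kr2 α β (pt (1 / 2 + δ) τ) (pt (-1 / 2) t)‖
          = q * (‖ε i (pt (-1 / 2) t)‖ * ‖Kr2 α β (pt (1 / 2 + δ) τ) (pt (-1 / 2) t)‖) := by ring
        _ ≤ q * κ t := by gcongr

end Pool.Agent.NH12.BA
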