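import Pool.Agent.NH12.BA.Coef
import Mathlib.Analysis.Distribution.SchwartzSpace.Fourier
import Pool.Agent.R399.TW.CS

/-!
# Smooth weights as superpositions of `n^(iu)`
-/

set_option autoImplicit false

namespace Pool.Agent.NH12.BA

open Finset Filter Topology Complex MeasureTheory
open ArithmeticFunction (vonMangoldt)
open Pool.Agent.R399.TW
open scoped FourierTransform ContDiff

/-- `b` is the (inverse) Fourier transform of `φ`, which decreases rapidly -/
structure Rep (b : ℝ → ℝ) (φ : ℝ → ℂ) : Prop where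
  cont : Continuous φ
  int : ∀ k : ℕ, Integrable (fun v : ℝ => (1 + |v|) ^ k * ‖φ v‖)
  eq : ∀ x : ℝ, ((b x : ℝ) : ℂ) =
    ∫ v : ℝ, φ v * cexp (Complex.I * ((2 * Real.pi * v * x : ℝ) : ℂ))

theorem rep_of_smooth {b : ℝ → ℝ} (h1 : ContDiff ℝ ∞ b) (h2 : HasCompactSupport b) :
    ∃ φ, Rep b φ := by
  have h1' : ContDiff ℝ ∞ (fun x => ((b x : ℝ) : ℂ)) := Complex.ofRealCLM.contDiff.comp h1
  have h2' : HasCompactSupport (fun x => ((b x : ℝ) : ℂ)) := by
    refine h2.comp_left (g := fun x : ℝ => (x : ℂ)) ?_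
    simp
  set F : SchwartzMap ℝ ℂ := h2'.toSchwartzMap h1' with hF
  set G : SchwartzMap ℝ ℂ := 𝓕 F with hG
  refine ⟨G, G.continuous, fun k => ?_, fun x => ?_⟩
  · have h3 : ∀ v : ℝ, ‖(1 + |v|) ^ k * ‖G v‖‖ ≤ 2 ^ k * (‖v‖ ^ 0 * ‖G v‖ + ‖v‖ ^ k * ‖G v‖) := by
      intro v
      rw [Real.norm_of_nonneg (by positivity), pow_zero, one_mul, Real.norm_eq_abs]
      have h4 : (1 + |v|) ^ k ≤ 2 ^ k * (1 + |v| ^ k) := by
        rcases le_total |v| 1 with h | h
        · calc (1 + |v|) ^ k ≤ 2 ^ k := by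
                refine pow_le_pow_left₀ (by positivity) (by linarith) k
            _ ≤ 2 ^ k * (1 + |v| ^ k) := le_mul_of_one_le_right (by positivity) (by
                have : 0 ≤ |v| ^ k := by positivity
                linarith)
        · calc (1 + |v|) ^ k ≤ (2 * |v|) ^ k := by
                refine pow_le_pow_left₀ (by positivity) (by linarith) k
            _ = 2 ^ k * |v| ^ k := mul_pow _ _ _
            _ ≤ 2 ^ k * (1 + |v| ^ k) := by gcongr; linarith
      have h5 := norm_nonneg (G v)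
      nlinarith
    refine (((G.integrable_pow_mul volume 0).add (G.integrable_pow_mul volume k)).const_mul
      (2 ^ k)).mono' ?_ (Eventually.of_forall h3)
    have : Continuous fun v : ℝ => (1 + |v|) ^ k * ‖G v‖ := by
      have := G.continuous
      fun_prop
    exact this.aestronglyMeasurable
  · have h3 : (𝓕⁻ G) x = F x := by
      rw [hG]
      rw [FourierTransform.fourierInv_fourier_eq]
    have h4 : F x = ((b x : ℝ) : ℂ) := rfl
    rw [← h4, ← h3, SchwartzMap.fourierInv_coe, Real.fourierInv_eq']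
    refine integral_congr_ae (Eventually.of_forall fun v => ?_)
    simp only [smul_eq_mul, RCLike.inner_apply, conj_trivial]
    rw [mul_comm (G v)]
    congr 2
    push_cast
    ring

/-- a bump function -/
theorem bump {r R : ℝ} (hr : 0 < r) (hR : r < R) : ∃ b : ℝ → ℝ, ContDiff ℝ ∞ b ∧
    HasCompactSupport b ∧ (∀ x, |x| ≤ r → b x = 1) ∧ (∀ x, R ≤ |x| → b x = 0) ∧
    (∀ x, 0 ≤ b x) ∧ ∀ x, b x ≤ 1 := by
  set f : ContDiffBump (0 : ℝ) := ⟨r, R, hr, hR⟩ with hf
  refine ⟨f, f.contDiff, f.hasCompactSupport, fun x hx => ?_, fun x hx => ?_,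
    fun x => f.nonneg, fun x => f.le_one⟩
  · exact f.one_of_mem_closedBall (by simpa [Metric.mem_closedBall, Real.dist_eq] using hx)
  · exact f.zero_of_le_dist (by simpa [Real.dist_eq] using hx)

/-- both representations of a bump function -/
theorem bump2 {r R : ℝ} (hr : 0 < r) (hR : r < R) : ∃ (b : ℝ → ℝ) (φ φ' : ℝ → ℂ),
    Rep b φ ∧ Rep (fun x => Real.exp x * b x) φ' ∧ (∀ x, |x| ≤ r → b x = 1) ∧
    (∀ x, R ≤ |x| → b x = 0) ∧ (∀ x, 0 ≤ b x) ∧ ∀ x, b x ≤ 1 := by
  obtain ⟨b, h1, h2, h3, h4, h5, h6⟩ := bump hr hR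
  obtain ⟨φ, hφ⟩ := rep_of_smooth h1 h2
  obtain ⟨φ', hφ'⟩ := rep_of_smooth (b := fun x => Real.exp x * b x)
    (Real.contDiff_exp.mul h1) (h2.mul_left)
  exact ⟨b, φ, φ', hφ, hφ', h3, h4, h5, h6⟩

/-! ### continuity of the coefficients -/

lemma E_cont {κ : ℝ → ℕ → ℂ} (h : ∀ k, k ≠ 0 → Continuous fun v => κ v k) (n : ℕ) :
    Continuous fun v => E (κ v) n := by
  induction n using Nat.strong_induction_on with
  | _ n ih =>
    rcases Nat.lt_or_ge n 2 with hn | hn
    · interval_cases n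
      · simp only [E_zero]
        exact continuous_const
      · simp only [E_one]
        exact continuous_const
    · have e1 : (fun v => E (κ v) n) = fun v => ((Real.log n : ℝ) : ℂ)⁻¹ *
          ∑ p ∈ n.divisorsAntidiagonal, ((vonMangoldt p.1 : ℝ) : ℂ) * κ v p.1 * E (κ v) p.2 := by
        funext v
        have h1 := E_rec (κ v) n
        have h2 : ((Real.log n : ℝ) : ℂ) ≠ 0 := by
          have : Real.log n ≠ 0 := (Real.log_pos (by exact_mod_cast hn)).ne'
          exact_mod_cast this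
        have h1' : E (κ v) n * ((Real.log n : ℝ) : ℂ) =
          ∑ p ∈ n.divisorsAntidiagonal, ((vonMangoldt p.1 : ℝ) : ℂ) * κ v p.1 * E (κ v) p.2 := h1
        rw [← h1', mul_comm (E (κ v) n), ← mul_assoc, inv_mul_cancel₀ h2, one_mul]
      rw [e1]
      refine continuous_const.mul (continuous_finsetSum _ fun p hp => ?_)
      rw [Nat.mem_divisorsAntidiagonal] at hp
      have hp1 : p.1 ≠ 0 := fun h0 => by rw [h0, zero_mul] at hp; exact hp.2 hp.1.symm
      rcases eq_or_ne p.1 1 with h1 | h1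
      · have : (fun v => ((vonMangoldt p.1 : ℝ) : ℂ) * κ v p.1 * E (κ v) p.2) = fun _ => 0 := by
          funext v
          rw [h1]
          simp
        rw [this]
        exact continuous_const
      · have hp2 : p.2 < n := by
          have h5 : p.2 ≠ 0 := fun h5 => by rw [h5, mul_zero] at hp; exact hp.2 hp.1.symm
          rw [← hp.1]
          have : 2 ≤ p.1 := by omega
          nlinarith [Nat.pos_of_ne_zero h5]
        exact (continuous_const.mul (h _ hp1)).mul (ih _ hp2)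

lemma nu_cont {n : ℕ} (hn : n ≠ 0) {f : ℝ → ℝ} (hf : Continuous f) :
    Continuous fun v => nu (f v) n := by
  have : (fun v => nu (f v) n) = fun v => cexp (Complex.I * ((f v * Real.log n : ℝ) : ℂ)) := by
    funext v
    exact nu_eq hn _
  rw [this]
  fun_prop

lemma cv_cont {f g : ℝ → ℕ → ℂ} (hf : ∀ k, k ≠ 0 → Continuous fun v => f v k)
    (hg : ∀ k, k ≠ 0 → Continuous fun v => g v k) (n : ℕ) :
    Continuous fun v => cv (f v) (g v) n := by
  unfold cv
  refine continuous_finsetSum _ fun p hp => ?_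
  rw [Nat.mem_divisorsAntidiagonal] at hp
  exact (hf _ fun h0 => by rw [h0, zero_mul] at hp; exact hp.2 hp.1.symm).mul
    (hg _ fun h0 => by rw [h0, mul_zero] at hp; exact hp.2 hp.1.symm)

/-- Minkowski's inequality with a rapidly decreasing weight -/
lemma mink {ι : Type} (I : Finset ι) {b : ℝ → ℝ} {φ : ℝ → ℂ} (hφ : Rep b φ) (k : ℕ) (f : ι → ℝ → ℂ)
    (hf : ∀ i ∈ I, Continuous (f i)) {B : ℝ}
    (hB : ∀ v, ∑ i ∈ I, ‖f i v‖ ^ 2 ≤ B * (1 + |v|) ^ (2 * k)) :
    ∑ i ∈ I, ‖∫ v : ℝ, φ v * f i v‖ ^ 2 ≤ B * (∫ v : ℝ, (1 + |v|) ^ k * ‖φ v‖) ^ 2 := by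
  have hp : ∀ v : ℝ, 0 < (1 + |v|) ^ k := fun v => by positivity
  refine sum_cs I (fun i v => ((((1 + |v|) ^ k : ℝ)⁻¹ : ℝ) : ℂ) * f i v)
    (fun i => ‖∫ v : ℝ, φ v * f i v‖) (κ := fun v => (1 + |v|) ^ k * ‖φ v‖) (B := B)
    (fun v => by positivity) (hφ.int k) (fun i hi => ?_) (fun v => ?_) (fun _ _ => norm_nonneg _)
    (fun i hi => ?_)
  · have h1 : Continuous fun v : ℝ => ((((1 + |v|) ^ k : ℝ)⁻¹ : ℝ) : ℂ) := by
      refine Complex.continuous_ofReal.comp (Continuous.inv₀ (by fun_prop) fun v => (hp v).ne')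
    exact (h1.mul (hf i hi)).aestronglyMeasurable
  · have h1 : ∀ i, ‖((((1 + |v|) ^ k : ℝ)⁻¹ : ℝ) : ℂ) * f i v‖ ^ 2 =
        ((1 + |v|) ^ (2 * k))⁻¹ * ‖f i v‖ ^ 2 := by
      intro i
      rw [norm_mul, Complex.norm_real, Real.norm_of_nonneg (by positivity), mul_pow, inv_pow,
        ← pow_mul, mul_comm k 2]
    simp only [h1]
    rw [← Finset.mul_sum, inv_mul_le_iff₀ (by positivity)]
    linarith [hB v]
  · refine (norm_integral_le_integral_norm _).trans (le_of_eq ?_)
    congr 1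
    funext v
    have := (hp v).ne'
    rw [norm_mul, norm_mul, Complex.norm_real, Real.norm_of_nonneg (by positivity)]
    field_simp

end Pool.Agent.NH12.BA
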